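import Mathlib

/-!
# Stringy motives of quotients `V/G` (definitions)

MP_75199a_ag.  `k` is a field, `G` a finite subgroup of `GL_d(k)`, `V = A^d`, `X = V/G = Spec k[V]^G`.
The stringy motive is `M_st(X) = ∫ L^{F_X} dμ_X` over the arc space of `X`.
-/

set_option autoImplicit false

open scoped TensorProduct

namespace H48SM

/-! ### The Grothendieck ring of varieties, with `L` inverted and `q = L^{1/r}` adjoined -/

/-- affine schemes of finite type over `k`, given by their coordinate rings -/
structure Aff (k : Type) [Field k] : Type 1 where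
  /-- the coordinate ring -/
  A : Type
  [ring : CommRing A]
  [alg : Algebra k A]
  [fin : Algebra.FiniteType k A]

attribute [instance] Aff.ring Aff.alg Aff.fin

section
variable {k : Type} [Field k]

/-- the product -/
noncomputable def Aff.prod (X Y : Aff k) : Aff k :=
  @Aff.mk k _ (X.A ⊗[k] Y.A) _ _
    (Algebra.FiniteType.trans (S := X.A) inferInstance
      (Algebra.FiniteType.baseChange X.A))

/-- the closed subscheme `f = 0` -/
noncomputable def Aff.closed (X : Aff k) (f : X.A) : Aff k := ⟨X.A ⧸ Ideal.span {f}⟩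

/-- the principal open subset `f ≠ 0` -/
noncomputable def Aff.opn (X : Aff k) (f : X.A) : Aff k :=
  @Aff.mk k _ (Localization.Away f) _ _
    (by
      have := IsLocalization.finiteType_of_monoid_fg (Submonoid.powers f) (Localization.Away f)
      exact Algebra.FiniteType.trans (S := X.A) inferInstance this)

end

/-- the point -/
def Aff.pt (k : Type) [Field k] : Aff k := ⟨k⟩

/-- the affine line -/
noncomputable def Aff.line (k : Type) [Field k] : Aff k := ⟨Polynomial k⟩

/-- generators of the ring `Mot`: classes of affine schemes, `q` and `q⁻¹` -/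
inductive Gen (k : Type) [Field k] : Type 1
  | cls (X : Aff k)
  | q
  | qi

/-- defining relations: isomorphic schemes have the same class, the class of a product is the
product of the classes, the class of the point is `1`, the scissor relation, `q q⁻¹ = 1` and
`q ^ r = L`; if `β` holds, then also: if `Y → X` is bijective on `K`-points for all algebraically
closed fields `K`, then `X` and `Y` have the same class -/
inductive Rel (k : Type) [Field k] (r : ℕ) (β : Prop) :
    MvPolynomial (Gen k) ℤ → MvPolynomial (Gen k) ℤ → Prop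
  | iso (X Y : Aff k) (e : X.A ≃ₐ[k] Y.A) :
      Rel k r β (MvPolynomial.X (Gen.cls X)) (MvPolynomial.X (Gen.cls Y))
  | prod (X Y : Aff k) :
      Rel k r β (MvPolynomial.X (Gen.cls (X.prod Y)))
        (MvPolynomial.X (Gen.cls X) * MvPolynomial.X (Gen.cls Y))
  | pt : Rel k r β (MvPolynomial.X (Gen.cls (Aff.pt k))) 1
  | scissor (X : Aff k) (f : X.A) :
      Rel k r β (MvPolynomial.X (Gen.cls X))
        (MvPolynomial.X (Gen.cls (X.closed f)) + MvPolynomial.X (Gen.cls (X.opn f)))
  | inv : Rel k r β (MvPolynomial.X Gen.q * MvPolynomial.X Gen.qi) 1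
  | root : Rel k r β (MvPolynomial.X Gen.q ^ r) (MvPolynomial.X (Gen.cls (Aff.line k)))
  | homeo (hβ : β) (X Y : Aff k) (f : X.A →ₐ[k] Y.A)
      (hf : ∀ (K : Type) [Field K] [Algebra k K] [IsAlgClosed K],
        Function.Bijective fun φ : Y.A →ₐ[k] K => φ.comp f) :
      Rel k r β (MvPolynomial.X (Gen.cls X)) (MvPolynomial.X (Gen.cls Y))

/-- `K_0(Var_k)[L^{-1}][L^{1/r}]` if `β` is false; if `β` is true: the same for the modified
Grothendieck ring, in which the two sides of a geometrically bijective morphism are identified -/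
abbrev Mot (k : Type) [Field k] (r : ℕ) (β : Prop) : Type 1 := RingQuot (Rel k r β)

section
variable {k : Type} [Field k] {β : Prop}

/-- the class of an affine scheme -/
noncomputable def cls (r : ℕ) (X : Aff k) : Mot k r β :=
  RingQuot.mkRingHom (Rel k r β) (MvPolynomial.X (Gen.cls X))

/-- `q = L^{1/r}` -/
noncomputable def qq (k : Type) [Field k] (r : ℕ) : Mot k r β :=
  RingQuot.mkRingHom (Rel k r β) (MvPolynomial.X Gen.q)

/-- `q⁻¹` -/
noncomputable def qqi (k : Type) [Field k] (r : ℕ) : Mot k r β :=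
  RingQuot.mkRingHom (Rel k r β) (MvPolynomial.X Gen.qi)

/-- `q ^ j = L ^ (j / r)` for an integer `j` -/
noncomputable def qpow (k : Type) [Field k] (r : ℕ) (j : ℤ) : Mot k r β :=
  qq k r ^ j.toNat * qqi k r ^ (-j).toNat

/-- the dimension filtration: generated by `[X] L^{j/r}` with `dim X + j/r ≤ -m/r` -/
noncomputable def Fil (k : Type) [Field k] (r : ℕ) (m : ℤ) : AddSubgroup (Mot k r β) :=
  AddSubgroup.closure {x | ∃ (X : Aff k) (D : ℕ) (j : ℤ), ringKrullDim X.A ≤ D ∧
    (r : ℤ) * D + j ≤ -m ∧ x = cls r X * qpow k r j}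

/-- the series `∑ u` and `∑ v` converge to the same element, or behave in the same way, in the
completion for the dimension filtration -/
def SameLimit {r : ℕ} (u v : ℕ → Mot k r β) : Prop :=
  ∀ m : ℕ, ∃ N₀ : ℕ, ∀ N ≥ N₀, ∑ i ∈ Finset.range N, u i - ∑ i ∈ Finset.range N, v i ∈ Fil k r m

/-- the series `∑ u` converges in the completion for the dimension filtration -/
def Conv {r : ℕ} (u : ℕ → Mot k r β) : Prop :=
  ∀ m : ℕ, ∃ N₀ : ℕ, ∀ N ≥ N₀, u N ∈ Fil k r m

/-- the `N`-th part of the series `∑_i ξ_i ∏_{l < s} 1 / (L^{a_il / r} - 1)`, where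
`1 / (L^a - 1) = ∑_{m ≥ 1} L^{-ma}` -/
noncomputable def fracSum {r : ℕ} (s n : ℕ) (ξ : Fin n → Mot k r β) (a : Fin n → Fin s → ℕ)
    (N : ℕ) : Mot k r β :=
  ∑ i, ξ i * ∑ m ∈ Finset.Nat.antidiagonalTuple s N,
    ∏ l, qpow k r (-((a i l : ℤ) * (m l + 1)))

/-! ### Classes of constructible sets -/

/-- `ψ` is an immersion: `Spec P` is a closed subscheme of a principal open subset of `Spec R` -/
def IsPiece {R P : Type} [CommRing R] [CommRing P] (ψ : R →+* P) : Prop :=
  ∃ f : R, IsUnit (ψ f) ∧ ∀ p : P, ∃ (g : R) (n : ℕ), p * ψ f ^ n = ψ g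

/-- `T` is a finite disjoint union of affine pieces and `c` is the sum of their classes -/
def HasClass {r : ℕ} {R : Type} [CommRing R] [Algebra k R] (T : Set (PrimeSpectrum R))
    (c : Mot k r β) : Prop :=
  ∃ (m : ℕ) (P : Fin m → Aff k) (ψ : ∀ i, R →ₐ[k] (P i).A), (∀ i, IsPiece (ψ i).toRingHom) ∧
    (∀ i j, i ≠ j → Disjoint (Set.range (PrimeSpectrum.comap (ψ i).toRingHom))
      (Set.range (PrimeSpectrum.comap (ψ j).toRingHom))) ∧
    T = ⋃ i, Set.range (PrimeSpectrum.comap (ψ i).toRingHom) ∧ c = ∑ i, cls r (P i)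

/-! ### The quotient `V/G`, its arcs, and the motivic integral -/

variable {ι : Type} [Fintype ι] [DecidableEq ι]

/-- the action on polynomials by linear substitution -/
noncomputable def subst (g : Matrix.GeneralLinearGroup ι k) :
    MvPolynomial ι k →ₐ[k] MvPolynomial ι k :=
  MvPolynomial.aeval fun i => ∑ j, MvPolynomial.C (g.val i j) * MvPolynomial.X j

/-- the coordinate ring `k[V]^G` of `V/G` -/
noncomputable def Inv (G : Subgroup (Matrix.GeneralLinearGroup ι k)) :
    Subalgebra k (MvPolynomial ι k) where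
  carrier := {f | ∀ g ∈ G, subst g f = f}
  mul_mem' := by
    intro a b ha hb g hg
    rw [map_mul, ha g hg, hb g hg]
  add_mem' := by
    intro a b ha hb g hg
    rw [map_add, ha g hg, hb g hg]
  algebraMap_mem' := by
    intro c g _
    exact (subst g).commutes c

/-- the Jacobian determinant -/
noncomputable def jac (f : ι → MvPolynomial ι k) : MvPolynomial ι k :=
  Matrix.det (Matrix.of fun i j => MvPolynomial.pderiv j (f i))

/-- arcs of `V/G` with coefficients in `K` -/
abbrev Arc (G : Subgroup (Matrix.GeneralLinearGroup ι k)) (K : Type) [Field K] [Algebra k K] :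
    Type := Inv G →ₐ[k] PowerSeries K

/-- generators of the ideal `I_r` of `k[V]^G`, `r = |G|`: the image of `(Ω^d)^{⊗ r}` in
`ω^{[r]} = k[V]^G (dx_1 ∧ ... ∧ dx_d)^r` is `I_r ω^{[r]}` -/
def jacGen (G : Subgroup (Matrix.GeneralLinearGroup ι k)) : Set (Inv G) :=
  {h | ∃ F : Fin (Nat.card G) → ι → Inv G,
    (h : MvPolynomial ι k) = ∏ l, jac fun i => (F l i : MvPolynomial ι k)}

/-- `r F_X(γ)`: the order of the ideal `I_r` along the arc `γ` -/
noncomputable def ordF (G : Subgroup (Matrix.GeneralLinearGroup ι k)) {K : Type} [Field K]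
    [Algebra k K] (γ : Arc G K) : ℕ∞ :=
  ⨅ h ∈ jacGen G, (γ h).order

/-- the `n`-jet of an arc: the coefficients of `t^l`, `l ≤ n`, of all the functions on `V/G` -/
noncomputable def jet (G : Subgroup (Matrix.GeneralLinearGroup ι k)) (n : ℕ) {K : Type} [Field K]
    [Algebra k K] (γ : Arc G K) : MvPolynomial (Inv G × Fin (n + 1)) k →ₐ[k] K :=
  MvPolynomial.aeval fun x => PowerSeries.coeff (x.2 : ℕ) (γ x.1)

/-- the set of `n`-jets of the arcs `γ` with `F_X(γ) = e / r`, as a set of points of the jet
scheme, a closed subscheme of the spectrum of a polynomial ring -/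
def jetSet (G : Subgroup (Matrix.GeneralLinearGroup ι k)) (n e : ℕ) :
    Set (PrimeSpectrum (MvPolynomial (Inv G × Fin (n + 1)) k)) :=
  {p | ∃ (K : Type) (_ : Field K) (_ : Algebra k K) (γ : Arc G K), ordF G γ = e ∧
    p.asIdeal = RingHom.ker (jet G n γ)}

/-- `∑ u` is the motivic integral of `L^{F_X}`: `u e = μ(F_X = e / r) L^{e / r}`, where
`μ(C) = [π_n(C)] L^{-nd}` for all large `n` -/
def IsStringy (G : Subgroup (Matrix.GeneralLinearGroup ι k)) (u : ℕ → Mot k (Nat.card G) β) : Prop :=
  ∀ e : ℕ, ∃ n₀ : ℕ, ∀ n ≥ n₀, ∃ c : Mot k (Nat.card G) β, HasClass (jetSet G n e) c ∧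
    u e = c * qpow k (Nat.card G) (-((Nat.card G : ℤ) * (n * Fintype.card ι))) *
      qpow k (Nat.card G) e

end

end H48SM
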