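import Pool.Agent.H48.SM.Gens

/-! # Module ARCL: arcs lift to the chart

Proof.  `R = K[[t]]` is a discrete valuation ring (a UFD, integrally closed domain).  Write `s_b = γ(u_{b,i_b}) ≠ 0`.
By hypothesis `γ(u_{b,j}) = s_b w_{b,j}`.  Let `M = γ(M_{b,i,j})`, `N_j = γ(NI b j)`, `i = i b`.  The identity in `Inv`
`M^2 + u_i u_j M + N_i u_j^2 + N_j u_i^2 = 0` (characteristic 2; check in `MvPolynomial`) gives
`M^2 + s^2 w_j M + N_i s^2 w_j^2 + N_j s^2 = 0`, so `s^2 ∣ M^2`, `s ∣ M`.  Put `z_{b,j} = M / s_b`.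
Define `α = aeval (s_b ↦ s_b, x_b ↦ γ(NI b (i b)), w_j ↦ w_{b,j}, z_j ↦ z_{b,j}` for `j ≠ i b`, dummies `↦ 0)`.  Then `γ` and
`α ∘ theta i` agree on `uI b j`, `NI b (i b)`, `MI b (i b) j` (`theta_u_piv, theta_u, theta_N, theta_M`), hence on the
`Algebra.adjoin` of GENS; for general `f`: `γ(∏ u)^m γ(f) = (α θ (∏ u))^m (α θ f)` and `γ(∏ u) ≠ 0`: cancel.
-/

set_option autoImplicit false

namespace H48SM

open MvPolynomial

/-- the quadratic equation of `M` -/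
theorem arc_quad {T : ℕ} (b : Fin T) (i j : Fin 3) :
    MI b i j ^ 2 = - ((uI b i * uI b j) * MI b i j + NI b i * uI b j ^ 2 + NI b j * uI b i ^ 2) := by
  apply Subtype.ext
  have h2 : (2 : MvPolynomial (Cx T) (ZMod 2)) = 0 := CharTwo.two_eq_zero
  simp only [MI, uI, NI, Subalgebra.coe_pow, Subalgebra.coe_neg, Subalgebra.coe_add,
    Subalgebra.coe_mul]
  linear_combination (X (b, 0, i) * X (b, 1, j) * X (b, 0, j) * X (b, 1, i) +
    X (b, 0, i) ^ 2 * X (b, 1, j) ^ 2 + X (b, 0, j) ^ 2 * X (b, 1, i) ^ 2 +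
    X (b, 0, i) * X (b, 1, i) * X (b, 1, j) ^ 2 + X (b, 0, j) * X (b, 1, j) * X (b, 1, i) ^ 2) * h2

theorem arc_dvd {T : ℕ} {K : Type} [Field K] [Algebra (ZMod 2) K] (γ : Arc (GB T) K)
    (b : Fin T) (i j : Fin 3) (hd : γ (uI b i) ∣ γ (uI b j)) :
    γ (uI b i) ∣ γ (MI b i j) := by
  obtain ⟨w, hw⟩ := hd
  have h := congrArg γ (arc_quad b i j)
  simp only [map_pow, map_neg, map_add, map_mul] at h
  have h1 : γ (uI b i) ^ 2 ∣ γ (MI b i j) ^ 2 := by
    rw [h, hw]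
    refine ⟨-(w * γ (MI b i j) + γ (NI b i) * w ^ 2 + γ (NI b j)), ?_⟩
    ring
  exact (IsIntegrallyClosed.pow_dvd_pow_iff two_ne_zero).1 h1

/-- the values of the coordinates of the chart -/
noncomputable def arc_val {T : ℕ} {K : Type} [Field K] (i : Fin T → Fin 3)
    (s x : Fin T → PowerSeries K) (w z : Fin T → Fin 3 → PowerSeries K) :
    Fin T × Cv → PowerSeries K
  | (b, Cv.s) => s b
  | (b, Cv.x) => x b
  | (b, Cv.w j) => if j = i b then 0 else w b j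
  | (b, Cv.z j) => if j = i b then 0 else z b j

theorem arc_lift {T : ℕ} {K : Type} [Field K] [Algebra (ZMod 2) K] (γ : Arc (GB T) K)
    (i : Fin T → Fin 3) (h0 : ∀ b, γ (uI b (i b)) ≠ 0)
    (hd : ∀ b j, γ (uI b (i b)) ∣ γ (uI b j)) :
    ∃ α : P T →ₐ[ZMod 2] PowerSeries K, (∀ f, γ f = α (theta i f)) ∧
      ∀ b, α (X (b, Cv.w (i b))) = 0 ∧ α (X (b, Cv.z (i b))) = 0 := by
  have hM : ∀ b j, γ (uI b (i b)) ∣ γ (MI b (i b) j) := fun b j => arc_dvd γ b (i b) j (hd b j)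
  choose w hw using hd
  choose z hz using hM
  set α : P T →ₐ[ZMod 2] PowerSeries K :=
    aeval (arc_val i (fun b => γ (uI b (i b))) (fun b => γ (NI b (i b))) w z) with hα
  have αs : ∀ b, α (X (b, Cv.s)) = γ (uI b (i b)) := fun b => by
    rw [hα, aeval_X]; rfl
  have αx : ∀ b, α (X (b, Cv.x)) = γ (NI b (i b)) := fun b => by
    rw [hα, aeval_X]; rfl
  have αw : ∀ b j, j ≠ i b → α (X (b, Cv.w j)) = w b j := fun b j hj => by
    rw [hα, aeval_X]
    exact if_neg hj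
  have αz : ∀ b j, j ≠ i b → α (X (b, Cv.z j)) = z b j := fun b j hj => by
    rw [hα, aeval_X]
    exact if_neg hj
  have hu : ∀ b j, γ (uI b j) = α (theta i (uI b j)) := by
    intro b j
    by_cases hj : j = i b
    · subst hj
      rw [theta_u_piv, αs]
    · rw [theta_u i b j hj, map_mul, αs, αw b j hj, hw b j]
  have hle : Algebra.adjoin (ZMod 2)
      ((Set.range fun p : Fin T × Fin 3 => uI p.1 p.2) ∪ (Set.range fun b => NI b (i b)) ∪
        {y | ∃ b j, j ≠ i b ∧ y = MI b (i b) j}) ≤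
      AlgHom.equalizer γ (α.comp (theta i)) := by
    refine Algebra.adjoin_le ?_
    rintro y ((⟨p, rfl⟩ | ⟨b, rfl⟩) | ⟨b, j, hj, rfl⟩)
    · exact hu p.1 p.2
    · show γ (NI b (i b)) = α (theta i (NI b (i b)))
      rw [theta_N, αx]
    · show γ (MI b (i b) j) = α (theta i (MI b (i b) j))
      rw [theta_M i b j hj, map_mul, αs, αz b j hj, hz b j]
  refine ⟨α, fun f => ?_, fun b => ⟨?_, ?_⟩⟩
  · obtain ⟨m, hm⟩ := gens i f
    have h1 : γ ((∏ b, uI b (i b)) ^ m * f) = α (theta i ((∏ b, uI b (i b)) ^ m * f)) := hle hm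
    have h2 : γ (∏ b, uI b (i b)) = α (theta i (∏ b, uI b (i b))) := by
      rw [map_prod, map_prod, map_prod]
      exact Finset.prod_congr rfl fun b _ => hu b (i b)
    have h3 : γ (∏ b, uI b (i b)) ≠ 0 := by
      rw [map_prod]
      exact Finset.prod_ne_zero_iff.2 fun b _ => h0 b
    rw [map_mul, map_pow, map_mul, map_mul, map_pow, map_pow, ← h2] at h1
    exact mul_left_cancel₀ (pow_ne_zero m h3) h1
  · rw [hα, aeval_X]
    exact if_pos rfl
  · rw [hα, aeval_X]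
    exact if_pos rfl

end H48SM
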