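import Pool.Agent.H48.SM.Pca

/-! # Module BNA: the number of points is `O(q^dim)`

Proof.  `card_hom_le`: if `X.A` is trivial there are no homomorphisms (`F` is nontrivial).  Otherwise Noether normalisation
(`exists_finite_inj_algHom_of_fg` or similar in `Mathlib/RingTheory/NoetherNormalization.lean`): an injective finite
homomorphism `g : MvPolynomial (Fin s) (ZMod 2) →ₐ X.A`; the Krull dimension of `X.A` is at least that of the polynomial ring (integral
extension: lying over / going up; grep `ringKrullDim` + `IsIntegral`), which is `s` (`MvPolynomial.ringKrullDim_of_isNoetherianRing`), so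
`s ≤ D`.  `X.A` is generated as a module over `g` by finitely many elements `a_1, ..., a_m`, each a root of a monic polynomial
`p_j` over `MvPolynomial (Fin s)`.  A homomorphism `φ : X.A → F` is determined by `φ ∘ g` (at most `|F|^s` choices) and the
`φ a_j`, roots of the image of `p_j`, at most `natDegree p_j` choices each.  `C = ∏ natDegree p_j`.
-/

set_option autoImplicit false

namespace H48SM

/-- lifting of chains of primes along an injective integral extension -/
theorem bna_lift_series {R S : Type} [CommRing R] [CommRing S] [Algebra R S]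
    [Algebra.IsIntegral R S] (hinj : Function.Injective (algebraMap R S)) (n : ℕ) :
    ∀ p : LTSeries (PrimeSpectrum R), p.length = n →
      ∃ q : LTSeries (PrimeSpectrum S), q.length = n ∧
        PrimeSpectrum.comap (algebraMap R S) q.last = p.last := by
  induction n with
  | zero =>
    intro p hp
    obtain ⟨Q, -, hQ, hQ'⟩ := Ideal.exists_ideal_over_prime_of_isIntegral (S := S)
      p.last.asIdeal ⊥ (by
        intro x hx
        have h0 : algebraMap R S x = 0 := by simpa using hx
        have : x = 0 := hinj (by rw [h0, map_zero])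
        rw [this]
        exact Ideal.zero_mem _)
    refine ⟨RelSeries.singleton _ ⟨Q, hQ⟩, rfl, ?_⟩
    exact PrimeSpectrum.ext hQ'
  | succ n ih =>
    intro p hp
    obtain ⟨q, hq, hq'⟩ := ih p.eraseLast (by simp [hp])
    have hlt : p.eraseLast.last < p.last := by
      have := p.eraseLast_last_rel_last (by omega)
      exact this
    obtain ⟨Q, hQ1, hQ, hQ'⟩ := Ideal.exists_ideal_over_prime_of_isIntegral (S := S)
      p.last.asIdeal q.last.asIdeal (by
        have h1 : (PrimeSpectrum.comap (algebraMap R S) q.last).asIdeal ≤ p.last.asIdeal := by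
          rw [hq']
          exact hlt.le
        exact h1)
    have hne : q.last < ⟨Q, hQ⟩ := by
      refine lt_of_le_of_ne hQ1 ?_
      intro h
      have h2 : PrimeSpectrum.comap (algebraMap R S) q.last = p.last := by
        rw [h]
        exact PrimeSpectrum.ext hQ'
      rw [hq'] at h2
      exact hlt.ne h2
    refine ⟨q.snoc ⟨Q, hQ⟩ hne, by simp [hq], ?_⟩
    rw [RelSeries.last_snoc]
    exact PrimeSpectrum.ext hQ'

theorem bna_krullDim_le {R S : Type} [CommRing R] [CommRing S] [Algebra R S]
    [Algebra.IsIntegral R S] (hinj : Function.Injective (algebraMap R S)) :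
    ringKrullDim R ≤ ringKrullDim S := by
  unfold ringKrullDim Order.krullDim
  refine iSup_le fun p => ?_
  obtain ⟨q, hq, -⟩ := bna_lift_series hinj p.length p rfl
  rw [← hq]
  exact le_iSup (fun q : LTSeries (PrimeSpectrum S) => (q.length : WithBot ℕ∞)) q

theorem bna_aux (A : Type) [CommRing A] [Algebra (ZMod 2) A] [Algebra.FiniteType (ZMod 2) A]
    (s : ℕ) (g : MvPolynomial (Fin s) (ZMod 2) →ₐ[ZMod 2] A) (hg : g.Finite) :
    ∃ C : ℕ, ∀ (F : Type) [Field F] [Finite F] [Algebra (ZMod 2) F],
      Nat.card (A →ₐ[ZMod 2] F) ≤ C * Nat.card F ^ s := by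
  classical
  letI : Algebra (MvPolynomial (Fin s) (ZMod 2)) A := g.toRingHom.toAlgebra
  have hfin : Module.Finite (MvPolynomial (Fin s) (ZMod 2)) A := hg
  obtain ⟨m, a, ha⟩ := Submodule.fg_iff_exists_fin_generating_family.mp hfin.fg_top
  have hint : ∀ j, ∃ p : Polynomial (MvPolynomial (Fin s) (ZMod 2)), p.Monic ∧
      p.eval₂ (algebraMap (MvPolynomial (Fin s) (ZMod 2)) A) (a j) = 0 := fun j =>
    (Algebra.IsIntegral.of_finite (MvPolynomial (Fin s) (ZMod 2)) A).isIntegral (a j)
  choose p hp1 hp2 using hint
  refine ⟨∏ j, (p j).natDegree, ?_⟩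
  intro F _ _ _
  have := finite_hom A F
  letI := Fintype.ofFinite (A →ₐ[ZMod 2] F)
  letI := Fintype.ofFinite F
  set f : (A →ₐ[ZMod 2] F) → (Fin s → F) := fun φ i => φ (g (MvPolynomial.X i)) with hf
  have hkey : ∀ φ : A →ₐ[ZMod 2] F, ∀ c, φ (g c) = MvPolynomial.aeval (f φ) c := by
    intro φ c
    have : φ.comp g = MvPolynomial.aeval (f φ) := by
      apply MvPolynomial.algHom_ext
      intro i
      simp [hf]
    rw [← this]
    rfl
  have h1 : (Finset.univ : Finset (A →ₐ[ZMod 2] F)).card ≤
      (∏ j, (p j).natDegree) * ((Finset.univ : Finset (A →ₐ[ZMod 2] F)).image f).card := by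
    apply Finset.card_le_mul_card_image
    intro v _
    have h2 : (Fintype.piFinset fun j : Fin m =>
        ((p j).map (MvPolynomial.aeval v : MvPolynomial (Fin s) (ZMod 2) →ₐ[ZMod 2] F).toRingHom
          ).roots.toFinset).card ≤ ∏ j, (p j).natDegree := by
      rw [Fintype.card_piFinset]
      apply Finset.prod_le_prod'
      intro j _
      exact ((Multiset.toFinset_card_le _).trans (Polynomial.card_roots' _)).trans
        Polynomial.natDegree_map_le
    refine le_trans ?_ h2
    apply Finset.card_le_card_of_injOn (fun φ j => φ (a j))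
    · intro φ hφ
      rw [Finset.mem_coe, Finset.mem_filter] at hφ
      rw [Finset.mem_coe, Fintype.mem_piFinset]
      intro j
      rw [Multiset.mem_toFinset, Polynomial.mem_roots ((hp1 j).map _).ne_zero,
        Polynomial.IsRoot.def, Polynomial.eval_map]
      have h3 := congrArg φ (hp2 j)
      rw [map_zero, ← AlgHom.coe_toRingHom, Polynomial.hom_eval₂] at h3
      rw [← h3]
      have h6 : (MvPolynomial.aeval v : MvPolynomial (Fin s) (ZMod 2) →ₐ[ZMod 2] F).toRingHom =
          ((φ : A →+* F).comp (algebraMap (MvPolynomial (Fin s) (ZMod 2)) A)) := by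
        apply RingHom.ext
        intro c
        have h7 : φ (g c) = MvPolynomial.aeval v c := by rw [hkey, hφ.2]
        exact h7.symm
      rw [h6]
      rfl
    · intro φ hφ φ' hφ' h
      rw [Finset.mem_coe, Finset.mem_filter] at hφ hφ'
      have h4 : ∀ x : A, x ∈ Submodule.span (MvPolynomial (Fin s) (ZMod 2)) (Set.range a) →
          φ x = φ' x := by
        intro x hx
        induction hx using Submodule.span_induction with
        | mem x hx =>
          obtain ⟨j, rfl⟩ := hx
          exact congrFun h j
        | zero => rw [map_zero, map_zero]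
        | add x y _ _ hx hy => rw [map_add, map_add, hx, hy]
        | smul c x _ hx =>
          have : c • x = g c * x := rfl
          rw [this, map_mul, map_mul, hx, hkey, hkey, hφ.2, hφ'.2]
      ext x
      exact h4 x (by rw [ha]; trivial)
  have h5 : ((Finset.univ : Finset (A →ₐ[ZMod 2] F)).image f).card ≤ Fintype.card F ^ s := by
    refine (Finset.card_le_univ _).trans ?_
    rw [Fintype.card_fun, Fintype.card_fin]
  rw [Nat.card_eq_fintype_card, Nat.card_eq_fintype_card, ← Finset.card_univ]
  exact h1.trans (Nat.mul_le_mul_left _ h5)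

theorem card_hom_le (X : Aff (ZMod 2)) (D : ℕ) (hD : ringKrullDim X.A ≤ D) :
    ∃ C : ℕ, ∀ (F : Type) [Field F] [Finite F] [Algebra (ZMod 2) F],
      Nat.card (X.A →ₐ[ZMod 2] F) ≤ C * Nat.card F ^ D := by
  rcases subsingleton_or_nontrivial X.A with hs | hn
  · refine ⟨0, ?_⟩
    intro F _ _ _
    have : IsEmpty (X.A →ₐ[ZMod 2] F) := by
      refine ⟨fun φ => ?_⟩
      have h1 : φ 1 = φ 0 := by rw [Subsingleton.elim (1 : X.A) 0]
      rw [map_one, map_zero] at h1
      exact one_ne_zero h1
    rw [Nat.card_of_isEmpty]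
    exact Nat.zero_le _
  · obtain ⟨s, g, hinj, hfin⟩ := exists_finite_inj_algHom_of_fg (ZMod 2) X.A
    have hsD : s ≤ D := by
      letI : Algebra (MvPolynomial (Fin s) (ZMod 2)) X.A := g.toRingHom.toAlgebra
      have hfin' : Module.Finite (MvPolynomial (Fin s) (ZMod 2)) X.A := hfin
      have := Algebra.IsIntegral.of_finite (MvPolynomial (Fin s) (ZMod 2)) X.A
      have h1 := bna_krullDim_le (R := MvPolynomial (Fin s) (ZMod 2)) (S := X.A) hinj
      rw [MvPolynomial.ringKrullDim_of_isNoetherianRing, ringKrullDim_eq_zero_of_field] at h1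
      have h2 := h1.trans hD
      simp only [zero_add, Nat.card_eq_fintype_card, Fintype.card_fin] at h2
      exact_mod_cast h2
    obtain ⟨C, hC⟩ := bna_aux X.A s g hfin
    refine ⟨C, ?_⟩
    intro F _ _ _
    refine (hC F).trans (Nat.mul_le_mul_left _ (Nat.pow_le_pow_right ?_ hsD))
    exact Nat.card_pos

end H48SM
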