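import Pool.Agent.H48.SM.Pc
import Pool.Agent.H48.SM.Bna

/-! # Module BND: bounds for numbers of points

Proofs.  `fil_bound`: `AddSubgroup.closure_induction`; generators: `|c (cls X * qpow j)| ≤ C (2^(r t))^D * (2^t)^j = C 2^(t (r D + j)) ≤ C (1/2)^(t m)`.
`mot_bound`: every element of `Mot` is `mkRingHom` of a polynomial (`RingQuot.mkRingHom_surjective`): `MvPolynomial.induction_on`; `cls X`:
an integer, bounded by `C 2^(t r D)` (the Krull dimension is finite: `X.A` is a quotient of a polynomial ring); `q`: `2^t`; `qi`: `(2^t)⁻¹`; sums,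
products: enlarge `J`.
-/

set_option autoImplicit false

namespace H48SM

theorem bnd_qqi {β : Prop} {r t : ℕ} {c : Mot (ZMod 2) r β →+* ℝ} (hc : IsPC r t c) :
    c (qqi (ZMod 2) r) = (2 ^ t)⁻¹ := by
  have h : qq (ZMod 2) r * qqi (ZMod 2) r = (1 : Mot (ZMod 2) r β) := by
    have h1 := RingQuot.mkRingHom_rel (Rel.inv (k := ZMod 2) (r := r) (β := β))
    rw [map_mul, map_one] at h1
    exact h1
  have h2 := congrArg c h
  rw [map_mul, map_one, hc.q] at h2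
  exact eq_inv_of_mul_eq_one_right h2

theorem bnd_qpow {β : Prop} {r t : ℕ} {c : Mot (ZMod 2) r β →+* ℝ} (hc : IsPC r t c) (j : ℤ) :
    c (qpow (ZMod 2) r j) = ((2 : ℝ) ^ t) ^ j := by
  unfold qpow
  rw [map_mul, map_pow, map_pow, hc.q, bnd_qqi hc]
  obtain ⟨n, rfl | rfl⟩ := j.eq_nat_or_neg
  · simp
  · simp

theorem bnd_cls {r : ℕ} (hr : 0 < r) (X : Aff (ZMod 2)) (D : ℕ) (hD : ringKrullDim X.A ≤ D) :
    ∃ C : ℝ, 0 ≤ C ∧ ∀ t > 0, ∀ (β : Prop) (c : Mot (ZMod 2) r β →+* ℝ), IsPC r t c →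
      0 ≤ c (cls r X) ∧ c (cls r X) ≤ C * ((2 : ℝ) ^ t) ^ (r * D) := by
  obtain ⟨C, hC⟩ := card_hom_le X D hD
  refine ⟨C, Nat.cast_nonneg C, fun t ht β c hc => ?_⟩
  rw [hc.cls]
  refine ⟨Nat.cast_nonneg _, ?_⟩
  have h1 := hC (GaloisField 2 (r * t))
  rw [GaloisField.card 2 (r * t) (Nat.mul_pos hr ht).ne'] at h1
  have h2 : (Nat.card (X.A →ₐ[ZMod 2] GaloisField 2 (r * t)) : ℝ) ≤
      ((C * (2 ^ (r * t)) ^ D : ℕ) : ℝ) := Nat.cast_le.2 h1
  refine h2.trans (le_of_eq ?_)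
  push_cast
  rw [← pow_mul, ← pow_mul]
  congr 2
  ring

theorem fil_bound {β : Prop} {r : ℕ} (hr : 0 < r) (m : ℕ) (ξ : Mot (ZMod 2) r β)
    (h : ξ ∈ Fil (ZMod 2) r m) :
    ∃ C : ℝ, ∀ t > 0, ∀ c, IsPC r t c → |c ξ| ≤ C * (1 / 2) ^ (t * m) := by
  unfold Fil at h
  induction h using AddSubgroup.closure_induction with
  | mem x hx =>
    obtain ⟨X, D, j, hD, hj, rfl⟩ := hx
    obtain ⟨C, hC0, hC⟩ := bnd_cls hr X D hD
    refine ⟨C, fun t ht c hc => ?_⟩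
    obtain ⟨h1, h2⟩ := hC t ht β c hc
    have hp : (0 : ℝ) < 2 ^ t := by positivity
    have hp1 : (1 : ℝ) ≤ 2 ^ t := one_le_pow₀ (by norm_num)
    rw [map_mul, bnd_qpow hc, abs_of_nonneg (by positivity)]
    calc c (cls r X) * ((2 : ℝ) ^ t) ^ j ≤ C * ((2 : ℝ) ^ t) ^ (r * D) * ((2 : ℝ) ^ t) ^ j :=
          mul_le_mul_of_nonneg_right h2 (by positivity)
      _ = C * ((2 : ℝ) ^ t) ^ ((r : ℤ) * D + j) := by
          rw [mul_assoc, ← zpow_natCast ((2 : ℝ) ^ t) (r * D), ← zpow_add₀ hp.ne']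
          push_cast
          rfl
      _ ≤ C * ((2 : ℝ) ^ t) ^ (-(m : ℤ)) :=
          mul_le_mul_of_nonneg_left (zpow_le_zpow_right₀ hp1 hj) hC0
      _ = C * (1 / 2) ^ (t * m) := by
          rw [zpow_neg, zpow_natCast, ← pow_mul, one_div, inv_pow]
  | zero =>
    refine ⟨0, fun t _ c _ => ?_⟩
    rw [map_zero, abs_zero, zero_mul]
  | add x y _ _ hx hy =>
    obtain ⟨C, hC⟩ := hx
    obtain ⟨C', hC'⟩ := hy
    refine ⟨C + C', fun t ht c hc => ?_⟩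
    rw [map_add, add_mul]
    exact (abs_add_le _ _).trans (add_le_add (hC t ht c hc) (hC' t ht c hc))
  | neg x _ hx =>
    obtain ⟨C, hC⟩ := hx
    refine ⟨C, fun t ht c hc => ?_⟩
    rw [map_neg, abs_neg]
    exact hC t ht c hc

/-- the property in `mot_bound` -/
def BndP {β : Prop} (r : ℕ) (ξ : Mot (ZMod 2) r β) : Prop :=
  ∃ (J : ℕ) (C : ℝ), ∀ t > 0, ∀ c, IsPC r t c →
      |c ξ| ≤ C * 2 ^ (t * J) ∧ ∃ z : ℤ, c ξ * 2 ^ (t * J) = z

theorem bnd_krull (X : Aff (ZMod 2)) : ∃ D : ℕ, ringKrullDim X.A ≤ D := by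
  obtain ⟨n, f, hf⟩ := Algebra.FiniteType.iff_quotient_mvPolynomial''.1 X.fin
  refine ⟨n, ?_⟩
  have h1 := ringKrullDim_le_of_surjective f.toRingHom hf
  have h2 : ringKrullDim (MvPolynomial (Fin n) (ZMod 2)) = n := by
    rw [MvPolynomial.ringKrullDim_of_isNoetherianRing, ringKrullDim_eq_zero_of_field]
    simp
  rw [h2] at h1
  exact h1

theorem BndP.add {β : Prop} {r : ℕ} {ξ η : Mot (ZMod 2) r β} (h : BndP r ξ) (h' : BndP r η) :
    BndP r (ξ + η) := by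
  obtain ⟨J, C, h⟩ := h
  obtain ⟨J', C', h'⟩ := h'
  refine ⟨J + J', |C| + |C'|, fun t ht c hc => ?_⟩
  obtain ⟨h1, z, hz⟩ := h t ht c hc
  obtain ⟨h1', z', hz'⟩ := h' t ht c hc
  have e : (2 : ℝ) ^ (t * (J + J')) = 2 ^ (t * J) * 2 ^ (t * J') := by rw [mul_add, pow_add]
  have hp : (1 : ℝ) ≤ 2 ^ (t * J) := one_le_pow₀ (by norm_num)
  have hp' : (1 : ℝ) ≤ 2 ^ (t * J') := one_le_pow₀ (by norm_num)
  rw [map_add, e]
  constructor
  · have h2 : C * 2 ^ (t * J) ≤ |C| * (2 ^ (t * J) * 2 ^ (t * J')) := by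
      calc C * 2 ^ (t * J) ≤ |C| * 2 ^ (t * J) :=
            mul_le_mul_of_nonneg_right (le_abs_self C) (by positivity)
        _ ≤ |C| * (2 ^ (t * J) * 2 ^ (t * J')) :=
            mul_le_mul_of_nonneg_left (le_mul_of_one_le_right (by positivity) hp') (abs_nonneg C)
    have h2' : C' * 2 ^ (t * J') ≤ |C'| * (2 ^ (t * J) * 2 ^ (t * J')) := by
      calc C' * 2 ^ (t * J') ≤ |C'| * 2 ^ (t * J') :=
            mul_le_mul_of_nonneg_right (le_abs_self C') (by positivity)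
        _ ≤ |C'| * (2 ^ (t * J) * 2 ^ (t * J')) :=
            mul_le_mul_of_nonneg_left (le_mul_of_one_le_left (by positivity) hp) (abs_nonneg C')
    rw [add_mul]
    exact (abs_add_le _ _).trans (add_le_add (h1.trans h2) (h1'.trans h2'))
  · refine ⟨z * 2 ^ (t * J') + z' * 2 ^ (t * J), ?_⟩
    push_cast
    rw [← hz, ← hz']
    ring

theorem BndP.mul {β : Prop} {r : ℕ} {ξ η : Mot (ZMod 2) r β} (h : BndP r ξ) (h' : BndP r η) :
    BndP r (ξ * η) := by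
  obtain ⟨J, C, h⟩ := h
  obtain ⟨J', C', h'⟩ := h'
  refine ⟨J + J', |C| * |C'|, fun t ht c hc => ?_⟩
  obtain ⟨h1, z, hz⟩ := h t ht c hc
  obtain ⟨h1', z', hz'⟩ := h' t ht c hc
  have e : (2 : ℝ) ^ (t * (J + J')) = 2 ^ (t * J) * 2 ^ (t * J') := by rw [mul_add, pow_add]
  rw [map_mul, e]
  constructor
  · have h2 : C * 2 ^ (t * J) ≤ |C| * 2 ^ (t * J) :=
      mul_le_mul_of_nonneg_right (le_abs_self C) (by positivity)
    have h2' : C' * 2 ^ (t * J') ≤ |C'| * 2 ^ (t * J') :=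
      mul_le_mul_of_nonneg_right (le_abs_self C') (by positivity)
    rw [abs_mul]
    calc |c ξ| * |c η| ≤ (|C| * 2 ^ (t * J)) * (|C'| * 2 ^ (t * J')) :=
          mul_le_mul (h1.trans h2) (h1'.trans h2') (abs_nonneg _) (by positivity)
      _ = |C| * |C'| * (2 ^ (t * J) * 2 ^ (t * J')) := by ring
  · refine ⟨z * z', ?_⟩
    push_cast
    rw [← hz, ← hz']
    ring

theorem mot_bound {β : Prop} {r : ℕ} (hr : 0 < r) (ξ : Mot (ZMod 2) r β) :
    ∃ (J : ℕ) (C : ℝ), ∀ t > 0, ∀ c, IsPC r t c →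
      |c ξ| ≤ C * 2 ^ (t * J) ∧ ∃ z : ℤ, c ξ * 2 ^ (t * J) = z := by
  change BndP r ξ
  obtain ⟨p, hp⟩ := RingQuot.mkRingHom_surjective (Rel (ZMod 2) r β) ξ
  rw [← hp]
  clear hp ξ
  induction p using MvPolynomial.induction_on with
  | C a =>
    refine ⟨0, |(a : ℝ)|, fun t _ c _ => ?_⟩
    have h1 : RingQuot.mkRingHom (Rel (ZMod 2) r β) (MvPolynomial.C a) =
        ((a : ℤ) : RingQuot (Rel (ZMod 2) r β)) := by
      have h2 : (MvPolynomial.C a : MvPolynomial (Gen (ZMod 2)) ℤ) = ((a : ℤ) :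
        MvPolynomial (Gen (ZMod 2)) ℤ) := by simp
      rw [h2, map_intCast]
    have h3 : c (RingQuot.mkRingHom (Rel (ZMod 2) r β) (MvPolynomial.C a)) = (a : ℝ) := by
      rw [h1]
      exact map_intCast c a
    rw [h3]
    refine ⟨by simp, a, by simp⟩
  | add p q hp hq =>
    rw [map_add]
    exact BndP.add hp hq
  | mul_X p i hp =>
    rw [map_mul]
    refine BndP.mul hp ?_
    cases i with
    | cls X =>
      obtain ⟨D, hD⟩ := bnd_krull X
      obtain ⟨C, hC0, hC⟩ := bnd_cls hr X D hD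
      refine ⟨r * D, C, fun t ht c hc => ?_⟩
      obtain ⟨h1, h2⟩ := hC t ht β c hc
      have e : (2 : ℝ) ^ (t * (r * D)) = (2 ^ t) ^ (r * D) := by rw [pow_mul]
      have h3 : c (RingQuot.mkRingHom (Rel (ZMod 2) r β) (MvPolynomial.X (Gen.cls X))) =
        c (cls r X) := rfl
      rw [h3, e]
      refine ⟨by rw [abs_of_nonneg h1]; exact h2,
        (Nat.card (X.A →ₐ[ZMod 2] GaloisField 2 (r * t)) : ℤ) * (2 ^ t) ^ (r * D), ?_⟩
      rw [hc.cls]
      push_cast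
      rfl
    | q =>
      refine ⟨1, 1, fun t _ c hc => ?_⟩
      have h3 : c (RingQuot.mkRingHom (Rel (ZMod 2) r β) (MvPolynomial.X Gen.q)) = 2 ^ t := hc.q
      rw [h3]
      refine ⟨by rw [mul_one, one_mul, abs_of_nonneg (by positivity)], 2 ^ t * 2 ^ t, ?_⟩
      push_cast
      rw [mul_one]
    | qi =>
      refine ⟨1, 1, fun t _ c hc => ?_⟩
      have h3 : c (RingQuot.mkRingHom (Rel (ZMod 2) r β) (MvPolynomial.X Gen.qi)) = (2 ^ t)⁻¹ :=
        bnd_qqi hc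
      have hp1 : (1 : ℝ) ≤ 2 ^ t := one_le_pow₀ (by norm_num)
      rw [h3]
      refine ⟨?_, 1, ?_⟩
      · rw [mul_one, one_mul, abs_of_nonneg (by positivity)]
        exact (inv_le_one_of_one_le₀ hp1).trans hp1
      · rw [mul_one, inv_mul_cancel₀ (by positivity)]
        simp

end H48SM
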