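import Pool.Agent.H48.SM.Clo

/-! # Module CLA: the class of a piece

Proof.  `lead = ∏ c ∈ univ.image (ldi e i n h), X c` (`ldi` is injective: its first component is `b`), so `cls_opn_prod`.
Cardinality of `Ax e i n`: sum over `(p, l)` of the indicator of `allowed`: block `b`: `s`: `n + 1 - e b`; `x`: `n + 1`; `w j`, `j ≠ i b`:
`n + 1 - e b`, minus 1 if `j < i b` (possible since `e b ≤ n`); `z j`, `j ≠ i b`: `n + 1 - e b`; dummies `0`.  The number of `j < i b` is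
`i b`.  Total in the block: `6 (n+1) - 5 e b - i b`.  (`Fintype.card_subtype`, `Finset.card_filter`, sums over products; the sum
over `Cv` is `s + x + ∑ j w j + ∑ j z j`: e.g. an explicit `Finset.univ` of `Cv` by `decide`/`rfl`, `Fin.sum_univ_three`.)
-/

set_option autoImplicit false

namespace H48SM

theorem CLA_count (n a b : ℕ) (h : a + b ≤ n + 1) :
    (((Finset.univ : Finset (Fin (n + 1))).filter
      fun l : Fin (n + 1) => a ≤ (l : ℕ) ∧ (l : ℕ) + b ≤ n).card : ℤ) = (n : ℤ) + 1 - b - a := by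
  have h1 : ((Finset.univ : Finset (Fin (n + 1))).filter
      fun l : Fin (n + 1) => a ≤ (l : ℕ) ∧ (l : ℕ) + b ≤ n).card = n + 1 - b - a := by
    rw [Finset.card_filter, Fin.sum_univ_eq_sum_range
      (fun l => if a ≤ l ∧ l + b ≤ n then 1 else 0) (n + 1), ← Finset.card_filter]
    have h2 : (Finset.range (n + 1)).filter (fun l => a ≤ l ∧ l + b ≤ n) =
        Finset.Ico a (n + 1 - b) := by
      ext l
      simp only [Finset.mem_filter, Finset.mem_range, Finset.mem_Ico]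
      omega
    rw [h2, Nat.card_Ico]
  rw [h1]
  omega

theorem CLA_univ : (Finset.univ : Finset Cv) =
    {Cv.s, Cv.x, Cv.w 0, Cv.w 1, Cv.w 2, Cv.z 0, Cv.z 1, Cv.z 2} := by
  decide

theorem CLA_sum (f : Cv → ℤ) : ∑ c, f c = f Cv.s + f Cv.x + f (Cv.w 0) + f (Cv.w 1) + f (Cv.w 2) +
    f (Cv.z 0) + f (Cv.z 1) + f (Cv.z 2) := by
  rw [CLA_univ]
  rw [Finset.sum_insert (by decide), Finset.sum_insert (by decide), Finset.sum_insert (by decide),
    Finset.sum_insert (by decide), Finset.sum_insert (by decide), Finset.sum_insert (by decide),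
    Finset.sum_insert (by decide), Finset.sum_singleton]
  ring

/-- the number of coefficients of the coordinate `p` -/
def CLA_N {T : ℕ} (e : Fin T → ℕ) (i : Fin T → Fin 3) (n : ℕ) (b : Fin T) (c : Cv) : ℤ :=
  (((Finset.univ : Finset (Fin (n + 1))).filter fun l : Fin (n + 1) => allowed e i n (b, c) l).card : ℤ)

theorem CLA_eq {T : ℕ} {e : Fin T → ℕ} {i : Fin T → Fin 3} {n : ℕ} {b : Fin T} {c : Cv}
    (a d : ℕ) (hd : a + d ≤ n + 1)
    (h : ∀ l : ℕ, l ≤ n → (allowed e i n (b, c) l ↔ a ≤ l ∧ l + d ≤ n)) :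
    CLA_N e i n b c = (n : ℤ) + 1 - d - a := by
  rw [← CLA_count n a d hd, CLA_N]
  congr 2
  ext l
  simp only [Finset.mem_filter, Finset.mem_univ, true_and]
  exact h l (Nat.lt_succ_iff.1 l.2)

theorem CLA_s {T : ℕ} {e : Fin T → ℕ} {i : Fin T → Fin 3} {n : ℕ} {b : Fin T} (h : e b ≤ n) :
    CLA_N e i n b Cv.s = (n : ℤ) + 1 - e b := by
  rw [CLA_eq (e b) 0 (by omega)]
  · push_cast; ring
  · intro l hl
    unfold allowed
    constructor
    · rintro ⟨h1, h2, -⟩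
      exact ⟨h2 rfl, by omega⟩
    · rintro ⟨h1, h2⟩
      exact ⟨hl, fun _ => h1, fun j => ⟨nofun, nofun⟩⟩

theorem CLA_x {T : ℕ} {e : Fin T → ℕ} {i : Fin T → Fin 3} {n : ℕ} {b : Fin T} :
    CLA_N e i n b Cv.x = (n : ℤ) + 1 := by
  rw [CLA_eq 0 0 (by omega)]
  · push_cast; ring
  · intro l hl
    unfold allowed
    constructor
    · rintro ⟨h1, h2, -⟩
      exact ⟨by omega, by omega⟩
    · rintro ⟨h1, h2⟩
      exact ⟨hl, nofun, fun j => ⟨nofun, nofun⟩⟩

theorem CLA_z {T : ℕ} {e : Fin T → ℕ} {i : Fin T → Fin 3} {n : ℕ} {b : Fin T} (h : e b ≤ n)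
    (j : Fin 3) (hj : j ≠ i b) : CLA_N e i n b (Cv.z j) = (n : ℤ) + 1 - e b := by
  rw [CLA_eq 0 (e b) (by omega)]
  · push_cast; ring
  · intro l hl
    unfold allowed
    constructor
    · rintro ⟨h1, -, h2⟩
      exact ⟨by omega, ((h2 j).2 rfl).2⟩
    · rintro ⟨h1, h2⟩
      refine ⟨hl, nofun, fun j' => ⟨nofun, fun hjj => ?_⟩⟩
      cases hjj
      exact ⟨hj, h2⟩

theorem CLA_z' {T : ℕ} {e : Fin T → ℕ} {i : Fin T → Fin 3} {n : ℕ} {b : Fin T}
    (j : Fin 3) (hj : j = i b) : CLA_N e i n b (Cv.z j) = 0 := by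
  rw [CLA_N, Int.natCast_eq_zero, Finset.card_eq_zero, Finset.filter_eq_empty_iff]
  rintro l - ⟨-, -, h2⟩
  exact ((h2 j).2 rfl).1 hj

theorem CLA_w' {T : ℕ} {e : Fin T → ℕ} {i : Fin T → Fin 3} {n : ℕ} {b : Fin T}
    (j : Fin 3) (hj : j = i b) : CLA_N e i n b (Cv.w j) = 0 := by
  rw [CLA_N, Int.natCast_eq_zero, Finset.card_eq_zero, Finset.filter_eq_empty_iff]
  rintro l - ⟨-, -, h2⟩
  exact ((h2 j).1 rfl).1 hj

theorem CLA_w {T : ℕ} {e : Fin T → ℕ} {i : Fin T → Fin 3} {n : ℕ} {b : Fin T} (h : e b ≤ n)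
    (j : Fin 3) (hj : i b < j) : CLA_N e i n b (Cv.w j) = (n : ℤ) + 1 - e b := by
  rw [CLA_eq 0 (e b) (by omega)]
  · push_cast; ring
  · intro l hl
    unfold allowed
    constructor
    · rintro ⟨h1, -, h2⟩
      exact ⟨by omega, ((h2 j).1 rfl).2.1⟩
    · rintro ⟨h1, h2⟩
      refine ⟨hl, nofun, fun j' => ⟨fun hjj => ?_, nofun⟩⟩
      cases hjj
      exact ⟨hj.ne', h2, fun h3 => absurd (h3.trans hj) (lt_irrefl _)⟩

theorem CLA_w1 {T : ℕ} {e : Fin T → ℕ} {i : Fin T → Fin 3} {n : ℕ} {b : Fin T} (h : e b ≤ n)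
    (j : Fin 3) (hj : j < i b) : CLA_N e i n b (Cv.w j) = (n : ℤ) + 1 - e b - 1 := by
  rw [CLA_eq 1 (e b) (by omega)]
  · push_cast; ring
  · intro l hl
    unfold allowed
    constructor
    · rintro ⟨h1, -, h2⟩
      exact ⟨((h2 j).1 rfl).2.2 hj, ((h2 j).1 rfl).2.1⟩
    · rintro ⟨h1, h2⟩
      refine ⟨hl, nofun, fun j' => ⟨fun hjj => ?_, nofun⟩⟩
      cases hjj
      exact ⟨hj.ne, h2, fun _ => h1⟩

theorem card_Ax {T : ℕ} (e : Fin T → ℕ) (i : Fin T → Fin 3) (n : ℕ) (h : ∀ b, e b ≤ n) :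
    (Fintype.card (Ax e i n) : ℤ) = ∑ b, (6 * ((n : ℤ) + 1) - 5 * e b - ((i b : ℕ) : ℤ)) := by
  have h1 : (Fintype.card (Ax e i n) : ℤ) = ∑ b, ∑ c, CLA_N e i n b c := by
    rw [Fintype.card_subtype, Finset.card_filter, Fintype.sum_prod_type, Fintype.sum_prod_type]
    push_cast
    refine Finset.sum_congr rfl fun b _ => Finset.sum_congr rfl fun c _ => ?_
    rw [CLA_N, Finset.card_filter]
    push_cast
    rfl
  rw [h1]
  refine Finset.sum_congr rfl fun b _ => ?_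
  rw [CLA_sum, CLA_s (h b), CLA_x]
  have h3 : i b = 0 ∨ i b = 1 ∨ i b = 2 := by
    generalize i b = j
    fin_cases j <;> simp
  rcases h3 with h3 | h3 | h3
  · rw [CLA_w' 0 h3.symm, CLA_z' 0 h3.symm, CLA_w (h b) 1 (by rw [h3]; decide),
      CLA_w (h b) 2 (by rw [h3]; decide), CLA_z (h b) 1 (by rw [h3]; decide),
      CLA_z (h b) 2 (by rw [h3]; decide), h3]
    simp only [Fin.val_zero]
    push_cast
    ring
  · rw [CLA_w' 1 h3.symm, CLA_z' 1 h3.symm, CLA_w1 (h b) 0 (by rw [h3]; decide),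
      CLA_w (h b) 2 (by rw [h3]; decide), CLA_z (h b) 0 (by rw [h3]; decide),
      CLA_z (h b) 2 (by rw [h3]; decide), h3]
    have : ((1 : Fin 3) : ℕ) = 1 := rfl
    rw [this]
    push_cast
    ring
  · rw [CLA_w' 2 h3.symm, CLA_z' 2 h3.symm, CLA_w1 (h b) 0 (by rw [h3]; decide),
      CLA_w1 (h b) 1 (by rw [h3]; decide), CLA_z (h b) 0 (by rw [h3]; decide),
      CLA_z (h b) 1 (by rw [h3]; decide), h3]
    have : ((2 : Fin 3) : ℕ) = 2 := rfl
    rw [this]
    push_cast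
    ring

theorem cls_DD (β : Prop) {T : ℕ} (e : Fin T → ℕ) (i : Fin T → Fin 3) (n : ℕ) (h : ∀ b, e b ≤ n) :
    (cls (rr T) (DD e i n h) : Mot (ZMod 2) (rr T) β) = (qpow (ZMod 2) (rr T) (rr T) - 1) ^ T *
      qpow (ZMod 2) (rr T) ((rr T : ℤ) *
        (∑ b, (6 * ((n : ℤ) + 1) - 5 * e b - ((i b : ℕ) : ℤ)) - T)) := by
  have hinj : Function.Injective (ldi e i n h) := by
    intro b b' hb
    have := congrArg (fun x => x.1.1.1) hb
    exact this
  have h1 : lead e i n h = ∏ c ∈ Finset.univ.image (ldi e i n h),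
      (MvPolynomial.X c : MvPolynomial (Ax e i n) (ZMod 2)) := by
    rw [Finset.prod_image (fun x _ y _ hxy => hinj hxy)]
    rfl
  have h2 : (Finset.univ.image (ldi e i n h)).card = T := by
    rw [Finset.card_image_of_injective _ hinj, Finset.card_univ, Fintype.card_fin]
  have h3 := cls_opn_prod (k := ZMod 2) (r := rr T) (β := β) (Ax e i n)
    (Finset.univ.image (ldi e i n h))
  rw [h2, card_Ax e i n h] at h3
  have h4 : (cls (rr T) (DD e i n h) : Mot (ZMod 2) (rr T) β) =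
      cls (rr T) ((Aff.poly (ZMod 2) (Ax e i n)).opn (∏ c ∈ Finset.univ.image (ldi e i n h),
        (MvPolynomial.X c : MvPolynomial (Ax e i n) (ZMod 2)))) := by
    unfold DD
    rw [h1]
    rfl
  exact h4.trans h3

end H48SM
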