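import Pool.Agent.H48.SM.Clq

/-! # Module CLO: class of affine space minus coordinate hyperplanes -/

set_option autoImplicit false

namespace H48SM

open MvPolynomial

section
variable {k : Type} [Field k] {A B : Type} [CommRing A] [Algebra k A] [CommRing B] [Algebra k B]

/-- lift of an algebra homomorphism to the localisation -/
noncomputable def cloLift (g : A) (f : A →ₐ[k] B) (h : IsUnit (f g)) :
    Localization.Away g →ₐ[k] B :=
  IsLocalization.liftAlgHom (M := Submonoid.powers g) (f := f) (by
    rintro ⟨_, n, rfl⟩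
    simpa using h.pow n)

theorem cloLift_algebraMap (g : A) (f : A →ₐ[k] B) (h : IsUnit (f g)) (a : A) :
    cloLift g f h (algebraMap A (Localization.Away g) a) = f a := by
  unfold cloLift
  rw [IsLocalization.liftAlgHom_apply, IsLocalization.lift_eq]
  rfl

theorem clo_ext (g : A) {f f' : Localization.Away g →ₐ[k] B}
    (h : ∀ a, f (algebraMap A (Localization.Away g) a) = f' (algebraMap A (Localization.Away g) a)) :
    f = f' := by
  apply IsLocalization.algHom_ext (Submonoid.powers g)
  ext a
  exact h a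

/-- the structure map of the localisation -/
noncomputable def cloMk (k : Type) [Field k] {A : Type} [CommRing A] [Algebra k A] (g : A) :
    A →ₐ[k] Localization.Away g :=
  Algebra.algHom k A (Localization.Away g)

theorem cloMk_apply (g a : A) : cloMk k g a = algebraMap A (Localization.Away g) a := rfl

theorem cloMk_isUnit (g : A) : IsUnit (cloMk k g g) :=
  IsLocalization.Away.algebraMap_isUnit g

theorem clo_one_equiv : Nonempty (Localization.Away (1 : A) ≃ₐ[k] A) := by
  have h1 : IsUnit (AlgHom.id k A 1) := isUnit_one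
  refine ⟨AlgEquiv.ofAlgHom (cloLift (1 : A) (AlgHom.id k A) h1) (cloMk k (1 : A)) ?_ ?_⟩
  · ext a
    rw [AlgHom.comp_apply, cloMk_apply, cloLift_algebraMap]
  · apply clo_ext
    intro a
    rw [AlgHom.comp_apply, cloLift_algebraMap]
    rfl

theorem clo_mul_equiv (f g : A) :
    Nonempty (Localization.Away (algebraMap A (Localization.Away g) f) ≃ₐ[k]
      Localization.Away (g * f)) := by
  have hg : IsUnit (cloMk k (g * f) g) :=
    isUnit_of_mul_isUnit_left (y := cloMk k (g * f) f) (by
      rw [← map_mul]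
      exact cloMk_isUnit _)
  have hf : IsUnit (cloMk k (g * f) f) :=
    isUnit_of_mul_isUnit_right (x := cloMk k (g * f) g) (by
      rw [← map_mul]
      exact cloMk_isUnit _)
  have hf' : IsUnit (cloLift g (cloMk k (g * f)) hg (algebraMap A (Localization.Away g) f)) := by
    rw [cloLift_algebraMap]
    exact hf
  set F : A →ₐ[k] Localization.Away (algebraMap A (Localization.Away g) f) :=
    (cloMk k (algebraMap A (Localization.Away g) f)).comp (cloMk k g) with hF
  have hgf : IsUnit (F (g * f)) := by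
    rw [map_mul]
    refine IsUnit.mul ?_ ?_
    · have h1 : IsUnit (cloMk k g g) := cloMk_isUnit g
      have h2 := h1.map (cloMk k (algebraMap A (Localization.Away g) f) :
        Localization.Away g →ₐ[k] Localization.Away (algebraMap A (Localization.Away g) f))
      exact h2
    · exact cloMk_isUnit (k := k) (algebraMap A (Localization.Away g) f)
  refine ⟨AlgEquiv.ofAlgHom (cloLift _ (cloLift g (cloMk k (g * f)) hg) hf') (cloLift _ F hgf)
    ?_ ?_⟩
  · apply clo_ext
    intro a
    rw [AlgHom.comp_apply, cloLift_algebraMap, hF, AlgHom.comp_apply, cloMk_apply, cloMk_apply,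
      cloLift_algebraMap, cloLift_algebraMap]
    rfl
  · apply clo_ext
    intro a
    have : (cloLift _ F hgf).comp (cloLift g (cloMk k (g * f)) hg) =
        cloMk k (algebraMap A (Localization.Away g) f) := by
      apply clo_ext
      intro a
      rw [AlgHom.comp_apply, cloLift_algebraMap, cloMk_apply, cloLift_algebraMap]
      rfl
    rw [AlgHom.comp_apply, cloLift_algebraMap]
    exact DFunLike.congr_fun this a

end

section
variable {k : Type} [Field k] {r : ℕ} {β : Prop}

theorem clo_closed_equiv (σ : Type) [Fintype σ] [DecidableEq σ] (S : Finset σ) (c₀ : σ)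
    (hc : c₀ ∉ S) :
    Nonempty ((Localization.Away (∏ c ∈ S, (X c : MvPolynomial σ k)) ⧸
      Ideal.span {algebraMap (MvPolynomial σ k) (Localization.Away (∏ c ∈ S,
        (X c : MvPolynomial σ k))) (X c₀)}) ≃ₐ[k]
      Localization.Away (∏ c ∈ S.subtype (fun c => c ≠ c₀),
        (X c : MvPolynomial {c // c ≠ c₀} k))) := by
  set g : MvPolynomial σ k := ∏ c ∈ S, (X c : MvPolynomial σ k) with hg
  set g' : MvPolynomial {c // c ≠ c₀} k := ∏ c ∈ S.subtype (fun c => c ≠ c₀),
        (X c : MvPolynomial {c // c ≠ c₀} k) with hg'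
  set κ : MvPolynomial σ k →ₐ[k] MvPolynomial {c // c ≠ c₀} k :=
    aeval fun c => if h : c ≠ c₀ then X ⟨c, h⟩ else 0 with hκ
  set ρ : MvPolynomial {c // c ≠ c₀} k →ₐ[k] MvPolynomial σ k := rename Subtype.val with hρ
  have h1 : ρ g' = g := by
    rw [hg', map_prod, hg]
    simp only [hρ, rename_X]
    rw [← Finset.prod_subtype_map_embedding (s := S.subtype (fun c => c ≠ c₀))
      (f := fun c => (X c.1 : MvPolynomial σ k)) (g := fun c => (X c : MvPolynomial σ k))
      (by intro x _; rfl)]
    rw [Finset.subtype_map, Finset.filter_true_of_mem]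
    intro x hx hxc
    rw [hxc] at hx
    exact hc hx
  have h3 : κ.comp ρ = AlgHom.id k _ := by
    apply MvPolynomial.algHom_ext
    rintro ⟨c, hc'⟩
    rw [AlgHom.comp_apply, hρ, rename_X, hκ, aeval_X, dif_pos hc']
    rfl
  have h2 : κ g = g' := by
    rw [← h1, ← AlgHom.comp_apply, h3]
    rfl
  set I : Ideal (Localization.Away g) :=
    Ideal.span {algebraMap (MvPolynomial σ k) (Localization.Away g) (X c₀)} with hI
  set m : Localization.Away g →ₐ[k] Localization.Away g ⧸ I := Ideal.Quotient.mkₐ k I with hm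
  have hu1 : IsUnit ((cloMk k g').comp κ g) := by
    rw [AlgHom.comp_apply, h2]
    exact cloMk_isUnit g'
  have hu2 : IsUnit (((m.comp (cloMk k g)).comp ρ) g') := by
    rw [AlgHom.comp_apply, h1, AlgHom.comp_apply]
    exact (cloMk_isUnit (k := k) g).map m
  have hκ0 : κ (X c₀) = 0 := by
    rw [hκ, aeval_X, dif_neg (by simp)]
  have h3a : ∀ a, κ (ρ a) = a := fun a => DFunLike.congr_fun h3 a
  have hker : ∀ a ∈ I, cloLift g ((cloMk k g').comp κ) hu1 a = 0 := by
    intro a ha
    rw [hI] at ha
    obtain ⟨y, rfl⟩ := Ideal.mem_span_singleton'.mp ha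
    rw [map_mul, cloLift_algebraMap, AlgHom.comp_apply, hκ0, map_zero, mul_zero]
  refine ⟨AlgEquiv.ofAlgHom (Ideal.Quotient.liftₐ I (cloLift g ((cloMk k g').comp κ) hu1) hker)
    (cloLift g' ((m.comp (cloMk k g)).comp ρ) hu2) ?_ ?_⟩
  · apply clo_ext
    intro a
    rw [AlgHom.comp_apply, cloLift_algebraMap, AlgHom.comp_apply, AlgHom.comp_apply, cloMk_apply]
    have : Ideal.Quotient.liftₐ I (cloLift g ((cloMk k g').comp κ) hu1) hker
        (m (algebraMap (MvPolynomial σ k) (Localization.Away g) (ρ a))) =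
        cloLift g ((cloMk k g').comp κ) hu1
          (algebraMap (MvPolynomial σ k) (Localization.Away g) (ρ a)) := rfl
    rw [this, cloLift_algebraMap, AlgHom.comp_apply, h3a]
    rfl
  · apply Ideal.Quotient.algHom_ext
    apply clo_ext
    intro a
    rw [AlgHom.comp_apply, AlgHom.comp_apply, AlgHom.comp_apply]
    have : Ideal.Quotient.liftₐ I (cloLift g ((cloMk k g').comp κ) hu1) hker
        (Ideal.Quotient.mkₐ k I (algebraMap (MvPolynomial σ k) (Localization.Away g) a)) =
        cloLift g ((cloMk k g').comp κ) hu1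
          (algebraMap (MvPolynomial σ k) (Localization.Away g) a) := rfl
    rw [this, cloLift_algebraMap, AlgHom.comp_apply, cloMk_apply, cloLift_algebraMap]
    have key : ((m.comp (cloMk k g)).comp ρ).comp κ = m.comp (cloMk k g) := by
      apply MvPolynomial.algHom_ext
      intro c
      rw [AlgHom.comp_apply, hκ, aeval_X]
      by_cases h : c ≠ c₀
      · rw [dif_pos h, AlgHom.comp_apply, hρ, rename_X]
      · rw [dif_neg h, map_zero]
        rw [not_not] at h
        subst h
        symm
        rw [AlgHom.comp_apply, hm]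
        exact Ideal.Quotient.eq_zero_iff_mem.mpr (Ideal.subset_span rfl)
    exact DFunLike.congr_fun key a

theorem cls_opn_prod (σ : Type) [Fintype σ] [DecidableEq σ] (S : Finset σ) :
    (cls r ((Aff.poly k σ).opn (∏ c ∈ S, (X c : MvPolynomial σ k))) : Mot k r β) =
      (qpow k r r - 1) ^ S.card * qpow k r (r * ((Fintype.card σ : ℤ) - S.card)) := by
  induction hm : S.card generalizing σ with
  | zero =>
    rw [Finset.card_eq_zero] at hm
    subst hm
    have h0 : (cls r ((Aff.poly k σ).opn (∏ c ∈ (∅ : Finset σ), (X c : MvPolynomial σ k))) :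
        Mot k r β) = cls r ((Aff.poly k σ).opn (1 : MvPolynomial σ k)) :=
      congrArg (fun g : MvPolynomial σ k => (cls r ((Aff.poly k σ).opn g) : Mot k r β))
        Finset.prod_empty
    obtain ⟨e⟩ := clo_one_equiv (k := k) (A := MvPolynomial σ k)
    have : (cls r ((Aff.poly k σ).opn (1 : MvPolynomial σ k)) : Mot k r β) =
        cls r (Aff.poly k σ) := cls_iso _ _ e
    rw [h0, this, cls_poly]
    simp
  | succ m ih =>
    obtain ⟨c₀, hc₀⟩ : S.Nonempty := by
      rw [← Finset.card_pos]
      omega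
    have hS : insert c₀ (S.erase c₀) = S := Finset.insert_erase hc₀
    set S₀ := S.erase c₀ with hS₀
    have hn : c₀ ∉ S₀ := Finset.notMem_erase c₀ S
    have hcard : S₀.card = m := by
      rw [hS₀, Finset.card_erase_of_mem hc₀, hm]
      rfl
    have hprod : ∏ c ∈ S, (X c : MvPolynomial σ k) = (∏ c ∈ S₀, (X c : MvPolynomial σ k)) * X c₀ := by
      rw [← hS, Finset.prod_insert hn, mul_comm]
    have h0 : (cls r ((Aff.poly k σ).opn (∏ c ∈ S, (X c : MvPolynomial σ k))) : Mot k r β) =
        cls r ((Aff.poly k σ).opn ((∏ c ∈ S₀, (X c : MvPolynomial σ k)) * X c₀)) :=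
      congrArg (fun g : MvPolynomial σ k => (cls r ((Aff.poly k σ).opn g) : Mot k r β)) hprod
    rw [h0]
    obtain ⟨e₁⟩ := clo_mul_equiv (k := k) (X c₀ : MvPolynomial σ k)
      (∏ c ∈ S₀, (X c : MvPolynomial σ k))
    obtain ⟨e₂⟩ := clo_closed_equiv (k := k) σ S₀ c₀ hn
    have E₁ : (cls r (((Aff.poly k σ).opn (∏ c ∈ S₀, (X c : MvPolynomial σ k))).opn
        (algebraMap (MvPolynomial σ k) (Localization.Away (∏ c ∈ S₀, (X c : MvPolynomial σ k)))
          (X c₀))) : Mot k r β) =
        cls r ((Aff.poly k σ).opn ((∏ c ∈ S₀, (X c : MvPolynomial σ k)) * X c₀)) :=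
      cls_iso _ _ e₁
    have E₂ : (cls r (((Aff.poly k σ).opn (∏ c ∈ S₀, (X c : MvPolynomial σ k))).closed
        (algebraMap (MvPolynomial σ k) (Localization.Away (∏ c ∈ S₀, (X c : MvPolynomial σ k)))
          (X c₀))) : Mot k r β) =
        cls r ((Aff.poly k {c // c ≠ c₀}).opn (∏ c ∈ S₀.subtype (fun c => c ≠ c₀),
          (X c : MvPolynomial {c // c ≠ c₀} k))) :=
      cls_iso _ _ e₂
    have E₃ := cls_scissor (r := r) (β := β)
      ((Aff.poly k σ).opn (∏ c ∈ S₀, (X c : MvPolynomial σ k)))
      (algebraMap (MvPolynomial σ k) (Localization.Away (∏ c ∈ S₀, (X c : MvPolynomial σ k)))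
          (X c₀))
    rw [E₁, E₂] at E₃
    have I₁ := ih σ S₀ hcard
    have hcs : (S₀.subtype (fun c => c ≠ c₀)).card = m := by
      rw [Finset.card_subtype, Finset.filter_true_of_mem, hcard]
      intro x hx hxc
      rw [hxc] at hx
      exact hn hx
    have I₂ := ih {c // c ≠ c₀} (S₀.subtype (fun c => c ≠ c₀)) hcs
    rw [I₁, I₂] at E₃
    have hσ : (Fintype.card {c // c ≠ c₀} : ℤ) = Fintype.card σ - 1 := by
      have : Fintype.card {c // c ≠ c₀} = Fintype.card σ - 1 := by
        simp [Fintype.card_subtype_compl]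
      have h1 : 0 < Fintype.card σ := Fintype.card_pos_iff.mpr ⟨c₀⟩
      omega
    rw [hσ] at E₃
    have E₄ := eq_sub_of_add_eq' E₃.symm
    rw [E₄]
    have h3 : ((r : ℤ) * ((Fintype.card σ : ℤ) - (m : ℕ))) =
        r + r * ((Fintype.card σ : ℤ) - ((m + 1 : ℕ) : ℤ)) := by
      push_cast
      ring
    have h4 : ((r : ℤ) * ((Fintype.card σ : ℤ) - 1 - (m : ℕ))) =
        r * ((Fintype.card σ : ℤ) - ((m + 1 : ℕ) : ℤ)) := by
      push_cast
      ring
    rw [h3, h4, qpow_add]
    ring

end

end H48SM
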