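import Pool.Agent.H48.SM.Data

/-! # Module CLP: basic relations

Proofs.  Basic relations (from `RingQuot.mkRingHom_rel`): `cls_iso`, `cls_prod`, `cls_pt`, `cls_scissor`, `qq * qqi = 1`, `qq ^ r = cls line`.
`qpow_add`, `qpow_r`: the integers add up using `qq * qqi = 1` (`qpow j = ((unit) ^ j)`).
-/

set_option autoImplicit false

namespace H48SM

open MvPolynomial

section
variable {k : Type} [Field k] {r : ℕ} {β : Prop}

theorem cls_iso (X Y : Aff k) (e : X.A ≃ₐ[k] Y.A) : (cls r X : Mot k r β) = cls r Y :=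
  RingQuot.mkRingHom_rel (Rel.iso X Y e)

theorem cls_prod (X Y : Aff k) : (cls r (X.prod Y) : Mot k r β) = cls r X * cls r Y :=
  (RingQuot.mkRingHom_rel (Rel.prod X Y)).trans (map_mul (RingQuot.mkRingHom (Rel k r β)) _ _)

theorem cls_pt : (cls r (Aff.pt k) : Mot k r β) = 1 :=
  (RingQuot.mkRingHom_rel Rel.pt).trans (map_one (RingQuot.mkRingHom (Rel k r β)))

theorem cls_scissor (X : Aff k) (f : X.A) :
    (cls r X : Mot k r β) = cls r (X.closed f) + cls r (X.opn f) :=
  (RingQuot.mkRingHom_rel (Rel.scissor X f)).trans (map_add (RingQuot.mkRingHom (Rel k r β)) _ _)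

theorem clp_qq_mul : (qq k r : Mot k r β) * qqi k r = 1 :=
  (map_mul (RingQuot.mkRingHom (Rel k r β)) _ _).symm.trans
    ((RingQuot.mkRingHom_rel Rel.inv).trans (map_one (RingQuot.mkRingHom (Rel k r β))))

theorem clp_qq_pow : (qq k r : Mot k r β) ^ r = cls r (Aff.line k) :=
  (map_pow (RingQuot.mkRingHom (Rel k r β)) _ r).symm.trans (RingQuot.mkRingHom_rel Rel.root)

/-- `q` as a unit -/
noncomputable def clpUnit (k : Type) [Field k] (r : ℕ) (β : Prop) : (Mot k r β)ˣ :=
  ⟨qq k r, qqi k r, clp_qq_mul, (mul_comm _ _).trans clp_qq_mul⟩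

theorem clp_qpow (j : ℤ) : (qpow k r j : Mot k r β) = ((clpUnit k r β ^ j : (Mot k r β)ˣ) : Mot k r β) := by
  unfold qpow
  rcases Int.eq_nat_or_neg j with ⟨n, rfl | rfl⟩
  · have h1 : ((-(n : ℤ)).toNat) = 0 := by omega
    rw [h1, Int.toNat_natCast, pow_zero, mul_one, zpow_natCast, Units.val_pow_eq_pow_val]
    rfl
  · have h1 : ((-(n : ℤ)).toNat) = 0 := by omega
    rw [neg_neg, h1, Int.toNat_natCast, pow_zero, one_mul, zpow_neg, zpow_natCast, ← inv_pow,
      Units.val_pow_eq_pow_val]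
    rfl

theorem qpow_zero : (qpow k r 0 : Mot k r β) = 1 := by
  rw [clp_qpow, zpow_zero, Units.val_one]

theorem qpow_add (a b : ℤ) : (qpow k r (a + b) : Mot k r β) = qpow k r a * qpow k r b := by
  rw [clp_qpow, clp_qpow, clp_qpow, zpow_add, Units.val_mul]

theorem qpow_r : (qpow k r r : Mot k r β) = cls r (Aff.line k) := by
  rw [← clp_qq_pow, clp_qpow, zpow_natCast, Units.val_pow_eq_pow_val]
  rfl

end

end H48SM
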