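import Pool.Agent.H48.SM.Clp

/-! # Module CLQ: class of affine space

Proof.  `cls_poly`: induction on the cardinality: `MvPolynomial (Option σ) k ≃ Polynomial (MvPolynomial σ k) ≃ MvPolynomial σ k ⊗ k[X]`
(`MvPolynomial.optionEquivLeft`, `polyEquivTensor`), `MvPolynomial` on an empty type is `k`; rename along equivalences.
-/

set_option autoImplicit false

namespace H48SM

open MvPolynomial

section
variable {k : Type} [Field k] {r : ℕ} {β : Prop}

theorem clq_card (σ : Type) [Finite σ] :
    (cls r (Aff.poly k σ) : Mot k r β) = qpow k r (r * (Nat.card σ : ℤ)) := by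
  have key : ∀ [Finite σ], (cls r (Aff.poly k σ) : Mot k r β) = qpow k r (r * (Nat.card σ : ℤ)) := by
    refine Finite.induction_empty_option
      (P := fun σ : Type => ∀ [Finite σ], (cls r (Aff.poly k σ) : Mot k r β) =
        qpow k r (r * (Nat.card σ : ℤ))) ?_ ?_ ?_ σ
    · intro α γ e h _
      have : Finite α := Finite.of_equiv γ e.symm
      rw [← Nat.card_congr e, ← h]
      exact cls_iso (Aff.poly k γ) (Aff.poly k α) (MvPolynomial.renameEquiv k e.symm)
    · intro _
      rw [Nat.card_of_isEmpty, Nat.cast_zero, mul_zero, qpow_zero, ← cls_pt]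
      exact cls_iso (Aff.poly k PEmpty) (Aff.pt k) (MvPolynomial.isEmptyAlgEquiv k PEmpty)
    · intro α _ h _
      have h1 : (cls r (Aff.poly k (Option α)) : Mot k r β) =
          cls r ((Aff.poly k α).prod (Aff.line k)) :=
        cls_iso (Aff.poly k (Option α)) ((Aff.poly k α).prod (Aff.line k))
          ((MvPolynomial.optionEquivLeft k α).trans (polyEquivTensor k (MvPolynomial α k)))
      rw [h1, cls_prod, h, ← qpow_r, ← qpow_add]
      congr 1
      rw [Finite.card_option]
      push_cast
      ring
  exact key

theorem cls_poly (σ : Type) [Fintype σ] :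
    (cls r (Aff.poly k σ) : Mot k r β) = qpow k r (r * Fintype.card σ) := by
  rw [clq_card, Nat.card_eq_fintype_card]

end

end H48SM
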