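import Pool.Agent.H48.SM.Theta

/-!
# The pieces of the jet sets

`e_b` is the order of `s_b`, `i_b` the pivot (first index of minimal order).  The `n`-jet of the arc is
determined by the coefficients of `t^l` of `s_b` (`e_b ≤ l ≤ n`), of `x_b = N_b` (`l ≤ n`), of `w_j`
and `z_j` (`l + e_b ≤ n`), `w_j` without constant term if `j < i_b`.
-/

set_option autoImplicit false

namespace H48SM

open MvPolynomial

/-- the coefficients which are coordinates of the piece -/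
def allowed {T : ℕ} (e : Fin T → ℕ) (i : Fin T → Fin 3) (n : ℕ) (p : Fin T × Cv) (l : ℕ) : Prop :=
  l ≤ n ∧ (p.2 = Cv.s → e p.1 ≤ l) ∧
    ∀ j : Fin 3, (p.2 = Cv.w j → j ≠ i p.1 ∧ l + e p.1 ≤ n ∧ (j < i p.1 → 1 ≤ l)) ∧
      (p.2 = Cv.z j → j ≠ i p.1 ∧ l + e p.1 ≤ n)

instance {T : ℕ} (e : Fin T → ℕ) (i : Fin T → Fin 3) (n : ℕ) (p : Fin T × Cv) (l : ℕ) :
    Decidable (allowed e i n p l) := by
  unfold allowed
  infer_instance

/-- the index set of the coordinates of the piece -/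
abbrev Ax {T : ℕ} (e : Fin T → ℕ) (i : Fin T → Fin 3) (n : ℕ) : Type :=
  {p : (Fin T × Cv) × Fin (n + 1) // allowed e i n p.1 p.2}

/-- polynomial rings as affine schemes -/
noncomputable def Aff.poly (k : Type) [Field k] (σ : Type) [Finite σ] : Aff k := ⟨MvPolynomial σ k⟩

/-- the leading coefficients of `s_b` -/
def ldi {T : ℕ} (e : Fin T → ℕ) (i : Fin T → Fin 3) (n : ℕ) (h : ∀ b, e b ≤ n) (b : Fin T) :
    Ax e i n :=
  ⟨((b, Cv.s), ⟨e b, Nat.lt_succ_of_le (h b)⟩), ⟨h b, fun _ => le_rfl, fun _ => ⟨nofun, nofun⟩⟩⟩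

/-- the product of the leading coefficients of the `s_b` -/
noncomputable def lead {T : ℕ} (e : Fin T → ℕ) (i : Fin T → Fin 3) (n : ℕ) (h : ∀ b, e b ≤ n) :
    MvPolynomial (Ax e i n) (ZMod 2) :=
  ∏ b, X (ldi e i n h b)

/-- the coordinate ring of the piece -/
abbrev DR {T : ℕ} (e : Fin T → ℕ) (i : Fin T → Fin 3) (n : ℕ) (h : ∀ b, e b ≤ n) : Type :=
  Localization.Away (lead e i n h)

/-- the piece -/
noncomputable def DD {T : ℕ} (e : Fin T → ℕ) (i : Fin T → Fin 3) (n : ℕ) (h : ∀ b, e b ≤ n) :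
    Aff (ZMod 2) :=
  (Aff.poly (ZMod 2) (Ax e i n)).opn (lead e i n h)

/-- the coefficient of `t^l` of the coordinate `p` -/
noncomputable def dat {T : ℕ} (e : Fin T → ℕ) (i : Fin T → Fin 3) (n : ℕ) (h : ∀ b, e b ≤ n)
    (p : Fin T × Cv) (l : ℕ) : DR e i n h :=
  if hl : allowed e i n p l then
    algebraMap (MvPolynomial (Ax e i n) (ZMod 2)) (DR e i n h)
      (X ⟨(p, ⟨l, Nat.lt_succ_of_le hl.1⟩), hl⟩)
  else 0

/-- the universal truncated arc -/
noncomputable def UU {T : ℕ} (e : Fin T → ℕ) (i : Fin T → Fin 3) (n : ℕ) (h : ∀ b, e b ≤ n) :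
    P T →ₐ[ZMod 2] PowerSeries (DR e i n h) :=
  aeval fun p => PowerSeries.mk fun l => dat e i n h p l

/-- the immersion of the piece into the jet scheme -/
noncomputable def psi {T : ℕ} (e : Fin T → ℕ) (i : Fin T → Fin 3) (n : ℕ) (h : ∀ b, e b ≤ n) :
    MvPolynomial (Inv (GB T) × Fin (n + 1)) (ZMod 2) →ₐ[ZMod 2] DR e i n h :=
  aeval fun x => PowerSeries.coeff (x.2 : ℕ) (UU e i n h (theta i x.1))

/-- the part `F_X = 3 E` of the motivic integral -/
noncomputable def uE (β : Prop) (T E : ℕ) : Mot (ZMod 2) (rr T) β :=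
  ∑ e ∈ Finset.Nat.antidiagonalTuple T E, ∑ i : Fin T → Fin 3,
    (qpow (ZMod 2) (rr T) (rr T) - 1) ^ T *
      qpow (ZMod 2) (rr T) ((rr T : ℤ) * (∑ b, (5 - 5 * (e b : ℤ) - ((i b : ℕ) : ℤ)) + 3 * E))

/-- the stringy motive of the example, as a series -/
noncomputable def uu (β : Prop) (T e : ℕ) : Mot (ZMod 2) (rr T) β :=
  if 3 * rr T ∣ e then uE β T (e / (3 * rr T)) else 0

/-- realisation by counting points over the field with `2^(r t)` elements -/
structure IsPC {β : Prop} (r t : ℕ) (c : Mot (ZMod 2) r β →+* ℝ) : Prop where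
  cls : ∀ X : Aff (ZMod 2), c (cls r X) = Nat.card (X.A →ₐ[ZMod 2] GaloisField 2 (r * t))
  q : c (qq (ZMod 2) r) = 2 ^ t

/-- the value of the stringy motive of the example: `(Q^5 (Q^2 + Q + 1) / (Q + 1))^T` -/
noncomputable def AA (r T t : ℕ) : ℝ :=
  (((2 : ℝ) ^ (r * t)) ^ 5 * (((2 : ℝ) ^ (r * t)) ^ 2 + (2 : ℝ) ^ (r * t) + 1) /
    ((2 : ℝ) ^ (r * t) + 1)) ^ T

end H48SM
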