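import Pool.Agent.H48.SM.Ex

/-! # Module GRP: the group `(Z/2)^T` and its action

Proofs. `subst g (X p) = ∑ q, C (g p q) * X q` by `aeval_X`; here `g = 1 + nil S`
(`(gm S).val = 1 + nil S` by rfl): for `p = (b,0,j)` only `q = p` and `q = (b,1,j)` contribute, for
`p = (b,1,j)` only `q = p`.
`inv_of_gen`: induct on the support of `S`, `gm (S + S') = gm S * gm S'`, `subst` of a product is the
composition (check the order; everything commutes), or directly: `gm S` is the product of the
commuting `gm (Pi.single b (S b))`.
`thetaP_subst`: both sides are algebra homomorphisms in `f`: check on `X p` (`MvPolynomial.algHom_ext`).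
-/

set_option autoImplicit false

namespace H48SM

open MvPolynomial

theorem GRP_subst {T : ℕ} (S : Fin T → ZMod 2) (p : Cx T) :
    subst (gm S) (X p) = X p + ∑ q, C (nil S p q) * X q := by
  have h1 : subst (gm S) (X p) = ∑ q, C ((gm S).val p q) * X q := by
    unfold subst
    rw [aeval_X]
  have h2 : ∀ q, C ((gm S).val p q) * X q =
      (if p = q then (X q : MvPolynomial (Cx T) (ZMod 2)) else 0) + C (nil S p q) * X q := by
    intro q
    have h3 : (gm S).val p q = (1 : Matrix (Cx T) (Cx T) (ZMod 2)) p q + nil S p q := rfl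
    rw [h3, C_add, add_mul, Matrix.one_apply]
    split_ifs <;> simp
  rw [h1, Finset.sum_congr rfl fun q _ => h2 q, Finset.sum_add_distrib]
  simp

theorem subst_gm_x {T : ℕ} (S : Fin T → ZMod 2) (b : Fin T) (j : Fin 3) :
    subst (gm S) (X (b, 0, j)) = X (b, 0, j) + C (S b) * X (b, 1, j) := by
  rw [GRP_subst]
  congr 1
  rw [Finset.sum_eq_single (b, 1, j)]
  · simp [nil]
  · rintro ⟨b', c, j'⟩ _ hne
    have : nil S (b, 0, j) (b', c, j') = 0 := by
      simp only [nil, Matrix.of_apply]
      rw [if_neg]
      rintro ⟨h1, h2, _, h4⟩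
      exact hne (by rw [← h1, ← h2, h4])
    rw [this, C_0, zero_mul]
  · intro h
    exact absurd (Finset.mem_univ _) h

theorem subst_gm_u {T : ℕ} (S : Fin T → ZMod 2) (b : Fin T) (j : Fin 3) :
    subst (gm S) (X (b, 1, j)) = X (b, 1, j) := by
  rw [GRP_subst, Finset.sum_eq_zero, add_zero]
  intro q _
  have : nil S (b, 1, j) q = 0 := by
    simp only [nil, Matrix.of_apply]
    rw [if_neg]
    rintro ⟨_, _, h3, _⟩
    exact absurd h3 (by decide)
  rw [this, C_0, zero_mul]

theorem GRP_add {T : ℕ} (S S' : Fin T → ZMod 2) (f : MvPolynomial (Cx T) (ZMod 2)) :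
    subst (gm (S + S')) f = subst (gm S) (subst (gm S') f) := by
  have h : subst (gm (S + S')) = (subst (gm S)).comp (subst (gm S')) := by
    apply MvPolynomial.algHom_ext
    rintro ⟨b, c, j⟩
    rw [AlgHom.comp_apply]
    fin_cases c
    · show subst (gm (S + S')) (X (b, 0, j)) = subst (gm S) (subst (gm S') (X (b, 0, j)))
      rw [subst_gm_x, subst_gm_x, map_add, map_mul, subst_gm_x, subst_gm_u]
      have : subst (gm S) (C (S' b)) = C (S' b) := (subst (gm S)).commutes (S' b)
      rw [this, Pi.add_apply, C_add]
      ring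
    · show subst (gm (S + S')) (X (b, 1, j)) = subst (gm S) (subst (gm S') (X (b, 1, j)))
      rw [subst_gm_u, subst_gm_u, subst_gm_u]
  rw [h, AlgHom.comp_apply]

theorem GRP_zero {T : ℕ} (f : MvPolynomial (Cx T) (ZMod 2)) :
    subst (gm (0 : Fin T → ZMod 2)) f = f := by
  have h : subst (gm (0 : Fin T → ZMod 2)) = AlgHom.id (ZMod 2) _ := by
    apply MvPolynomial.algHom_ext
    intro p
    rw [GRP_subst, nil_zero, AlgHom.id_apply, Finset.sum_eq_zero, add_zero]
    intro q _
    rw [Matrix.zero_apply, C_0, zero_mul]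
  rw [h, AlgHom.id_apply]

theorem inv_of_gen {T : ℕ} (f : MvPolynomial (Cx T) (ZMod 2))
    (h : ∀ b, subst (gm (Pi.single b 1)) f = f) : f ∈ Inv (GB T) := by
  let A : AddSubmonoid (Fin T → ZMod 2) :=
    { carrier := {S | subst (gm S) f = f}
      add_mem' := by
        intro a b ha hb
        show subst (gm (a + b)) f = f
        have ha' : subst (gm a) f = f := ha
        have hb' : subst (gm b) f = f := hb
        rw [GRP_add, hb', ha']
      zero_mem' := GRP_zero f }
  rintro _ ⟨S, rfl⟩
  have h1 : S ∈ A := by
    rw [← Finset.univ_sum_single S]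
    refine A.sum_mem fun b _ => ?_
    have h2 : S b = 0 ∨ S b = 1 := by
      generalize S b = c
      revert c
      decide
    rcases h2 with h2 | h2
    · rw [h2, Pi.single_zero]
      exact A.zero_mem
    · rw [h2]
      exact h b
  exact h1

theorem thetaP_subst {T : ℕ} (i : Fin T → Fin 3) (b : Fin T) (f : MvPolynomial (Cx T) (ZMod 2)) :
    thetaP i (subst (gm (Pi.single b 1)) f) = sig b (thetaP i f) := by
  have h : (thetaP i).comp (subst (gm (Pi.single b 1))) = (sig b).comp (thetaP i) := by
    apply MvPolynomial.algHom_ext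
    rintro ⟨b', c, j⟩
    rw [AlgHom.comp_apply, AlgHom.comp_apply]
    have hC : ∀ c : ZMod 2, thetaP i (C c) = C c := fun c => (thetaP i).commutes c
    fin_cases c
    · show thetaP i (subst (gm (Pi.single b 1)) (X (b', 0, j))) = sig b (thetaP i (X (b', 0, j)))
      rw [subst_gm_x, map_add, map_mul, hC]
      rcases eq_or_ne b' b with rfl | hb
      · rw [Pi.single_eq_same, C_1, one_mul]
        by_cases hj : j = i b'
        · subst hj
          simp [thetaP, sig]
        · simp only [thetaP, aeval_X, zero_ne_one, if_false, hj, if_true, sig, map_add, map_mul,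
            Prod.mk.injEq, reduceCtorEq, and_false]
          ring
      · rw [Pi.single_eq_of_ne hb, C_0, zero_mul, add_zero]
        by_cases hj : j = i b'
        · subst hj
          simp [thetaP, sig, hb]
        · simp [thetaP, sig, hb, hj]
    · show thetaP i (subst (gm (Pi.single b 1)) (X (b', 1, j))) = sig b (thetaP i (X (b', 1, j)))
      rw [subst_gm_u]
      by_cases hj : j = i b'
      · subst hj
        simp [thetaP, sig]
      · simp [thetaP, sig, hj]
  exact DFunLike.congr_fun h f

end H48SM
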