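import Mathlib

/-! # Module TAY: Taylor expansion to first order

Proof: `MvPolynomial.induction_on` (or `induction_on'''`): the set of `f` for which it holds contains
the constants and variables and is closed under sums; for a product `f * X c0` (or `f * g`) write
`β(fg) - α(fg) = (βf - αf) αg + αf (βg - αg) + (βf - αf)(βg - αg)`; both `βf - αf`, `βg - αg` lie in the
ideal `I` spanned by the differences `h_c = β X_c - α X_c` (lemma `sub_mem`, by induction), and `I * I`
is the ideal on the right (`Ideal.span_mul_span`); Leibniz rule for `pderiv`.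
-/

set_option autoImplicit false

namespace H48SM

open MvPolynomial

theorem sub_mem {σ k R : Type} [CommRing k] [CommRing R] [Algebra k R]
    (α β : MvPolynomial σ k →ₐ[k] R) (f : MvPolynomial σ k) :
    β f - α f ∈ Ideal.span (Set.range fun c => β (X c) - α (X c)) := by
  induction f using MvPolynomial.induction_on with
  | C a =>
    have h1 : β (C a) = algebraMap k R a := β.commutes a
    have h2 : α (C a) = algebraMap k R a := α.commutes a
    rw [h1, h2, sub_self]
    exact Ideal.zero_mem _
  | add p q hp hq =>
    have h : β (p + q) - α (p + q) = (β p - α p) + (β q - α q) := by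
      rw [map_add, map_add]
      ring
    rw [h]
    exact Ideal.add_mem _ hp hq
  | mul_X p n hp =>
    have h : β (p * X n) - α (p * X n) = β p * (β (X n) - α (X n)) + α (X n) * (β p - α p) := by
      rw [map_mul, map_mul]
      ring
    rw [h]
    refine Ideal.add_mem _ (Ideal.mul_mem_left _ _ (Ideal.subset_span ⟨n, rfl⟩))
      (Ideal.mul_mem_left _ _ hp)

theorem tay_mul_mem {σ k R : Type} [CommRing k] [CommRing R] [Algebra k R]
    (α β : MvPolynomial σ k →ₐ[k] R) (n : σ) (z : R)
    (hz : z ∈ Ideal.span (Set.range fun c => β (X c) - α (X c))) :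
    z * (β (X n) - α (X n)) ∈ Ideal.span (Set.range fun p : σ × σ =>
        (β (X p.1) - α (X p.1)) * (β (X p.2) - α (X p.2))) := by
  induction hz using Submodule.span_induction with
  | mem x hx =>
    obtain ⟨c, rfl⟩ := hx
    exact Ideal.subset_span ⟨(c, n), rfl⟩
  | zero =>
    rw [zero_mul]
    exact Ideal.zero_mem _
  | add x y _ _ hx hy =>
    rw [add_mul]
    exact Ideal.add_mem _ hx hy
  | smul a x _ hx =>
    rw [smul_eq_mul, mul_assoc]
    exact Ideal.mul_mem_left _ _ hx

theorem taylor {σ k R : Type} [Fintype σ] [CommRing k] [CommRing R] [Algebra k R]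
    (α β : MvPolynomial σ k →ₐ[k] R) (f : MvPolynomial σ k) :
    β f - α f - ∑ c, α (pderiv c f) * (β (X c) - α (X c)) ∈
      Ideal.span (Set.range fun p : σ × σ =>
        (β (X p.1) - α (X p.1)) * (β (X p.2) - α (X p.2))) := by
  classical
  induction f using MvPolynomial.induction_on with
  | C a =>
    have h1 : β (C a) = algebraMap k R a := β.commutes a
    have h2 : α (C a) = algebraMap k R a := α.commutes a
    rw [h1, h2, sub_self]
    simp
  | add p q hp hq =>
    have h : β (p + q) - α (p + q) - ∑ c, α (pderiv c (p + q)) * (β (X c) - α (X c)) =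
        (β p - α p - ∑ c, α (pderiv c p) * (β (X c) - α (X c))) +
        (β q - α q - ∑ c, α (pderiv c q) * (β (X c) - α (X c))) := by
      simp only [map_add, add_mul, Finset.sum_add_distrib]
      ring
    rw [h]
    exact Ideal.add_mem _ hp hq
  | mul_X p n hp =>
    have hD : ∑ c, α (pderiv c (p * X n)) * (β (X c) - α (X c)) =
        (∑ c, α (pderiv c p) * (β (X c) - α (X c))) * α (X n) + α p * (β (X n) - α (X n)) := by
      have h1 : ∀ c, α (pderiv c (p * X n)) * (β (X c) - α (X c)) =
          α (pderiv c p) * (β (X c) - α (X c)) * α (X n) +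
          α p * (α (pderiv c (X n)) * (β (X c) - α (X c))) := by
        intro c
        rw [Derivation.leibniz, smul_eq_mul, smul_eq_mul, map_add, map_mul, map_mul]
        ring
      rw [Finset.sum_congr rfl fun c _ => h1 c, Finset.sum_add_distrib, ← Finset.sum_mul,
        ← Finset.mul_sum]
      congr 2
      rw [Finset.sum_eq_single n]
      · rw [pderiv_X_self, map_one, one_mul]
      · intro c _ hc
        rw [pderiv_X_of_ne hc.symm, map_zero, zero_mul]
      · intro hn
        exact absurd (Finset.mem_univ n) hn
    have h : β (p * X n) - α (p * X n) - ∑ c, α (pderiv c (p * X n)) * (β (X c) - α (X c)) =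
        α (X n) * (β p - α p - ∑ c, α (pderiv c p) * (β (X c) - α (X c))) +
        (β p - α p) * (β (X n) - α (X n)) := by
      rw [hD, map_mul, map_mul]
      ring
    rw [h]
    exact Ideal.add_mem _ (Ideal.mul_mem_left _ _ hp)
      (tay_mul_mem α β n _ (sub_mem α β p))

end H48SM
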