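import Pool.Agent.H48.SM.Theta
import Pool.Agent.H48.SM.Tay
import Pool.Agent.H48.SM.Grp

/-! # Module DER: derivatives of invariants

Proofs. `derS`: let `I = (u_{b,0}, u_{b,1}, u_{b,2})`, `g = gm (Pi.single b 1)`, `subst g f = f`.  By `taylor` with
`α = id`, `β = subst g`: `β X_p - α X_p = u_{b,j}` for `p = (b,0,j)` and `0` for the other `p` (GRP), so
`∑_j u_{b,j} D_j ∈ I^2` with `D_j = pderiv (b,0,j) f`.  The derivative `pderiv (b,1,j')` of an element
of `I^2` lies in `I` (Leibniz), and `pderiv (b,1,j') (∑ u_{b,j} D_j) = D_{j'} + ∑ u_{b,j} (...)`.  Hence `D_{j'} ∈ I`.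
`der_z`, `der_w`: chain rule for `thetaP`: for `j ≠ i b`
`pderiv (b,z j) (thetaP i f) = thetaP i (pderiv (b,0,j) f)` and
`pderiv (b,w j) (thetaP i f) = thetaP i (pderiv (b,0,j) f) * X (b,x) + thetaP i (pderiv (b,1,j) f) * X (b,s)`
(both sides are derivations in `f` over `thetaP`: induct on `f`), both divisible by `X (b,s)` by `derS`
(`thetaP` maps `u_{b,j}` to multiples of `X (b,s)`); for `j = i b` both derivatives vanish (`thetaP f` does
not contain the variable).  Moreover `pderiv (b,z j) (tau g) = tau (pderiv (b,z j) g)`, same for `w`.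
Apply with `g = theta i f` (`theta_spec`) and `dvd_of_dvd_tau` with `c = X (b,s)`.
`theta_dummy`: `pderiv` with respect to the dummy coordinates of `theta i f` vanish (same proof with
`tau_injective`).
-/

set_option autoImplicit false

namespace H48SM

open MvPolynomial

/-- derivatives of elements of `I * I` lie in `I` -/
theorem der_pderiv_mem {σ k : Type} [CommRing k] (I : Ideal (MvPolynomial σ k)) (c : σ)
    (e : MvPolynomial σ k) (he : e ∈ I * I) : pderiv c e ∈ I := by
  refine Submodule.mul_induction_on he ?_ ?_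
  · intro m hm n hn
    rw [Derivation.leibniz]
    exact I.add_mem (Ideal.mul_mem_right _ _ hm) (Ideal.mul_mem_right _ _ hn)
  · intro x y hx hy
    rw [map_add]
    exact I.add_mem hx hy

/-- chain rule -/
theorem der_chain {σ τ k : Type} [Fintype σ] [CommRing k] (h : σ → MvPolynomial τ k) (v : τ)
    (f : MvPolynomial σ k) :
    pderiv v (aeval h f) = ∑ c, aeval h (pderiv c f) * pderiv v (h c) := by
  classical
  induction f using MvPolynomial.induction_on with
  | C a =>
    rw [aeval_C]
    have h1 : ∀ c : σ, pderiv c (C a : MvPolynomial σ k) = 0 := fun c => pderiv_C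
    simp only [h1, map_zero, zero_mul, Finset.sum_const_zero]
    exact pderiv_C
  | add p q hp hq =>
    simp only [map_add, hp, hq, add_mul, Finset.sum_add_distrib]
  | mul_X p n hp =>
    rw [map_mul, aeval_X, Derivation.leibniz, hp]
    have h1 : ∀ c : σ, aeval h (pderiv c (p * X n)) * pderiv v (h c) =
        aeval h p * (if c = n then pderiv v (h c) else 0) +
          h n * (aeval h (pderiv c p) * pderiv v (h c)) := by
      intro c
      rw [Derivation.leibniz, pderiv_X]
      by_cases hc : c = n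
      · subst hc
        simp only [Pi.single_eq_same, smul_eq_mul, map_add, map_mul, map_one, aeval_X, if_true]
        ring
      · rw [Pi.single_eq_of_ne (Ne.symm hc)]
        simp only [smul_eq_mul, map_add, map_mul, map_zero, aeval_X, hc, if_false]
        ring
    simp only [h1, Finset.sum_add_distrib, ← Finset.mul_sum, smul_eq_mul]
    simp

theorem derS {T : ℕ} (b : Fin T) (j : Fin 3) (f : Inv (GB T)) :
    pderiv (b, 0, j) (f : MvPolynomial (Cx T) (ZMod 2)) ∈
      Ideal.span (Set.range fun j' : Fin 3 => (X (b, 1, j') : MvPolynomial (Cx T) (ZMod 2))) := by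
  set I : Ideal (MvPolynomial (Cx T) (ZMod 2)) :=
    Ideal.span (Set.range fun j' : Fin 3 => (X (b, 1, j') : MvPolynomial (Cx T) (ZMod 2))) with hI
  have hu : ∀ j' : Fin 3, (X (b, 1, j') : MvPolynomial (Cx T) (ZMod 2)) ∈ I := fun j' =>
    Ideal.subset_span ⟨j', rfl⟩
  have hinv : subst (gm (Pi.single b 1)) (f : MvPolynomial (Cx T) (ZMod 2)) = f :=
    f.2 _ ⟨_, rfl⟩
  have ht := taylor (AlgHom.id (ZMod 2) (MvPolynomial (Cx T) (ZMod 2)))
    (subst (gm (Pi.single b 1))) (f : MvPolynomial (Cx T) (ZMod 2))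
  rw [hinv] at ht
  simp only [AlgHom.id_apply] at ht
  -- the differences
  have hd : ∀ p : Cx T, subst (gm (Pi.single b 1)) (X p : MvPolynomial (Cx T) (ZMod 2)) - X p =
      if p.1 = b ∧ p.2.1 = 0 then X (b, 1, p.2.2) else 0 := by
    rintro ⟨b', c, j'⟩
    have hc : c = 0 ∨ c = 1 := by
      fin_cases c
      · exact Or.inl rfl
      · exact Or.inr rfl
    rcases hc with rfl | rfl
    · rw [subst_gm_x]
      by_cases hb : b' = b
      · subst hb
        simp
      · simp [hb]
    · rw [subst_gm_u]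
      simp
  have hdI : ∀ p : Cx T, subst (gm (Pi.single b 1)) (X p : MvPolynomial (Cx T) (ZMod 2)) - X p ∈ I := by
    intro p
    rw [hd p]
    split_ifs
    · exact hu _
    · exact I.zero_mem
  have hsum : ∑ c : Cx T, pderiv c (f : MvPolynomial (Cx T) (ZMod 2)) *
      (subst (gm (Pi.single b 1)) (X c) - X c) =
      ∑ j' : Fin 3, pderiv (b, 0, j') (f : MvPolynomial (Cx T) (ZMod 2)) * X (b, 1, j') := by
    simp only [hd]
    rw [Fintype.sum_prod_type]
    rw [Finset.sum_eq_single b]
    · rw [Fintype.sum_prod_type, Fin.sum_univ_two]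
      simp
    · intro b' _ hb'
      refine Finset.sum_eq_zero fun c _ => ?_
      simp [hb']
    · intro h
      exact absurd (Finset.mem_univ b) h
  rw [hsum, sub_self, zero_sub] at ht
  have hE : ∑ j' : Fin 3, pderiv (b, 0, j') (f : MvPolynomial (Cx T) (ZMod 2)) * X (b, 1, j') ∈
      I * I := by
    rw [← neg_mem_iff]
    refine (Ideal.span_le.2 ?_) ht
    rintro _ ⟨p, rfl⟩
    exact Ideal.mul_mem_mul (hdI p.1) (hdI p.2)
  have h1 := der_pderiv_mem I (b, 1, j) _ hE
  have h2 : pderiv (b, 1, j) (∑ j' : Fin 3, pderiv (b, 0, j') (f : MvPolynomial (Cx T) (ZMod 2)) *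
      X (b, 1, j')) = pderiv (b, 0, j) (f : MvPolynomial (Cx T) (ZMod 2)) +
        ∑ j' : Fin 3, X (b, 1, j') * pderiv (b, 1, j) (pderiv (b, 0, j')
          (f : MvPolynomial (Cx T) (ZMod 2))) := by
    rw [map_sum]
    have h3 : ∀ j' : Fin 3, pderiv (b, 1, j) (pderiv (b, 0, j')
        (f : MvPolynomial (Cx T) (ZMod 2)) * X (b, 1, j')) =
        (if j' = j then pderiv (b, 0, j') (f : MvPolynomial (Cx T) (ZMod 2)) else 0) +
          X (b, 1, j') * pderiv (b, 1, j) (pderiv (b, 0, j')
            (f : MvPolynomial (Cx T) (ZMod 2))) := by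
      intro j'
      rw [Derivation.leibniz, pderiv_X]
      by_cases hj : j' = j
      · subst hj
        simp
      · rw [Pi.single_eq_of_ne (fun h => hj (by simpa using h))]
        simp [hj]
    simp only [h3, Finset.sum_add_distrib]
    simp
  rw [h2] at h1
  have h4 : ∑ j' : Fin 3, X (b, 1, j') * pderiv (b, 1, j) (pderiv (b, 0, j')
      (f : MvPolynomial (Cx T) (ZMod 2))) ∈ I :=
    I.sum_mem fun j' _ => Ideal.mul_mem_right _ _ (hu j')
  have h5 := I.sub_mem h1 h4
  rwa [add_sub_cancel_right] at h5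

/-- `thetaP` of a derivative `∂/∂x_{b,j}` of an invariant is divisible by `s_b` -/
theorem der_theta_dvd {T : ℕ} (i : Fin T → Fin 3) (b : Fin T) (j : Fin 3) (f : Inv (GB T)) :
    X (b, Cv.s) ∣ thetaP i (pderiv (b, 0, j) (f : MvPolynomial (Cx T) (ZMod 2))) := by
  have h := derS b j f
  refine Submodule.span_induction (p := fun x _ => X (b, Cv.s) ∣ thetaP i x) ?_ ?_ ?_ ?_ h
  · rintro _ ⟨j', rfl⟩
    by_cases hj : j' = i b
    · simp [thetaP, hj]
    · simp [thetaP, hj]
  · rw [map_zero]
    exact dvd_zero _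
  · intro x y _ _ hx hy
    rw [map_add]
    exact dvd_add hx hy
  · intro a x _ hx
    rw [smul_eq_mul, map_mul]
    exact hx.mul_left _

/-- `tau` commutes with the derivatives with respect to `w_j`, `z_j` -/
theorem der_tau {T : ℕ} (b : Fin T) (c : Cv) (hs : c ≠ Cv.s) (hx : c ≠ Cv.x) (g : P T) :
    pderiv (b, c) (tau T g) = tau T (pderiv (b, c) g) := by
  have h := der_chain (fun p : Fin T × Cv => if p.2 = Cv.x then
    (X (p.1, Cv.x) ^ 2 + X (p.1, Cv.s) * X (p.1, Cv.x) : P T) else X p) (b, c) g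
  have hv : ∀ p : Fin T × Cv, pderiv (b, c) (if p.2 = Cv.x then
      (X (p.1, Cv.x) ^ 2 + X (p.1, Cv.s) * X (p.1, Cv.x) : P T) else X p) =
      if p = (b, c) then 1 else 0 := by
    rintro ⟨b', c'⟩
    by_cases hc : c' = Cv.x
    · subst hc
      have h1 : (b', Cv.x) ≠ (b, c) := fun h => hx (Prod.mk.inj h).2.symm
      have h2 : (b', Cv.s) ≠ (b, c) := fun h => hs (Prod.mk.inj h).2.symm
      simp only [if_true, map_add, Derivation.leibniz, Derivation.leibniz_pow, pderiv_X_of_ne h1,
        pderiv_X_of_ne h2, smul_zero, add_zero, h1, if_false]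
    · simp only [hc, if_false]
      by_cases h1 : (b', c') = (b, c)
      · rw [h1]
        simp
      · rw [pderiv_X_of_ne h1]
        simp [h1]
  rw [tau]
  rw [h]
  simp only [hv, mul_ite, mul_one, mul_zero]
  simp

theorem der_final {T : ℕ} (i : Fin T → Fin 3) (b : Fin T) (c : Cv) (hs : c ≠ Cv.s) (hx : c ≠ Cv.x)
    (f : Inv (GB T)) : X (b, Cv.s) ∣ pderiv (b, c) (theta i f) := by
  refine dvd_of_dvd_tau (X_ne_zero _) ?_ ?_ ?_
  · simp [tau]
  · intro b'
    simp [sig]
  · rw [← der_tau b c hs hx, theta_spec]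
    have h := der_chain (fun p : Cx T => if p.2.1 = 1
      then (if p.2.2 = i p.1 then (X (p.1, Cv.s) : P T) else X (p.1, Cv.s) * X (p.1, Cv.w p.2.2))
      else (if p.2.2 = i p.1 then X (p.1, Cv.x)
        else X (p.1, Cv.z p.2.2) + X (p.1, Cv.w p.2.2) * X (p.1, Cv.x))) (b, c)
        (f : MvPolynomial (Cx T) (ZMod 2))
    have h' : pderiv (b, c) (thetaP i (f : MvPolynomial (Cx T) (ZMod 2))) = _ := h
    rw [h']
    refine Finset.dvd_sum ?_
    rintro ⟨b', k, j'⟩ _
    by_cases hk : k = 1
    · subst hk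
      refine Dvd.dvd.mul_left ?_ _
      have h2 : (b', Cv.s) ≠ (b, c) := fun h => hs (Prod.mk.inj h).2.symm
      by_cases hj : j' = i b'
      · simp only [if_true, hj, pderiv_X_of_ne h2]
        exact dvd_zero _
      · simp only [if_true, hj, if_false, Derivation.leibniz, pderiv_X_of_ne h2, smul_eq_mul,
          mul_zero, add_zero]
        by_cases h3 : (b', Cv.w j') = (b, c)
        · have hb : b' = b := (Prod.mk.inj h3).1
          rw [hb]
          exact dvd_mul_right _ _
        · rw [pderiv_X_of_ne h3, mul_zero]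
          exact dvd_zero _
    · have hk0 : k = 0 := by
        fin_cases k
        · rfl
        · exact absurd rfl hk
      subst hk0
      by_cases hb : b' = b
      · subst hb
        exact Dvd.dvd.mul_right (der_theta_dvd i b' j' f) _
      · refine Dvd.dvd.mul_left ?_ _
        have hne : ∀ c' : Cv, (b', c') ≠ (b, c) := fun c' h => hb (Prod.mk.inj h).1
        by_cases hj : j' = i b'
        · simp only [zero_ne_one, if_false, hj, if_true, pderiv_X_of_ne (hne _)]
          exact dvd_zero _
        · simp only [zero_ne_one, if_false, hj, map_add, Derivation.leibniz,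
            pderiv_X_of_ne (hne _), smul_zero, add_zero]
          exact dvd_zero _

theorem der_w {T : ℕ} (i : Fin T → Fin 3) (b : Fin T) (j : Fin 3) (f : Inv (GB T)) :
    X (b, Cv.s) ∣ pderiv (b, Cv.w j) (theta i f) :=
  der_final i b (Cv.w j) nofun nofun f

theorem der_z {T : ℕ} (i : Fin T → Fin 3) (b : Fin T) (j : Fin 3) (f : Inv (GB T)) :
    X (b, Cv.s) ∣ pderiv (b, Cv.z j) (theta i f) :=
  der_final i b (Cv.z j) nofun nofun f

end H48SM
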