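import Pool.Agent.H48.SM.Data

/-! # Module DSJ: the pieces are disjoint

Proof.
`psi_disj`: let `p` be the comap of a prime `𝔮` of `DR e i n h`.  For `l ≤ n`: `X (uI b j, l) ∈ p` for `l < e b` and all `j`;
`X (uI b (i b), e b) ∉ p` (its image `dat (b,s) (e b)` is a unit: it divides `lead`); `X (uI b j, e b) ∈ p` for `j < i b` (image
`∑ dat (b,s) a * dat (b,w j) a'` with `a ≥ e b`, and `dat (b,w j) 0 = 0`).  So `p` determines first `e` (least `l` such that
some `X (uI b j, l) ∉ p`) and then `i`.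
(`psi (X (f,l)) = coeff l (UU (theta i f))`; `theta_u_piv`, `theta_u`, `PowerSeries.coeff_mul`; `dat (b,s) a = 0` for `a < e b`.)
-/

set_option autoImplicit false

namespace H48SM

open MvPolynomial

theorem dsj_dat_s {T n : ℕ} (e : Fin T → ℕ) (i : Fin T → Fin 3) (h : ∀ b, e b ≤ n) (b : Fin T)
    (a : ℕ) (ha : a < e b) : dat e i n h (b, Cv.s) a = 0 := by
  unfold dat
  rw [dif_neg]
  intro hl
  have h1 : e b ≤ a := hl.2.1 rfl
  omega

theorem dsj_dat_w {T n : ℕ} (e : Fin T → ℕ) (i : Fin T → Fin 3) (h : ∀ b, e b ≤ n) (b : Fin T)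
    (j : Fin 3) (hj : j < i b) : dat e i n h (b, Cv.w j) 0 = 0 := by
  unfold dat
  rw [dif_neg]
  intro hl
  have h1 := ((hl.2.2 j).1 rfl).2.2 hj
  omega

theorem dsj_psi {T n : ℕ} (e : Fin T → ℕ) (i : Fin T → Fin 3) (h : ∀ b, e b ≤ n)
    (f : Inv (GB T)) (l : Fin (n + 1)) :
    psi e i n h (X (f, l)) = PowerSeries.coeff (l : ℕ) (UU e i n h (theta i f)) := by
  unfold psi
  rw [aeval_X]

theorem dsj_UU {T n : ℕ} (e : Fin T → ℕ) (i : Fin T → Fin 3) (h : ∀ b, e b ≤ n)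
    (p : Fin T × Cv) (l : ℕ) :
    PowerSeries.coeff l (UU e i n h (X p)) = dat e i n h p l := by
  unfold UU
  rw [aeval_X, PowerSeries.coeff_mk]

theorem dsj_low {T n : ℕ} (e : Fin T → ℕ) (i : Fin T → Fin 3) (h : ∀ b, e b ≤ n)
    (b : Fin T) (j : Fin 3) (l : Fin (n + 1)) (hl : (l : ℕ) < e b) :
    psi e i n h (X (uI b j, l)) = 0 := by
  rw [dsj_psi]
  by_cases hj : j = i b
  · rw [hj, theta_u_piv, dsj_UU]
    exact dsj_dat_s e i h b l hl
  · rw [theta_u i b j hj, map_mul, PowerSeries.coeff_mul]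
    refine Finset.sum_eq_zero fun a ha => ?_
    have h1 : a.1 + a.2 = (l : ℕ) := Finset.HasAntidiagonal.mem_antidiagonal.1 ha
    rw [dsj_UU, dsj_dat_s e i h b a.1 (by omega), zero_mul]

theorem dsj_mid {T n : ℕ} (e : Fin T → ℕ) (i : Fin T → Fin 3) (h : ∀ b, e b ≤ n)
    (b : Fin T) (j : Fin 3) (hj : j < i b) (l : Fin (n + 1)) (hl : (l : ℕ) = e b) :
    psi e i n h (X (uI b j, l)) = 0 := by
  rw [dsj_psi, theta_u i b j (ne_of_lt hj), map_mul, PowerSeries.coeff_mul]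
  refine Finset.sum_eq_zero fun a ha => ?_
  have h1 : a.1 + a.2 = (l : ℕ) := Finset.HasAntidiagonal.mem_antidiagonal.1 ha
  by_cases h2 : a.1 < e b
  · rw [dsj_UU, dsj_dat_s e i h b a.1 h2, zero_mul]
  · have h3 : a.2 = 0 := by omega
    rw [dsj_UU, dsj_UU, h3, dsj_dat_w e i h b j hj, mul_zero]

theorem dsj_unit {T n : ℕ} (e : Fin T → ℕ) (i : Fin T → Fin 3) (h : ∀ b, e b ≤ n)
    (b : Fin T) (l : Fin (n + 1)) (hl : (l : ℕ) = e b) :
    IsUnit (psi e i n h (X (uI b (i b), l))) := by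
  rw [dsj_psi, theta_u_piv, dsj_UU]
  have h1 : l = ⟨e b, Nat.lt_succ_of_le (h b)⟩ := Fin.ext hl
  have hal : allowed e i n (b, Cv.s) (l : ℕ) := by
    rw [hl]
    exact (ldi e i n h b).2
  have h2 : dat e i n h (b, Cv.s) l =
      algebraMap (MvPolynomial (Ax e i n) (ZMod 2)) (DR e i n h) (X (ldi e i n h b)) := by
    unfold dat
    rw [dif_pos hal]
    congr 2
    apply Subtype.ext
    refine Prod.ext rfl (Fin.ext ?_)
    exact hl
  rw [h2]
  have h3 : IsUnit (algebraMap (MvPolynomial (Ax e i n) (ZMod 2)) (DR e i n h)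
      (lead e i n h)) := IsLocalization.Away.algebraMap_isUnit (lead e i n h)
  have h4 : X (ldi e i n h b) ∣ lead e i n h := by
    unfold lead
    exact Finset.dvd_prod_of_mem _ (Finset.mem_univ b)
  exact isUnit_of_dvd_unit (map_dvd _ h4) h3

theorem psi_disj {T n : ℕ} (e e' : Fin T → ℕ) (i i' : Fin T → Fin 3) (h : ∀ b, e b ≤ n)
    (h' : ∀ b, e' b ≤ n) (hne : (e, i) ≠ (e', i')) :
    Disjoint (Set.range (PrimeSpectrum.comap (psi e i n h).toRingHom))
      (Set.range (PrimeSpectrum.comap (psi e' i' n h').toRingHom)) := by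
  rw [Set.disjoint_left]
  rintro p ⟨q, hq⟩ ⟨q', hq'⟩
  apply hne
  have hz : ∀ f, psi e i n h f = 0 → ¬ IsUnit (psi e' i' n h' f) := by
    intro f hf hu
    have h1 : f ∈ p.asIdeal := by
      rw [← hq]
      show psi e i n h f ∈ q.asIdeal
      rw [hf]
      exact q.asIdeal.zero_mem
    rw [← hq'] at h1
    exact q'.2.ne_top (Ideal.eq_top_of_isUnit_mem _ h1 hu)
  have hz' : ∀ f, psi e' i' n h' f = 0 → ¬ IsUnit (psi e i n h f) := by
    intro f hf hu
    have h1 : f ∈ p.asIdeal := by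
      rw [← hq']
      show psi e' i' n h' f ∈ q'.asIdeal
      rw [hf]
      exact q'.asIdeal.zero_mem
    rw [← hq] at h1
    exact q.2.ne_top (Ideal.eq_top_of_isUnit_mem _ h1 hu)
  have he : e = e' := by
    funext b
    rcases lt_trichotomy (e b) (e' b) with hlt | heq | hgt
    · exact absurd (dsj_unit e i h b ⟨e b, Nat.lt_succ_of_le (h b)⟩ rfl)
        (hz' _ (dsj_low e' i' h' b (i b) ⟨e b, Nat.lt_succ_of_le (h b)⟩ hlt))
    · exact heq
    · exact absurd (dsj_unit e' i' h' b ⟨e' b, Nat.lt_succ_of_le (h' b)⟩ rfl)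
        (hz _ (dsj_low e i h b (i' b) ⟨e' b, Nat.lt_succ_of_le (h' b)⟩ hgt))
  have hi : i = i' := by
    funext b
    have hb : e b = e' b := congrFun he b
    rcases lt_trichotomy (i b) (i' b) with hlt | heq | hgt
    · exact absurd (dsj_unit e i h b ⟨e b, Nat.lt_succ_of_le (h b)⟩ rfl)
        (hz' _ (dsj_mid e' i' h' b (i b) hlt ⟨e b, Nat.lt_succ_of_le (h b)⟩ hb))
    · exact heq
    · exact absurd (dsj_unit e' i' h' b ⟨e' b, Nat.lt_succ_of_le (h' b)⟩ rfl)
        (hz _ (dsj_mid e i h b (i' b) hgt ⟨e' b, Nat.lt_succ_of_le (h' b)⟩ hb.symm))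
  rw [he, hi]

end H48SM
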