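import Pool.Agent.H48.SM.Grp

/-! # The invariants `u_{b,j}`, `N_{b,j} = x^2 + u x`, `M_{b,i,j} = x_i u_j + x_j u_i` -/

set_option autoImplicit false

namespace H48SM

open MvPolynomial

/-- `u_{b,j}` -/
noncomputable def uI {T : ℕ} (b : Fin T) (j : Fin 3) : Inv (GB T) :=
  ⟨X (b, 1, j), by
    rintro _ ⟨S, rfl⟩
    exact subst_gm_u S b j⟩

/-- `N_{b,j} = x_{b,j}^2 + u_{b,j} x_{b,j}` -/
noncomputable def NI {T : ℕ} (b : Fin T) (j : Fin 3) : Inv (GB T) :=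
  ⟨X (b, 0, j) ^ 2 + X (b, 1, j) * X (b, 0, j), by
    rintro _ ⟨S, rfl⟩
    rw [map_add, map_pow, map_mul, subst_gm_u, subst_gm_x]
    have h2 : (2 : MvPolynomial (Cx T) (ZMod 2)) = 0 := CharTwo.two_eq_zero
    have hS : S b * S b = S b := by
      generalize S b = c
      revert c
      decide
    have hC : (C (S b) : MvPolynomial (Cx T) (ZMod 2)) * C (S b) = C (S b) := by
      rw [← C_mul, hS]
    linear_combination (X (b, 0, j) * C (S b) * X (b, 1, j) + C (S b) * X (b, 1, j) ^ 2) * h2 +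
      (X (b, 1, j)) ^ 2 * hC⟩

/-- `M_{b,i,j} = x_{b,i} u_{b,j} + x_{b,j} u_{b,i}` -/
noncomputable def MI {T : ℕ} (b : Fin T) (i j : Fin 3) : Inv (GB T) :=
  ⟨X (b, 0, i) * X (b, 1, j) + X (b, 0, j) * X (b, 1, i), by
    rintro _ ⟨S, rfl⟩
    rw [map_add, map_mul, map_mul, subst_gm_u, subst_gm_x, subst_gm_x, subst_gm_u]
    have h2 : (2 : MvPolynomial (Cx T) (ZMod 2)) = 0 := CharTwo.two_eq_zero
    linear_combination (C (S b) * X (b, 1, i) * X (b, 1, j)) * h2⟩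

end H48SM
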