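import Pool.Agent.H48.SM.Der

/-! # Module TRU: the `n`-jet depends only on the allowed coefficients

Proof.  `taylor` for `α, β` and `theta i f`: the first order terms are `α(∂_c g)(β c - α c)`, `g = theta i f`.  For
`c = s, x` the difference is divisible by `t^(n+1)`.  For `c = w_j, z_j` of block `b`: `α(∂_c g)` is divisible by
`α(s_b)`, so by `t^(e_b)` (`der_w`, `der_z`), and the difference by `t^(n+1-e_b)`; `e_b ≤ n + 1`.  Second order terms: every
difference of block `b` is divisible by `t^(n+1-e_b)`, and `(n+1-e_b) + (n+1-e_b') ≥ n+1` since `2 e_b ≤ n`, `2 e_b' ≤ n`.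
-/

set_option autoImplicit false

namespace H48SM

open MvPolynomial

theorem trunc {T : ℕ} {R : Type} [CommRing R] [Algebra (ZMod 2) R] (i : Fin T → Fin 3)
    (e : Fin T → ℕ) (n : ℕ) (hn : ∀ b, 2 * e b ≤ n) (α β : P T →ₐ[ZMod 2] PowerSeries R)
    (hs : ∀ b, PowerSeries.X ^ (e b) ∣ α (X (b, Cv.s)))
    (h1 : ∀ b, PowerSeries.X ^ (n + 1) ∣ β (X (b, Cv.s)) - α (X (b, Cv.s)))
    (h2 : ∀ b, PowerSeries.X ^ (n + 1) ∣ β (X (b, Cv.x)) - α (X (b, Cv.x)))
    (h3 : ∀ b j, PowerSeries.X ^ (n + 1 - e b) ∣ β (X (b, Cv.w j)) - α (X (b, Cv.w j)))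
    (h4 : ∀ b j, PowerSeries.X ^ (n + 1 - e b) ∣ β (X (b, Cv.z j)) - α (X (b, Cv.z j)))
    (f : Inv (GB T)) : PowerSeries.X ^ (n + 1) ∣ β (theta i f) - α (theta i f) := by
  -- the differences
  have hδ : ∀ p : Fin T × Cv, PowerSeries.X ^ (n + 1 - e p.1) ∣ β (X p) - α (X p) := by
    rintro ⟨b, c⟩
    cases c with
    | s => exact (pow_dvd_pow _ (Nat.sub_le _ _)).trans (h1 b)
    | x => exact (pow_dvd_pow _ (Nat.sub_le _ _)).trans (h2 b)
    | w j => exact h3 b j
    | z j => exact h4 b j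
  have ht := taylor α β (theta i f)
  have hle : Ideal.span (Set.range fun p : (Fin T × Cv) × (Fin T × Cv) =>
        (β (X p.1) - α (X p.1)) * (β (X p.2) - α (X p.2))) ≤
      Ideal.span {(PowerSeries.X : PowerSeries R) ^ (n + 1)} := by
    rw [Ideal.span_le]
    rintro _ ⟨p, rfl⟩
    rw [SetLike.mem_coe, Ideal.mem_span_singleton]
    refine dvd_trans ?_ (mul_dvd_mul (hδ p.1) (hδ p.2))
    rw [← pow_add]
    refine pow_dvd_pow _ ?_
    have a1 := hn p.1.1
    have a2 := hn p.2.1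
    omega
  have h5 := Ideal.mem_span_singleton.1 (hle ht)
  have h6 : PowerSeries.X ^ (n + 1) ∣
      ∑ c, α (pderiv c (theta i f)) * (β (X c) - α (X c)) := by
    refine Finset.dvd_sum (fun p _ => ?_)
    obtain ⟨b, c⟩ := p
    have hpow : (PowerSeries.X : PowerSeries R) ^ (n + 1) =
        PowerSeries.X ^ (e b) * PowerSeries.X ^ (n + 1 - e b) := by
      rw [← pow_add]
      congr 1
      have := hn b
      omega
    cases c with
    | s => exact (h1 b).mul_left _
    | x => exact (h2 b).mul_left _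
    | w j =>
      rw [hpow]
      exact mul_dvd_mul ((hs b).trans (map_dvd α (der_w i b j f))) (h3 b j)
    | z j =>
      rw [hpow]
      exact mul_dvd_mul ((hs b).trans (map_dvd α (der_z i b j f))) (h4 b j)
  have h7 := dvd_add h5 h6
  rwa [sub_add_cancel] at h7

end H48SM
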