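import Pool.Agent.H48.SM.Defs

/-!
# The example: `G = (Z/2)^T` acting on `A^{6T}` over `F_2`

Block `b < T` has coordinates `x_{b,j} = X (b,0,j)` and `u_{b,j} = X (b,1,j)`, `j < 3`; the generator
`g_b` acts by `x_{b,j} ↦ x_{b,j} + u_{b,j}`.
-/

set_option autoImplicit false

namespace H48SM

/-- coordinates on `A^{6T}` -/
abbrev Cx (T : ℕ) : Type := Fin T × Fin 2 × Fin 3

/-- the nilpotent matrix with `x_{b,j} ↦ S_b u_{b,j}` -/
def nil {T : ℕ} (S : Fin T → ZMod 2) : Matrix (Cx T) (Cx T) (ZMod 2) :=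
  Matrix.of fun p q => if p.1 = q.1 ∧ p.2.2 = q.2.2 ∧ p.2.1 = 0 ∧ q.2.1 = 1 then S p.1 else 0

theorem nil_mul {T : ℕ} (S S' : Fin T → ZMod 2) : nil S * nil S' = 0 := by
  ext p q
  rw [Matrix.mul_apply]
  refine Finset.sum_eq_zero ?_
  intro c _
  simp only [nil, Matrix.of_apply]
  by_cases h : p.1 = c.1 ∧ p.2.2 = c.2.2 ∧ p.2.1 = 0 ∧ c.2.1 = 1
  · have : ¬ (c.1 = q.1 ∧ c.2.2 = q.2.2 ∧ c.2.1 = 0 ∧ q.2.1 = 1) := by
      intro h'
      have h1 := h.2.2.2
      have h2 := h'.2.2.1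
      rw [h1] at h2
      exact absurd h2 (by decide)
    rw [if_neg this, mul_zero]
  · rw [if_neg h, zero_mul]

theorem nil_add {T : ℕ} (S S' : Fin T → ZMod 2) : nil (S + S') = nil S + nil S' := by
  ext p q
  simp only [nil, Matrix.of_apply, Matrix.add_apply, Pi.add_apply]
  split_ifs <;> simp

theorem nil_zero {T : ℕ} : nil (0 : Fin T → ZMod 2) = 0 := by
  ext p q
  simp [nil]

theorem nil_self {T : ℕ} (S : Fin T → ZMod 2) : nil S + nil S = 0 := by
  rw [← nil_add]
  have : S + S = 0 := by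
    funext b
    exact CharTwo.add_self_eq_zero _
  rw [this, nil_zero]

/-- the group element -/
def gm {T : ℕ} (S : Fin T → ZMod 2) : Matrix.GeneralLinearGroup (Cx T) (ZMod 2) where
  val := 1 + nil S
  inv := 1 + nil S
  val_inv := by
    rw [add_mul, mul_add, mul_add, nil_mul, one_mul, mul_one, add_zero, add_assoc, one_mul,
      nil_self, add_zero]
  inv_val := by
    rw [add_mul, mul_add, mul_add, nil_mul, one_mul, mul_one, add_zero, add_assoc, one_mul,
      nil_self, add_zero]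

theorem gm_mul {T : ℕ} (S S' : Fin T → ZMod 2) : gm S * gm S' = gm (S + S') := by
  ext1
  change (1 + nil S) * (1 + nil S') = 1 + nil (S + S')
  rw [nil_add, add_mul, mul_add, mul_add, nil_mul, one_mul, mul_one, add_zero, one_mul]
  abel

theorem gm_zero {T : ℕ} : gm (0 : Fin T → ZMod 2) = 1 := by
  ext1
  change 1 + nil 0 = 1
  rw [nil_zero, add_zero]

/-- the group `(Z/2)^T` -/
def GB (T : ℕ) : Subgroup (Matrix.GeneralLinearGroup (Cx T) (ZMod 2)) where
  carrier := Set.range gm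
  mul_mem' := by
    rintro _ _ ⟨S, rfl⟩ ⟨S', rfl⟩
    exact ⟨S + S', (gm_mul S S').symm⟩
  one_mem' := ⟨0, gm_zero⟩
  inv_mem' := by
    rintro _ ⟨S, rfl⟩
    refine ⟨S, ?_⟩
    rw [eq_inv_iff_mul_eq_one, gm_mul]
    have : S + S = 0 := by
      funext b
      exact CharTwo.add_self_eq_zero _
    rw [this, gm_zero]

instance {T : ℕ} : Finite (GB T) := (Set.finite_range gm).to_subtype

/-- `r = |G| = 2^T` -/
noncomputable abbrev rr (T : ℕ) : ℕ := Nat.card (GB T)

/-! ### The chart -/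

/-- coordinates of one block of a chart of the blow-up: `s`, `x` (or `N`), `w_j`, `z_j`; the
coordinates `w_j`, `z_j` with `j` the pivot index are dummies -/
inductive Cv : Type
  | s
  | x
  | w (j : Fin 3)
  | z (j : Fin 3)
  deriving DecidableEq, Fintype

/-- the chart ring -/
abbrev P (T : ℕ) : Type := MvPolynomial (Fin T × Cv) (ZMod 2)

open MvPolynomial in
/-- the chart map with pivots `i`: `u_{b,i} = s`, `u_{b,j} = s w_j`, `x_{b,i} = x`,
`x_{b,j} = z_j + w_j x` -/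
noncomputable def thetaP {T : ℕ} (i : Fin T → Fin 3) : MvPolynomial (Cx T) (ZMod 2) →ₐ[ZMod 2] P T :=
  aeval fun p => if p.2.1 = 1
    then (if p.2.2 = i p.1 then X (p.1, Cv.s) else X (p.1, Cv.s) * X (p.1, Cv.w p.2.2))
    else (if p.2.2 = i p.1 then X (p.1, Cv.x)
      else X (p.1, Cv.z p.2.2) + X (p.1, Cv.w p.2.2) * X (p.1, Cv.x))

open MvPolynomial in
/-- `x ↦ N = x^2 + s x` -/
noncomputable def tau (T : ℕ) : P T →ₐ[ZMod 2] P T :=
  aeval fun p => if p.2 = Cv.x then X (p.1, Cv.x) ^ 2 + X (p.1, Cv.s) * X (p.1, Cv.x) else X p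

open MvPolynomial in
/-- the action of the generator `g_b` on the chart: `x_b ↦ x_b + s_b` -/
noncomputable def sig {T : ℕ} (b : Fin T) : P T →ₐ[ZMod 2] P T :=
  aeval fun p => if p = (b, Cv.x) then X (b, Cv.x) + X (b, Cv.s) else X p

/-- the chart coordinate corresponding to a coordinate of `A^{6T}` -/
def nu {T : ℕ} (i : Fin T → Fin 3) (p : Cx T) : Fin T × Cv :=
  (p.1, if p.2.1 = 1 then (if p.2.2 = i p.1 then Cv.s else Cv.w p.2.2)
    else (if p.2.2 = i p.1 then Cv.x else Cv.z p.2.2))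

end H48SM
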