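import Pool.Agent.H48.SM.Pc

/-! # Module HCC: the number of rational points of a constructible set does not depend on the partition

Proof.  `F = GaloisField 2 (r t)`.  For pieces `P_i, ψ_i` of `Tt`: composition with `ψ_i` is a bijection from
`P_i →ₐ F` onto `{φ : R →ₐ F | ker φ ∈ range (comap ψ_i)}`: injective since `P_i` is generated by the image of `ψ_i` and the inverse of the
unit `ψ_i f` (`IsPiece`: `χ p * χ (ψ f)^n = χ (ψ g)`); surjective: if `ker φ = comap ψ_i 𝔮` (`𝔮` prime) then `φ f ≠ 0`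
(as `ψ_i f` is a unit, not in `𝔮`) and `ker ψ_i ≤ ker φ`; define `χ p = φ g / φ f^n` where `p * ψ f^n = ψ g` (well defined, a homomorphism).
So `c (∑ cls P_i) = ∑ #(P_i →ₐ F) = #{φ | ker φ ∈ Tt}` by disjointness (`Nat.card` of a finite disjoint union, all finite by `finite_hom`).
The right side does not depend on the partition.
-/

set_option autoImplicit false

namespace H48SM

/-- the point of the spectrum given by a homomorphism to a field -/
def hccPt {R F : Type} [CommRing R] [Algebra (ZMod 2) R] [Field F] [Algebra (ZMod 2) F]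
    (φ : R →ₐ[ZMod 2] F) : PrimeSpectrum R :=
  ⟨RingHom.ker φ.toRingHom, RingHom.ker_isPrime φ.toRingHom⟩

theorem hcc_inj {R P F : Type} [CommRing R] [Algebra (ZMod 2) R] [CommRing P]
    [Algebra (ZMod 2) P] [Field F] [Algebra (ZMod 2) F] (ψ : R →ₐ[ZMod 2] P)
    (hψ : IsPiece ψ.toRingHom) (χ χ' : P →ₐ[ZMod 2] F) (h : χ.comp ψ = χ'.comp ψ) : χ = χ' := by
  obtain ⟨f, hf, hg⟩ := hψ
  have hf' : IsUnit (ψ f) := hf
  have key : ∀ r : R, χ (ψ r) = χ' (ψ r) := fun r => DFunLike.congr_fun h r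
  ext p
  obtain ⟨g, n, hn⟩ := hg p
  have hn' : p * ψ f ^ n = ψ g := hn
  have h1 : χ p * χ (ψ f) ^ n = χ (ψ g) := by rw [← map_pow, ← map_mul, hn']
  have h2 : χ' p * χ' (ψ f) ^ n = χ' (ψ g) := by rw [← map_pow, ← map_mul, hn']
  have h0 : χ (ψ f) ^ n ≠ 0 := pow_ne_zero _ (hf'.map χ).ne_zero
  apply mul_right_cancel₀ h0
  rw [h1, key g, ← h2, key f]

theorem hcc_mem {R P F : Type} [CommRing R] [Algebra (ZMod 2) R] [CommRing P]
    [Algebra (ZMod 2) P] [Field F] [Algebra (ZMod 2) F] (ψ : R →ₐ[ZMod 2] P)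
    (χ : P →ₐ[ZMod 2] F) :
    hccPt (χ.comp ψ) ∈ Set.range (PrimeSpectrum.comap ψ.toRingHom) := by
  refine ⟨hccPt χ, ?_⟩
  apply PrimeSpectrum.ext
  ext r
  rfl

theorem hcc_surj {R P F : Type} [CommRing R] [Algebra (ZMod 2) R] [CommRing P]
    [Algebra (ZMod 2) P] [Field F] [Algebra (ZMod 2) F] (ψ : R →ₐ[ZMod 2] P)
    (hψ : IsPiece ψ.toRingHom) (φ : R →ₐ[ZMod 2] F)
    (h : hccPt φ ∈ Set.range (PrimeSpectrum.comap ψ.toRingHom)) :
    ∃ χ : P →ₐ[ZMod 2] F, χ.comp ψ = φ := by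
  obtain ⟨f, hf, hg⟩ := hψ
  obtain ⟨q, hq⟩ := h
  have hf' : IsUnit (ψ f) := hf
  have hmem : ∀ r : R, φ r = 0 ↔ ψ r ∈ q.asIdeal := by
    intro r
    have h1 : r ∈ (PrimeSpectrum.comap ψ.toRingHom q).asIdeal ↔ r ∈ (hccPt φ).asIdeal := by
      rw [hq]
    exact h1.symm
  have hφf : φ f ≠ 0 := by
    intro h0
    exact q.isPrime.ne_top (Ideal.eq_top_of_isUnit_mem _ ((hmem f).1 h0) hf')
  have hker : ∀ r : R, ψ r = 0 → φ r = 0 := by
    intro r hr
    rw [hmem, hr]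
    exact q.asIdeal.zero_mem
  have hker2 : ∀ r s : R, ψ r = ψ s → φ r = φ s := by
    intro r s hrs
    have := hker (r - s) (by rw [map_sub, hrs, sub_self])
    rwa [map_sub, sub_eq_zero] at this
  choose g n hgn using hg
  have hgn' : ∀ p, p * ψ f ^ n p = ψ (g p) := hgn
  -- the key property of the value
  have key : ∀ (p : P) (a : R) (m : ℕ), p * ψ f ^ m = ψ a →
      (φ (g p) / φ f ^ n p) * φ f ^ m = φ a := by
    intro p a m hp
    have h1 : ψ (g p * f ^ m) = ψ (a * f ^ n p) := by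
      rw [map_mul, map_mul, map_pow, map_pow, ← hgn', ← hp]
      ring
    have h2 := hker2 _ _ h1
    rw [map_mul, map_mul, map_pow, map_pow] at h2
    rw [div_mul_eq_mul_div, div_eq_iff (pow_ne_zero _ hφf)]
    exact h2
  have keyU : ∀ (p : P) (a : R) (m : ℕ) (y : F), p * ψ f ^ m = ψ a → y * φ f ^ m = φ a →
      φ (g p) / φ f ^ n p = y := by
    intro p a m y hp hy
    apply mul_right_cancel₀ (pow_ne_zero m hφf)
    rw [key p a m hp, hy]
  have hval : ∀ r : R, φ (g (ψ r)) / φ f ^ n (ψ r) = φ r := by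
    intro r
    exact keyU (ψ r) r 0 (φ r) (by simp) (by simp)
  have kp : ∀ p, (φ (g p) / φ f ^ n p) * φ f ^ n p = φ (g p) := fun p =>
    div_mul_cancel₀ _ (pow_ne_zero _ hφf)
  refine ⟨{ toFun := fun p => φ (g p) / φ f ^ n p
            map_one' := ?_
            map_mul' := ?_
            map_zero' := ?_
            map_add' := ?_
            commutes' := ?_ }, ?_⟩
  · exact keyU 1 1 0 1 (by simp) (by simp)
  · intro p p'
    refine keyU (p * p') (g p * g p') (n p + n p') _ ?_ ?_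
    · rw [map_mul, ← hgn', ← hgn', pow_add]
      ring
    · rw [map_mul, pow_add]
      field_simp
  · exact keyU 0 0 0 0 (by simp) (by simp)
  · intro p p'
    refine keyU (p + p') (g p * f ^ n p' + g p' * f ^ n p) (n p + n p') _ ?_ ?_
    · rw [map_add, map_mul, map_mul, map_pow, map_pow, ← hgn', ← hgn', pow_add]
      ring
    · rw [map_add, map_mul, map_mul, map_pow, map_pow, pow_add]
      field_simp
  · intro s
    have h1 := hval (algebraMap (ZMod 2) R s)
    rw [AlgHom.commutes, AlgHom.commutes] at h1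
    exact h1
  · ext r
    exact hval r

theorem hcc_card {R P F : Type} [CommRing R] [Algebra (ZMod 2) R] [CommRing P]
    [Algebra (ZMod 2) P] [Field F] [Algebra (ZMod 2) F] (ψ : R →ₐ[ZMod 2] P)
    (hψ : IsPiece ψ.toRingHom) :
    Nonempty ((P →ₐ[ZMod 2] F) ≃
      {φ : R →ₐ[ZMod 2] F | hccPt φ ∈ Set.range (PrimeSpectrum.comap ψ.toRingHom)}) := by
  refine ⟨Equiv.ofBijective (fun χ => ⟨χ.comp ψ, hcc_mem ψ χ⟩) ⟨?_, ?_⟩⟩
  · intro χ χ' h
    exact hcc_inj ψ hψ χ χ' (congrArg Subtype.val h)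
  · rintro ⟨φ, hφ⟩
    obtain ⟨χ, hχ⟩ := hcc_surj ψ hψ φ hφ
    exact ⟨χ, Subtype.ext hχ⟩

theorem hcc_count {β : Prop} {r t : ℕ} {c : Mot (ZMod 2) r β →+* ℝ}
    (hc : IsPC r t c) {R : Type} [CommRing R] [Algebra (ZMod 2) R] {Tt : Set (PrimeSpectrum R)}
    {x : Mot (ZMod 2) r β} (h : HasClass Tt x) :
    c x = Nat.card {φ : R →ₐ[ZMod 2] GaloisField 2 (r * t) | hccPt φ ∈ Tt} := by
  obtain ⟨m, P, ψ, hp, hd, hT, hx⟩ := h
  have hF : Finite (GaloisField 2 (r * t)) := inferInstance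
  let S : Fin m → Set (R →ₐ[ZMod 2] GaloisField 2 (r * t)) := fun i =>
    {φ | hccPt φ ∈ Set.range (PrimeSpectrum.comap (ψ i).toRingHom)}
  have hS : {φ : R →ₐ[ZMod 2] GaloisField 2 (r * t) | hccPt φ ∈ Tt} = ⋃ i, S i := by
    ext φ
    rw [hT]
    constructor
    · intro h1
      obtain ⟨i, hi⟩ := Set.mem_iUnion.1 h1
      exact Set.mem_iUnion.2 ⟨i, hi⟩
    · intro h1
      obtain ⟨i, hi⟩ := Set.mem_iUnion.1 h1
      exact Set.mem_iUnion.2 ⟨i, hi⟩
  have hdS : Pairwise (Function.onFun Disjoint S) := by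
    intro i j hij
    have h1 := hd i j hij
    show Disjoint (S i) (S j)
    rw [Set.disjoint_left] at h1 ⊢
    intro φ hi hj
    exact h1 hi hj
  have hfin : ∀ i, Finite (S i) := by
    intro i
    obtain ⟨e⟩ := hcc_card (F := GaloisField 2 (r * t)) (ψ i) (hp i)
    have := finite_hom (P i).A (GaloisField 2 (r * t))
    exact Finite.of_equiv _ e
  rw [hS, Nat.card_congr (Set.unionEqSigmaOfDisjoint hdS), Nat.card_sigma, hx, map_sum,
    Nat.cast_sum]
  refine Finset.sum_congr rfl fun i _ => ?_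
  obtain ⟨e⟩ := hcc_card (F := GaloisField 2 (r * t)) (ψ i) (hp i)
  rw [hc.cls, Nat.card_congr e]

theorem pc_hasClass {β : Prop} {r t : ℕ} {c : Mot (ZMod 2) r β →+* ℝ} (hr : 0 < r) (ht : 0 < t)
    (hc : IsPC r t c) {R : Type} [CommRing R] [Algebra (ZMod 2) R] {Tt : Set (PrimeSpectrum R)}
    {x x' : Mot (ZMod 2) r β} (h : HasClass Tt x) (h' : HasClass Tt x') : c x = c x' := by
  rw [hcc_count hc h, hcc_count hc h']

end H48SM
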