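import Pool.Agent.H48.SM.NumV

/-! # Module NUMU: the series of the stringy motive, in numbers

`c` is the realisation for the field with `Q = 2^(r t)` elements, `r = rr T`, `c (qpow j) = (2^t)^j` (from `IsPC.q` and
`qq * qqi = 1`, relation `inv` of `Rel`; prove it here, `zpow`).
Proof of `num_u`: `c (uE T E) = ∑_e ∑_i (Q-1)^T Q^{∑_b (5 - 5 e_b - i_b) + 3E} = N_E (Q-1)^T Q^{5T} Q^{-2E} (1 + Q^{-1} + Q^{-2})^T`
(as `∑ e_b = E`), where `N_E = #antidiagonalTuple T E` (`Finset.prod_univ_sum`, `Fintype.piFinset_univ` for the sum over `i`, or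
`Finset.sum_prod_piFinset`/`Fintype.sum_pow`-like lemmas: `∏_b ∑_{i : Fin 3} Q^{-i} = ∑_i ∏_b Q^{-i_b}`).
With `x = Q^{-2} ≤ 1/4`: `∑_E N_E x^E = (1-x)^{-T}`: either by induction on `T` (`Finset.Nat.antidiagonalTuple_succ` and Cauchy
products), or `N_E = (E+T-1).choose (T-1)` (`Finset.Nat.card_antidiagonalTuple`?) and `hasSum_choose_mul_geometric_of_norm_lt_one`.
`(Q-1)^T Q^{5T} (1+Q^{-1}+Q^{-2})^T (1-Q^{-2})^{-T} = AA r T t` (`(Q-1) Q^2/(Q^2-1) = Q^2/(Q+1)`).  Tail: `∑_{E ≥ M} N_E x^E ≤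
x^M ∑_j N_{M+j} (1/4)^j =: x^M C_M`, so the error is at most `Q^{6T} 3^T C_M Q^{-2M}`: choose `M₀` with `2 r M₀ - 6 r T ≥ m`
(`C` may depend on `M`, not on `t` and `c`).  `N_E ≤ (E+1)^T` gives summability.
-/

set_option autoImplicit false

namespace H48SM

/-- NUMU: the value of one part of the series -/
theorem numu_term {β : Prop} {T t : ℕ} {c : Mot (ZMod 2) (rr T) β →+* ℝ} (hc : IsPC (rr T) t c)
    {Q : ℝ} (hQ : Q = (2 : ℝ) ^ (rr T * t)) (E : ℕ) :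
    c (uE β T E) = ((Q - 1) ^ T * Q ^ (5 * T) * (∑ j : Fin 3, Q⁻¹ ^ (j : ℕ)) ^ T) *
      numv_W T (fun _ => (Q ^ 2)⁻¹) E := by
  have hQ0 : 0 < Q := by rw [hQ]; positivity
  have hr : ∀ X : ℤ, c (qpow (ZMod 2) (rr T) ((rr T : ℤ) * X)) = Q ^ X := by
    intro X
    rw [numv_qpow hc, zpow_mul, zpow_natCast, ← pow_mul, mul_comm t, ← hQ]
  have hr1 : c (qpow (ZMod 2) (rr T) (rr T)) = Q := by
    have := hr 1
    rwa [mul_one, zpow_one] at this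
  unfold uE
  rw [map_sum]
  have h1 : ∀ e ∈ Finset.Nat.antidiagonalTuple T E, c (∑ i : Fin T → Fin 3,
      (qpow (ZMod 2) (rr T) (rr T) - 1) ^ T *
        qpow (ZMod 2) (rr T) ((rr T : ℤ) * (∑ b, (5 - 5 * (e b : ℤ) - ((i b : ℕ) : ℤ)) + 3 * E))) =
      ((Q - 1) ^ T * Q ^ (5 * T) * (∑ j : Fin 3, Q⁻¹ ^ (j : ℕ)) ^ T) * (Q ^ 2)⁻¹ ^ E := by
    intro e he
    rw [Finset.Nat.mem_antidiagonalTuple] at he
    rw [map_sum]
    have h2 : ∀ i : Fin T → Fin 3, c ((qpow (ZMod 2) (rr T) (rr T) - 1) ^ T *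
        qpow (ZMod 2) (rr T) ((rr T : ℤ) * (∑ b, (5 - 5 * (e b : ℤ) - ((i b : ℕ) : ℤ)) + 3 * E))) =
        (Q - 1) ^ T * Q ^ (5 * T) * (Q ^ 2)⁻¹ ^ E * ∏ b, Q⁻¹ ^ (i b : ℕ) := by
      intro i
      rw [map_mul, map_pow, map_sub, map_one, hr1, hr]
      have h3 : (∑ b, (5 - 5 * (e b : ℤ) - ((i b : ℕ) : ℤ)) + 3 * (E : ℤ)) =
          ((5 * T : ℕ) : ℤ) + (-((2 * E : ℕ) : ℤ) + -((∑ b, (i b : ℕ) : ℕ) : ℤ)) := by
        rw [Finset.sum_sub_distrib, Finset.sum_sub_distrib, ← Finset.mul_sum]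
        have h4 : (∑ b, (e b : ℤ)) = E := by exact_mod_cast he
        rw [h4]
        simp
        ring
      rw [h3, zpow_add₀ hQ0.ne', zpow_add₀ hQ0.ne', zpow_natCast, zpow_neg, zpow_natCast, zpow_neg,
        zpow_natCast, Finset.prod_pow_eq_pow_sum, inv_pow, inv_pow, ← pow_mul]
      ring
    rw [Finset.sum_congr rfl (fun i _ => h2 i), ← Finset.mul_sum,
      Fintype.sum_pow (fun j : Fin 3 => Q⁻¹ ^ (j : ℕ)) T]
    ring
  rw [Finset.sum_congr rfl h1, Finset.sum_const, numv_const, nsmul_eq_mul]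
  ring

/-- NUMU: the value of the series -/
theorem numu_AA {T t : ℕ} {Q : ℝ} (hQ : Q = (2 : ℝ) ^ (rr T * t)) (hQ1 : 1 < Q) :
    AA (rr T) T t = ((Q - 1) ^ T * Q ^ (5 * T) * (∑ j : Fin 3, Q⁻¹ ^ (j : ℕ)) ^ T) *
      ∏ _l : Fin T, (1 - (Q ^ 2)⁻¹)⁻¹ := by
  unfold AA
  rw [← hQ, Finset.prod_const, Finset.card_univ, Fintype.card_fin, pow_mul, ← mul_pow, ← mul_pow,
    ← mul_pow]
  congr 1
  have h0 : Q ≠ 0 := by linarith
  have h1 : Q + 1 ≠ 0 := by linarith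
  have h2 : Q - 1 ≠ 0 := by linarith
  have h3 : 1 - (Q ^ 2)⁻¹ = (Q - 1) * (Q + 1) / Q ^ 2 := by
    field_simp
    ring
  rw [h3, Fin.sum_univ_three]
  simp only [Fin.val_zero, Fin.val_one, Fin.val_two, pow_zero, pow_one]
  field_simp

theorem num_u (β : Prop) (T : ℕ) (hT : 0 < T) (m : ℕ) : ∃ M₀ : ℕ, ∀ M ≥ M₀, ∃ C : ℝ, ∀ t > 0, ∀ c,
    IsPC (rr T) t c →
      |∑ E ∈ Finset.range M, c (uE β T E) - AA (rr T) T t| ≤ C * (1 / 2) ^ (t * m) := by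
  refine ⟨3 * T + m, fun M hM => ⟨3 ^ T * numv_C T M (1 / 4), fun t ht c hc => ?_⟩⟩
  have hrr : 1 ≤ rr T := Nat.card_pos
  set Q : ℝ := (2 : ℝ) ^ (rr T * t) with hQ
  have hQt : (2 : ℝ) ^ t ≤ Q := pow_le_pow_right₀ (by norm_num) (Nat.le_mul_of_pos_left t hrr)
  have hQ2 : (2 : ℝ) ≤ Q := by
    calc (2 : ℝ) = 2 ^ 1 := by norm_num
      _ ≤ 2 ^ t := pow_le_pow_right₀ (by norm_num) ht
      _ ≤ Q := hQt
  have hQ0 : 0 < Q := by linarith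
  set K : ℝ := (Q - 1) ^ T * Q ^ (5 * T) * (∑ j : Fin 3, Q⁻¹ ^ (j : ℕ)) ^ T with hK
  rw [Finset.sum_congr rfl (fun E _ => numu_term hc hQ E), numu_AA hQ (by linarith), ← hK,
    ← Finset.mul_sum, ← mul_sub, abs_mul]
  have htail := numv_tail T M (fun _ => (Q ^ 2)⁻¹) (z := (Q ^ 2)⁻¹) (z0 := 1 / 4)
    (fun _ => by positivity) (fun _ => le_rfl) (by positivity) (by
      rw [one_div]
      refine inv_anti₀ (by norm_num) ?_
      nlinarith) (by norm_num) (by norm_num)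
  have hsum3 : ∑ j : Fin 3, Q⁻¹ ^ (j : ℕ) ≤ 3 := by
    have hinv : Q⁻¹ ≤ 1 := inv_le_one_of_one_le₀ (by linarith)
    have hinv0 : 0 ≤ Q⁻¹ := by positivity
    calc ∑ j : Fin 3, Q⁻¹ ^ (j : ℕ) ≤ ∑ _j : Fin 3, (1 : ℝ) :=
          Finset.sum_le_sum (fun j _ => pow_le_one₀ hinv0 hinv)
      _ = 3 := by simp
  have hsum0 : 0 ≤ ∑ j : Fin 3, Q⁻¹ ^ (j : ℕ) := Finset.sum_nonneg (fun j _ => by positivity)
  have hKle : |K| ≤ Q ^ T * Q ^ (5 * T) * 3 ^ T := by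
    have hK0 : 0 ≤ K := by
      rw [hK]
      have : 0 ≤ Q - 1 := by linarith
      positivity
    rw [abs_of_nonneg hK0, hK]
    have h1 : (Q - 1) ^ T ≤ Q ^ T := pow_le_pow_left₀ (by linarith) (by linarith) T
    have h2 : (∑ j : Fin 3, Q⁻¹ ^ (j : ℕ)) ^ T ≤ 3 ^ T := pow_le_pow_left₀ hsum0 hsum3 T
    gcongr
  have hC := numv_C_nonneg T M (z := 1 / 4) (by norm_num)
  calc |K| * |∑ N ∈ Finset.range M, numv_W T (fun _ => (Q ^ 2)⁻¹) N - ∏ _l : Fin T, (1 - (Q ^ 2)⁻¹)⁻¹|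
      ≤ (Q ^ T * Q ^ (5 * T) * 3 ^ T) * (numv_C T M (1 / 4) * (Q ^ 2)⁻¹ ^ M) := by gcongr
    _ = (3 ^ T * numv_C T M (1 / 4)) * (Q ^ (6 * T) * (Q ^ 2)⁻¹ ^ M) := by
        rw [show 6 * T = T + 5 * T by ring, pow_add]
        ring
    _ ≤ (3 ^ T * numv_C T M (1 / 4)) * (1 / 2) ^ (t * m) := by
        refine mul_le_mul_of_nonneg_left ?_ (by positivity)
        have e1 : (Q ^ 2)⁻¹ ^ M = (Q ^ (2 * M))⁻¹ := by rw [inv_pow, pow_mul]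
        have e2 : (1 / 2 : ℝ) ^ (t * m) = (2 ^ (t * m))⁻¹ := by rw [one_div, inv_pow]
        rw [e1, e2, ← div_eq_mul_inv, div_le_iff₀ (by positivity),
          ← div_eq_inv_mul, le_div_iff₀ (by positivity)]
        calc Q ^ (6 * T) * 2 ^ (t * m) ≤ Q ^ (6 * T) * Q ^ m := by
              rw [pow_mul 2 t m]
              gcongr
          _ = Q ^ (6 * T + m) := by rw [pow_add]
          _ ≤ Q ^ (2 * M) := pow_le_pow_right₀ (by linarith) (by omega)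

end H48SM
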