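import Pool.Agent.H48.SM.Data

/-! # Module NUMV: the series of the fractions, in numbers

`c` is the realisation for the field with `2^(r t)` elements, `c (qpow j) = (2^t)^j` (from `IsPC.q` and `qq * qqi = 1`, relation `inv`
of `Rel`; prove it here, `zpow`).
Proof of `num_v`: `y_l = 2^{-t a_l} ≤ 2^{-t} ≤ 1/2` (`a_l ≥ 1`); `∑_N ∑_{|m|=N} ∏_l y_l^{m_l+1} = ∏_l y_l/(1-y_l) =
∏_l 1/(2^{t a_l} - 1)` (a product of `s` geometric series; `Finset.Nat.antidiagonalTuple` sums; induction on `s` with Cauchy products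
(`tsum_mul_tsum_eq_tsum_sum_antidiagonal...`), or summation over `Fin s → ℕ` (`prod_univ_tsum`-like) fibered over `∑ m`).
The tail over `|m| ≥ M` is at most `∑_{N ≥ M} #antidiagonalTuple s N * (2^{-t})^{N} ≤ (2^{-t})^M * C_M` with
`C_M = ∑_j #antidiagonalTuple s (M+j) (1/2)^j` (`# ≤ (N+1)^s`); and `|c ξ_i| ≤ C₀ 2^(t J)` is given by `hξ`.  So `M₀ = J + m`,
`C = n C₀ C_M`.
-/

set_option autoImplicit false

namespace H48SM

/-- NUMV: weighted sum over the tuples of sum `N` -/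
noncomputable def numv_W (s : ℕ) (y : Fin s → ℝ) (N : ℕ) : ℝ :=
  ∑ m ∈ Finset.Nat.antidiagonalTuple s N, ∏ l, y l ^ m l

theorem numv_succ (s N : ℕ) (y : Fin (s + 1) → ℝ) :
    numv_W (s + 1) y N =
      ∑ p ∈ Finset.HasAntidiagonal.antidiagonal N, y 0 ^ p.1 * numv_W s (fun l => y l.succ) p.2 := by
  unfold numv_W
  simp only [Finset.mul_sum]
  rw [Finset.sum_sigma']
  refine Finset.sum_nbij' (fun m => ⟨(m 0, ∑ l : Fin s, m l.succ), Fin.tail m⟩)
    (fun x => Fin.cons x.1.1 x.2) ?_ ?_ ?_ ?_ ?_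
  · intro m hm
    rw [Finset.Nat.mem_antidiagonalTuple, Fin.sum_univ_succ] at hm
    rw [Finset.mem_sigma, Finset.HasAntidiagonal.mem_antidiagonal, Finset.Nat.mem_antidiagonalTuple]
    exact ⟨hm, rfl⟩
  · intro x hx
    rw [Finset.mem_sigma, Finset.HasAntidiagonal.mem_antidiagonal, Finset.Nat.mem_antidiagonalTuple] at hx
    rw [Finset.Nat.mem_antidiagonalTuple, Fin.sum_univ_succ]
    simp only [Fin.cons_zero, Fin.cons_succ]
    rw [hx.2]
    exact hx.1
  · intro m _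
    exact Fin.cons_self_tail m
  · rintro ⟨⟨a, b⟩, x⟩ hx
    rw [Finset.mem_sigma, Finset.HasAntidiagonal.mem_antidiagonal, Finset.Nat.mem_antidiagonalTuple] at hx
    simp only at hx
    simp only [Fin.cons_zero, Fin.cons_succ, Fin.tail_cons, hx.2]
  · intro m _
    rw [Fin.prod_univ_succ]
    rfl

theorem numv_nonneg (s : ℕ) (y : Fin s → ℝ) (h0 : ∀ l, 0 ≤ y l) (N : ℕ) : 0 ≤ numv_W s y N :=
  Finset.sum_nonneg (fun m _ => Finset.prod_nonneg (fun l _ => pow_nonneg (h0 l) _))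

theorem numv_sum (s : ℕ) : ∀ y : Fin s → ℝ, (∀ l, 0 ≤ y l) → (∀ l, y l < 1) →
    Summable (numv_W s y) ∧ ∑' N, numv_W s y N = ∏ l, (1 - y l)⁻¹ := by
  induction s with
  | zero =>
    intro y _ _
    have h : ∀ N, N ≠ 0 → numv_W 0 y N = 0 := by
      intro N hN
      obtain ⟨n, rfl⟩ := Nat.exists_eq_succ_of_ne_zero hN
      unfold numv_W
      rw [Finset.Nat.antidiagonalTuple_zero_succ, Finset.sum_empty]
    have h0 : numv_W 0 y 0 = 1 := by
      unfold numv_W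
      rw [Finset.Nat.antidiagonalTuple_zero_zero, Finset.sum_singleton]
      simp
    have hs := hasSum_single (f := numv_W 0 y) 0 h
    rw [h0] at hs
    refine ⟨hs.summable, ?_⟩
    rw [hs.tsum_eq]
    simp
  | succ s ih =>
    intro y h0 h1
    obtain ⟨hs, ht⟩ := ih (fun l => y l.succ) (fun l => h0 _) (fun l => h1 _)
    have hf : Summable (fun n : ℕ => ‖y 0 ^ n‖) := by
      have := summable_geometric_of_lt_one (h0 0) (h1 0)
      refine this.congr (fun n => ?_)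
      rw [Real.norm_eq_abs, abs_of_nonneg (pow_nonneg (h0 0) _)]
    have hg : Summable (fun n : ℕ => ‖numv_W s (fun l => y l.succ) n‖) := by
      refine hs.congr (fun n => ?_)
      rw [Real.norm_eq_abs, abs_of_nonneg (numv_nonneg _ _ (fun l => h0 _) _)]
    have e : numv_W (s + 1) y = fun N => ∑ p ∈ Finset.HasAntidiagonal.antidiagonal N,
        y 0 ^ p.1 * numv_W s (fun l => y l.succ) p.2 := by
      funext N
      exact numv_succ s N y
    rw [e]
    refine ⟨(summable_norm_sum_mul_antidiagonal_of_summable_norm hf hg).of_norm, ?_⟩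
    rw [← tsum_mul_tsum_eq_tsum_sum_antidiagonal_of_summable_norm hf hg, ht,
      tsum_geometric_of_lt_one (h0 0) (h1 0), Fin.prod_univ_succ]

/-- NUMV: the constant in the estimate of the tail -/
noncomputable def numv_C (s M : ℕ) (z : ℝ) : ℝ :=
  ∑' j : ℕ, ((Finset.Nat.antidiagonalTuple s (j + M)).card : ℝ) * z ^ j

theorem numv_const (s : ℕ) (z : ℝ) (N : ℕ) :
    numv_W s (fun _ => z) N = ((Finset.Nat.antidiagonalTuple s N).card : ℝ) * z ^ N := by
  unfold numv_W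
  rw [Finset.sum_congr rfl (g := fun _ => z ^ N) (fun m hm => by
    rw [Finset.prod_pow_eq_pow_sum, Finset.Nat.mem_antidiagonalTuple.1 hm])]
  rw [Finset.sum_const, nsmul_eq_mul]

theorem numv_summ (s M : ℕ) {z : ℝ} (h0 : 0 < z) (h1 : z < 1) :
    Summable (fun j : ℕ => ((Finset.Nat.antidiagonalTuple s (j + M)).card : ℝ) * z ^ j) := by
  have h := (numv_sum s (fun _ => z) (fun _ => h0.le) (fun _ => h1)).1
  have h2 := ((summable_nat_add_iff M).2 h).mul_right (z ^ M)⁻¹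
  refine h2.congr (fun j => ?_)
  rw [numv_const, pow_add]
  have : z ^ M ≠ 0 := (pow_pos h0 M).ne'
  field_simp

theorem numv_tail (s M : ℕ) (y : Fin s → ℝ) {z z0 : ℝ} (h0 : ∀ l, 0 ≤ y l) (hz : ∀ l, y l ≤ z)
    (hz0 : 0 ≤ z) (hzz : z ≤ z0) (hz0p : 0 < z0) (hz1 : z0 < 1) :
    |∑ N ∈ Finset.range M, numv_W s y N - ∏ l, (1 - y l)⁻¹| ≤ numv_C s M z0 * z ^ M := by
  obtain ⟨hs, ht⟩ := numv_sum s y h0 (fun l => (hz l).trans_lt (hzz.trans_lt hz1))
  rw [← ht, ← hs.sum_add_tsum_nat_add M]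
  have e : ∑ N ∈ Finset.range M, numv_W s y N -
      (∑ N ∈ Finset.range M, numv_W s y N + ∑' j, numv_W s y (j + M)) =
      -∑' j, numv_W s y (j + M) := by ring
  rw [e, abs_neg, abs_of_nonneg (tsum_nonneg (fun j => numv_nonneg s y h0 _))]
  unfold numv_C
  rw [← tsum_mul_right]
  refine ((summable_nat_add_iff M).2 hs).tsum_le_tsum (fun j => ?_)
    ((numv_summ s M hz0p hz1).mul_right _)
  calc numv_W s y (j + M) ≤ numv_W s (fun _ => z) (j + M) := by
        unfold numv_W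
        refine Finset.sum_le_sum (fun m _ => Finset.prod_le_prod (fun l _ => pow_nonneg (h0 l) _)
          (fun l _ => pow_le_pow_left₀ (h0 l) (hz l) _))
    _ = ((Finset.Nat.antidiagonalTuple s (j + M)).card : ℝ) * (z ^ j * z ^ M) := by
        rw [numv_const, pow_add]
    _ ≤ ((Finset.Nat.antidiagonalTuple s (j + M)).card : ℝ) * (z0 ^ j * z ^ M) := by
        gcongr
    _ = ((Finset.Nat.antidiagonalTuple s (j + M)).card : ℝ) * z0 ^ j * z ^ M := by ring

theorem numv_C_nonneg (s M : ℕ) {z : ℝ} (h0 : 0 ≤ z) : 0 ≤ numv_C s M z :=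
  tsum_nonneg (fun _ => by positivity)

/-- NUMV: the realisation of `q⁻¹` -/
theorem numv_qi {β : Prop} {r t : ℕ} {c : Mot (ZMod 2) r β →+* ℝ} (hc : IsPC r t c) :
    c (qqi (ZMod 2) r) = ((2 : ℝ) ^ t)⁻¹ := by
  have h1 : (qq (ZMod 2) r : Mot (ZMod 2) r β) * qqi (ZMod 2) r = 1 := by
    have h2 := RingQuot.mkRingHom_rel (Rel.inv (k := ZMod 2) (r := r) (β := β))
    rw [map_mul, map_one] at h2
    exact h2
  have h3 := congrArg c h1
  rw [map_mul, map_one, hc.q] at h3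
  exact eq_inv_of_mul_eq_one_right h3

/-- NUMV: the realisation of the powers of `q` -/
theorem numv_qpow {β : Prop} {r t : ℕ} {c : Mot (ZMod 2) r β →+* ℝ} (hc : IsPC r t c) (j : ℤ) :
    c (qpow (ZMod 2) r j) = ((2 : ℝ) ^ t) ^ j := by
  unfold qpow
  rw [map_mul, map_pow, map_pow, hc.q, numv_qi hc]
  rcases le_total 0 j with h | h
  · obtain ⟨n, rfl⟩ := Int.eq_ofNat_of_zero_le h
    simp
  · obtain ⟨n, hn⟩ := Int.eq_ofNat_of_zero_le (Int.neg_nonneg_of_nonpos h)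
    have hj : j = -(n : ℤ) := by omega
    subst hj
    simp

theorem num_v {β : Prop} {r : ℕ} (hr : 0 < r) (s n : ℕ) (ξ : Fin n → Mot (ZMod 2) r β)
    (a : Fin n → Fin s → ℕ)
    (ha : ∀ i l, 0 < a i l) (J : ℕ) (C₀ : ℝ)
    (hξ : ∀ i, ∀ t > 0, ∀ c, IsPC r t c → |c (ξ i)| ≤ C₀ * 2 ^ (t * J)) (m : ℕ) :
    ∃ M₀ : ℕ, ∀ M ≥ M₀, ∃ C : ℝ, ∀ t > 0, ∀ c, IsPC r t c →
      |∑ N ∈ Finset.range M, c (fracSum s n ξ a N) -
        ∑ i, c (ξ i) * ∏ l, (1 / ((2 : ℝ) ^ (t * a i l) - 1))| ≤ C * (1 / 2) ^ (t * m) := by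
  refine ⟨J + m, fun M hM => ⟨n * (|C₀| * numv_C s M (1 / 2)), fun t ht c hc => ?_⟩⟩
  have hx : (1 : ℝ) < 2 ^ t := one_lt_pow₀ (by norm_num) (by omega)
  have hx0 : (0 : ℝ) < 2 ^ t := by positivity
  -- the value of a term
  have hterm : ∀ i N, c (∑ m ∈ Finset.Nat.antidiagonalTuple s N,
      ∏ l, qpow (ZMod 2) r (-((a i l : ℤ) * (m l + 1)))) =
      (∏ l, ((2 : ℝ) ^ (t * a i l))⁻¹) * numv_W s (fun l => ((2 : ℝ) ^ (t * a i l))⁻¹) N := by
    intro i N
    unfold numv_W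
    rw [map_sum, Finset.mul_sum]
    refine Finset.sum_congr rfl (fun m _ => ?_)
    rw [map_prod, ← Finset.prod_mul_distrib]
    refine Finset.prod_congr rfl (fun l _ => ?_)
    rw [numv_qpow hc, zpow_neg, ← inv_zpow, mul_add, mul_one, zpow_add₀ (by positivity)]
    have e1 : (((2 : ℝ) ^ t)⁻¹) ^ ((a i l : ℤ) * (m l : ℤ)) = (((2 : ℝ) ^ (t * a i l))⁻¹) ^ m l := by
      rw [← Nat.cast_mul, zpow_natCast, pow_mul, inv_pow, ← pow_mul]
    have e2 : (((2 : ℝ) ^ t)⁻¹) ^ (a i l : ℤ) = ((2 : ℝ) ^ (t * a i l))⁻¹ := by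
      rw [zpow_natCast, inv_pow, ← pow_mul]
    rw [e1, e2, mul_comm]
  have hsum : ∑ N ∈ Finset.range M, c (fracSum s n ξ a N) =
      ∑ i, c (ξ i) * ((∏ l, ((2 : ℝ) ^ (t * a i l))⁻¹) *
        ∑ N ∈ Finset.range M, numv_W s (fun l => ((2 : ℝ) ^ (t * a i l))⁻¹) N) := by
    unfold fracSum
    simp only [map_sum c, map_mul]
    rw [Finset.sum_comm]
    refine Finset.sum_congr rfl (fun i _ => ?_)
    rw [Finset.mul_sum, Finset.mul_sum]
    refine Finset.sum_congr rfl (fun N _ => ?_)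
    rw [← hterm i N, map_sum]
  have hy1 : ∀ i l, (1 : ℝ) < 2 ^ (t * a i l) := fun i l =>
    one_lt_pow₀ (by norm_num) (Nat.mul_pos ht (ha i l)).ne'
  have hprod : ∀ i, ∏ l, (1 / ((2 : ℝ) ^ (t * a i l) - 1)) =
      (∏ l, ((2 : ℝ) ^ (t * a i l))⁻¹) * ∏ l, (1 - ((2 : ℝ) ^ (t * a i l))⁻¹)⁻¹ := by
    intro i
    rw [← Finset.prod_mul_distrib]
    refine Finset.prod_congr rfl (fun l _ => ?_)
    have h1 := hy1 i l
    have h2 : (2 : ℝ) ^ (t * a i l) - 1 ≠ 0 := by linarith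
    have h3 : (2 : ℝ) ^ (t * a i l) ≠ 0 := by positivity
    field_simp
  rw [hsum, ← Finset.sum_sub_distrib]
  refine (Finset.abs_sum_le_sum_abs _ _).trans ?_
  have hone : ∀ i : Fin n, |c (ξ i) * ((∏ l, ((2 : ℝ) ^ (t * a i l))⁻¹) *
        ∑ N ∈ Finset.range M, numv_W s (fun l => ((2 : ℝ) ^ (t * a i l))⁻¹) N) -
        c (ξ i) * ∏ l, (1 / ((2 : ℝ) ^ (t * a i l) - 1))| ≤
      (|C₀| * numv_C s M (1 / 2)) * (1 / 2) ^ (t * m) := by
    intro i
    rw [hprod i, ← mul_sub, ← mul_sub, abs_mul, abs_mul]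
    have h1 : |∏ l, ((2 : ℝ) ^ (t * a i l))⁻¹| ≤ 1 := by
      rw [abs_of_nonneg (Finset.prod_nonneg (fun l _ => by positivity))]
      exact Finset.prod_le_one (fun l _ => by positivity) (fun l _ => inv_le_one_of_one_le₀ (hy1 i l).le)
    have h2 := numv_tail s M (fun l => ((2 : ℝ) ^ (t * a i l))⁻¹) (z := ((2 : ℝ) ^ t)⁻¹) (z0 := 1 / 2)
      (fun l => by positivity) (fun l => by
        refine inv_anti₀ hx0 (pow_le_pow_right₀ (by norm_num) ?_)
        exact Nat.le_mul_of_pos_right t (ha i l)) (by positivity) (by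
        rw [one_div]
        refine inv_anti₀ (by norm_num) ?_
        calc (2 : ℝ) = 2 ^ 1 := by norm_num
          _ ≤ 2 ^ t := pow_le_pow_right₀ (by norm_num) ht) (by norm_num) (by norm_num)
    have h3 := hξ i t ht c hc
    have hC := numv_C_nonneg s M (z := 1 / 2) (by norm_num)
    calc |c (ξ i)| * (|∏ l, ((2 : ℝ) ^ (t * a i l))⁻¹| *
          |∑ N ∈ Finset.range M, numv_W s (fun l => ((2 : ℝ) ^ (t * a i l))⁻¹) N -
            ∏ l, (1 - ((2 : ℝ) ^ (t * a i l))⁻¹)⁻¹|)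
        ≤ (|C₀| * 2 ^ (t * J)) * (1 * (numv_C s M (1 / 2) * ((2 : ℝ) ^ t)⁻¹ ^ M)) := by
          have h4 : |c (ξ i)| ≤ |C₀| * 2 ^ (t * J) :=
            h3.trans (mul_le_mul_of_nonneg_right (le_abs_self _) (by positivity))
          gcongr
      _ = (|C₀| * numv_C s M (1 / 2)) * (2 ^ (t * J) * ((2 : ℝ) ^ t)⁻¹ ^ M) := by ring
      _ ≤ (|C₀| * numv_C s M (1 / 2)) * (1 / 2) ^ (t * m) := by
          refine mul_le_mul_of_nonneg_left ?_ (by positivity)
          rw [inv_pow, ← pow_mul, ← div_eq_mul_inv, div_le_iff₀ (by positivity), one_div, inv_pow,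
            ← div_eq_inv_mul, le_div_iff₀ (by positivity), ← pow_add]
          refine pow_le_pow_right₀ (by norm_num) ?_
          calc t * J + t * m = t * (J + m) := by ring
            _ ≤ t * M := Nat.mul_le_mul_left t hM
  refine (Finset.sum_le_sum (fun i _ => hone i)).trans (le_of_eq ?_)
  rw [Finset.sum_const, Finset.card_univ, Fintype.card_fin, nsmul_eq_mul]
  ring

end H48SM
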