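import Pool.Agent.H48.SM.Ex

/-! # Module RNK: order of the group, no pseudo-reflections

Proofs.
`card_GB`: `gm` is injective (entry `((b,0,0),(b,1,0))` of `gm S` is `S b`), so `GB T` is in bijection
with `Fin T → ZMod 2`.
`rank_GB`: `g = gm S`, `g - 1 = nil S`.  If `S = 0` the rank is `0`.  If `S b ≠ 0` (so `S b = 1`) the
columns `(b,1,0)`, `(b,1,1)` of `nil S` are linearly independent, hence the rank is at least 2.
-/

set_option autoImplicit false

namespace H48SM

theorem rnk_nil {T : ℕ} (S : Fin T → ZMod 2) (b : Fin T) (j l : Fin 3) :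
    nil S (b, 0, j) (b, 1, l) = if j = l then S b else 0 := by
  by_cases h : j = l
  · subst h
    simp [nil]
  · simp [nil, h]

theorem rnk_gm_injective (T : ℕ) : Function.Injective (gm : (Fin T → ZMod 2) → _) := by
  intro S S' h
  have h1 : (gm S).val = (gm S').val := by rw [h]
  have h2 : nil S = nil S' := add_left_cancel (a := (1 : Matrix (Cx T) (Cx T) (ZMod 2))) h1
  funext b
  have h3 := congrFun (congrFun h2 (b, 0, 0)) (b, 1, 0)
  rw [rnk_nil, rnk_nil, if_pos rfl, if_pos rfl] at h3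
  exact h3

theorem card_GB (T : ℕ) : Nat.card (GB T) = 2 ^ T := by
  have h1 : Nat.card (GB T) = Nat.card (Set.range (gm : (Fin T → ZMod 2) → _)) := rfl
  rw [h1, Nat.card_range_of_injective (rnk_gm_injective T), Nat.card_fun]
  simp

theorem rank_GB (T : ℕ) : ∀ g ∈ GB T, (g.val - 1).rank ≠ 1 := by
  rintro _ ⟨S, rfl⟩ h
  have h1 : ((gm S).val - 1 : Matrix (Cx T) (Cx T) (ZMod 2)) = nil S :=
    add_sub_cancel_left (1 : Matrix (Cx T) (Cx T) (ZMod 2)) (nil S)
  rw [h1] at h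
  have h0 : S ≠ 0 := by
    rintro rfl
    rw [nil_zero, Matrix.rank_zero] at h
    exact zero_ne_one h
  obtain ⟨b, hb⟩ := Function.ne_iff.1 h0
  have hb : S b ≠ 0 := hb
  rw [Matrix.rank_eq_finrank_span_cols] at h
  obtain ⟨v, -, hv⟩ := finrank_eq_one_iff'.1 h
  have hcol : ∀ l : Fin 3, ∃ c : ZMod 2, ∀ p, c * (v : Cx T → ZMod 2) p = nil S p (b, 1, l) := by
    intro l
    obtain ⟨c, hc⟩ := hv ⟨(nil S).transpose (b, 1, l), Submodule.subset_span ⟨(b, 1, l), rfl⟩⟩
    refine ⟨c, fun p => ?_⟩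
    exact congrFun (congrArg Subtype.val hc) p
  obtain ⟨c, hc⟩ := hcol 0
  obtain ⟨c', hc'⟩ := hcol 1
  have e1 := hc (b, 0, 0)
  have e2 := hc' (b, 0, 0)
  have e3 := hc' (b, 0, 1)
  rw [rnk_nil, if_pos rfl] at e1 e3
  rw [rnk_nil, if_neg (by decide)] at e2
  rcases mul_eq_zero.1 e2 with h4 | h4
  · rw [h4, zero_mul] at e3
    exact hb e3.symm
  · rw [h4, mul_zero] at e1
    exact hb e1.symm

end H48SM
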