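import Pool.Agent.H48.SM.Data

/-! # Module VALI: equality for large `t`

`Q = 2^(r t)`, `AA r T t = (Q^5 (Q^2+Q+1) / (Q+1))^T`, `V t = ∑ i, x t i * ∏ l, 1 / (2^(t a_il) - 1)`.
Proof: let `D t = 2^(t J) * (Q+1)^T * ∏ i, ∏ l, (2^(t a_il) - 1)`, a positive integer for `t > 0`.  `D t * (AA - V t)` is an integer
(`D t * AA = 2^(t J) (Q^5 (Q^2+Q+1))^T ∏∏`, `D t * x t i * ∏_l 1/(..) = (x t i 2^(t J)) (Q+1)^T ∏_{i' ≠ i} ∏_l (..)`), and
`D t ≤ 2^(t K)` with `K = J + (r+1) T + ∑ i, ∑ l, a i l`, so its absolute value is at most `2^(t K) * C_m * (1/2)^(t m)`; take `m = K + 1`: it is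
`≤ C (1/2)^t < 1` for large `t`, hence `0`, and `D t ≠ 0`.
-/

set_option autoImplicit false

namespace H48SM

/-- the integers in `ℝ` -/
def VALI_Z : Subring ℝ := (Int.castRingHom ℝ).range

theorem VALI_mem (z : ℤ) : (z : ℝ) ∈ VALI_Z := ⟨z, rfl⟩

theorem VALI_two : (2 : ℝ) ∈ VALI_Z := ⟨2, by simp⟩

theorem VALI_zero {y : ℝ} (hy : y ∈ VALI_Z) (h : |y| < 1) : y = 0 := by
  obtain ⟨z, rfl⟩ := hy
  have h1 : |(z : ℝ)| < 1 := h
  have h2 : |z| < 1 := by exact_mod_cast h1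
  have h3 : z = 0 := Int.abs_lt_one_iff.1 h2
  rw [h3]
  simp

theorem VALI_one_le {ι : Type} (s : Finset ι) (f : ι → ℝ) (hf : ∀ i, 1 ≤ f i) :
    1 ≤ ∏ i ∈ s, f i :=
  Finset.prod_induction f (fun x => (1 : ℝ) ≤ x)
    (fun _ _ ha hb => one_le_mul_of_one_le_of_one_le ha hb) le_rfl (fun i _ => hf i)

theorem VALI_fac {t a : ℕ} (ht : 0 < t) (ha : 0 < a) : (1 : ℝ) ≤ 2 ^ (t * a) - 1 := by
  have h1 : (2 : ℝ) ^ 1 ≤ 2 ^ (t * a) :=
    pow_le_pow_right₀ (by norm_num) (Nat.succ_le_of_lt (Nat.mul_pos ht ha))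
  linarith

theorem num_int (T s n r J : ℕ) (x : ℕ → Fin n → ℝ) (a : Fin n → Fin s → ℕ)
    (ha : ∀ i l, 0 < a i l) (hz : ∀ t > 0, ∀ i, ∃ z : ℤ, x t i * 2 ^ (t * J) = z)
    (h : ∀ m : ℕ, ∃ C : ℝ, ∀ t > 0,
      |AA r T t - ∑ i, x t i * ∏ l, (1 / ((2 : ℝ) ^ (t * a i l) - 1))| ≤ C * (1 / 2) ^ (t * m)) :
    ∃ t₀ : ℕ, ∀ t ≥ t₀, AA r T t = ∑ i, x t i * ∏ l, (1 / ((2 : ℝ) ^ (t * a i l) - 1)) := by
  classical
  set K : ℕ := J + (r + 1) * T + ∑ i, ∑ l, a i l with hK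
  obtain ⟨C, hC⟩ := h (K + 1)
  obtain ⟨t₀, ht₀⟩ := pow_unbounded_of_one_lt C (show (1 : ℝ) < 2 by norm_num)
  refine ⟨t₀ + 1, fun t ht => ?_⟩
  have ht0 : 0 < t := by omega
  set P : Fin n → ℝ := fun i => ∏ l, ((2 : ℝ) ^ (t * a i l) - 1) with hP
  have hP1 : ∀ i, 1 ≤ P i := fun i => VALI_one_le _ _ fun l => VALI_fac ht0 (ha i l)
  have hP0 : ∀ i, P i ≠ 0 := fun i => by have := hP1 i; positivity
  have hPZ : ∀ i, P i ∈ VALI_Z := fun i =>
    prod_mem fun l _ => sub_mem (pow_mem VALI_two _) (one_mem _)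
  set Q : ℝ := 2 ^ (r * t) with hQ
  have hQ1 : 1 ≤ Q := one_le_pow₀ (by norm_num)
  have hQZ : Q ∈ VALI_Z := pow_mem VALI_two _
  set D : ℝ := 2 ^ (t * J) * (Q + 1) ^ T * ∏ i, P i with hD
  have hprod1 : 1 ≤ ∏ i, P i := VALI_one_le _ _ hP1
  have hD0 : 0 < D := by positivity
  -- integrality
  have hint : D * (AA r T t - ∑ i, x t i * ∏ l, (1 / ((2 : ℝ) ^ (t * a i l) - 1))) ∈ VALI_Z := by
    rw [mul_sub]
    refine sub_mem ?_ ?_
    · have e1 : D * AA r T t = 2 ^ (t * J) * (Q ^ 5 * (Q ^ 2 + Q + 1)) ^ T * ∏ i, P i := by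
        rw [AA, ← hQ, div_pow, hD]
        have : (Q + 1) ^ T ≠ 0 := by positivity
        field_simp
      rw [e1]
      exact mul_mem (mul_mem (pow_mem VALI_two _) (pow_mem (mul_mem (pow_mem hQZ _)
        (add_mem (add_mem (pow_mem hQZ _) hQZ) (one_mem _))) _)) (prod_mem fun i _ => hPZ i)
    · rw [Finset.mul_sum]
      refine sum_mem fun i _ => ?_
      obtain ⟨z, hzi⟩ := hz t ht0 i
      have e2 : ∏ l, (1 / ((2 : ℝ) ^ (t * a i l) - 1)) = (P i)⁻¹ := by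
        rw [hP, ← Finset.prod_inv_distrib]
        exact Finset.prod_congr rfl fun l _ => one_div _
      have e3 : ∏ i, P i = P i * ∏ j ∈ Finset.univ.erase i, P j :=
        (Finset.mul_prod_erase _ _ (Finset.mem_univ i)).symm
      have e4 : D * (x t i * (P i)⁻¹) =
          (x t i * 2 ^ (t * J)) * (Q + 1) ^ T * ∏ j ∈ Finset.univ.erase i, P j := by
        rw [hD, e3]
        have := hP0 i
        field_simp
      rw [e2, e4, hzi]
      exact mul_mem (mul_mem (VALI_mem z) (pow_mem (add_mem hQZ (one_mem _)) _))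
        (prod_mem fun j _ => hPZ j)
  -- size
  have hDK : D ≤ 2 ^ (t * K) := by
    have h1 : (Q + 1) ^ T ≤ 2 ^ (t * ((r + 1) * T)) := by
      have h2 : Q + 1 ≤ 2 ^ (t * (r + 1)) := by
        have h3 : (2 : ℝ) ^ (t * (r + 1)) = Q * 2 ^ t := by
          rw [hQ, ← pow_add]
          congr 1
          ring
        have h4 : (2 : ℝ) ^ 1 ≤ 2 ^ t := pow_le_pow_right₀ (by norm_num) ht0
        rw [h3]
        nlinarith
      calc (Q + 1) ^ T ≤ (2 ^ (t * (r + 1))) ^ T := pow_le_pow_left₀ (by positivity) h2 _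
        _ = 2 ^ (t * ((r + 1) * T)) := by rw [← pow_mul, mul_assoc]
    have h5 : ∏ i, P i ≤ 2 ^ (t * ∑ i, ∑ l, a i l) := by
      have h6 : ∀ i, P i ≤ 2 ^ (t * ∑ l, a i l) := by
        intro i
        have h7 : P i ≤ ∏ l, (2 : ℝ) ^ (t * a i l) := by
          refine Finset.prod_le_prod (fun l _ => ?_) (fun l _ => ?_)
          · have := VALI_fac ht0 (ha i l)
            linarith
          · linarith
        rw [Finset.prod_pow_eq_pow_sum, ← Finset.mul_sum] at h7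
        exact h7
      calc ∏ i, P i ≤ ∏ i, (2 : ℝ) ^ (t * ∑ l, a i l) := by
            refine Finset.prod_le_prod (fun i _ => ?_) (fun i _ => h6 i)
            have := hP1 i
            linarith
        _ = 2 ^ (t * ∑ i, ∑ l, a i l) := by
            rw [Finset.prod_pow_eq_pow_sum, ← Finset.mul_sum]
    have h8 : (2 : ℝ) ^ (t * K) =
        2 ^ (t * J) * 2 ^ (t * ((r + 1) * T)) * 2 ^ (t * ∑ i, ∑ l, a i l) := by
      rw [← pow_add, ← pow_add, hK]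
      congr 1
      ring
    rw [h8, hD]
    gcongr
  have hsmall : |D * (AA r T t - ∑ i, x t i * ∏ l, (1 / ((2 : ℝ) ^ (t * a i l) - 1)))| < 1 := by
    rw [abs_mul, abs_of_pos hD0]
    have h1 := hC t ht0
    have h2 : (2 : ℝ) ^ (t * K) * (C * (1 / 2) ^ (t * (K + 1))) = C / 2 ^ t := by
      have h3 : t * (K + 1) = t * K + t := by ring
      rw [h3, pow_add, one_div, inv_pow, inv_pow]
      field_simp
    have h4 : C < 2 ^ t := ht₀.trans_le (pow_le_pow_right₀ (by norm_num) (by omega))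
    calc D * |AA r T t - ∑ i, x t i * ∏ l, (1 / ((2 : ℝ) ^ (t * a i l) - 1))|
        ≤ 2 ^ (t * K) * (C * (1 / 2) ^ (t * (K + 1))) :=
          mul_le_mul hDK h1 (abs_nonneg _) (by positivity)
      _ = C / 2 ^ t := h2
      _ < 1 := by rw [div_lt_one (by positivity)]; exact h4
  have h0 := VALI_zero hint hsmall
  rcases mul_eq_zero.1 h0 with h1 | h1
  · exact absurd h1 hD0.ne'
  · linarith

end H48SM
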