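import Pool.Agent.H48.SM.Data

/-! # Module VALL: the arithmetic contradiction

`r = 2^T`, `Q = 2^(r t)`, `AA r T t = (Q^5 (Q^2+Q+1) / (Q+1))^T`, `V t = ∑ i, x t i * ∏ l, 1 / (2^(t a_il) - 1)`.
Proof: let `ℓ` be a prime factor of `2^r + 1` (odd).  For `t = ℓ^j` (odd): `v_ℓ(Q + 1) = v_ℓ(2^r + 1) + j` (LTE for `x^t + 1`, `t` odd:
`Nat.emultiplicity_pow_add_pow` / `padicValNat.pow_add_pow` or via `Q^2 - 1`), `Q^5 (Q^2+Q+1) ≡ -1` mod `ℓ` is prime to `ℓ`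
(`Q ≡ -1`).  So `v_ℓ (AA) = -T (j + v_ℓ(2^r+1))`.  On the other side `2^(t a) - 1` divides `(2^(2r))^(t a) - 1`, so
`v_ℓ(2^(t a) - 1) ≤ v_ℓ(2^(2r) - 1) + v_ℓ(t a) = v_ℓ(2^(2r) - 1) + j + v_ℓ(a)` (`padicValNat.pow_sub_pow`), `v_ℓ (x t i) ≥ 0` (or
`x t i = 0`) as `ℓ` is odd, hence `v_ℓ (V t) ≥ -(s j + C)`, `C` independent of `j`.  It is best to avoid valuations of sums:
`ℓ^(s j + C) * V t` times an integer prime to `ℓ` (`2^(t J) ∏∏ (prime to ℓ parts of 2^(t a_il) - 1)`) is an integer; so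
`(Q+1)^T` divides `ℓ^(s j + C) * (prime to ℓ)` and `ℓ^(T j)` divides `(Q+1)^T`; contradiction for `j > C` as `s < T`.
-/

set_option autoImplicit false

namespace H48SM

/-- the denominator of `y` is at most `ℓ^N` at the prime `ℓ` -/
def VLbd (p N : ℕ) (y : ℝ) : Prop :=
  ∃ W : ℕ, Nat.Coprime p W ∧ ∃ z : ℤ, (p : ℝ) ^ N * W * y = z

theorem VLbd.add {p N : ℕ} {y y' : ℝ} (h : VLbd p N y) (h' : VLbd p N y') : VLbd p N (y + y') := by
  obtain ⟨W, hW, z, hz⟩ := h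
  obtain ⟨W', hW', z', hz'⟩ := h'
  refine ⟨W * W', Nat.Coprime.mul_right hW hW', W' * z + W * z', ?_⟩
  push_cast
  rw [← hz, ← hz']
  ring

theorem VLbd.mul {p N M : ℕ} {y y' : ℝ} (h : VLbd p N y) (h' : VLbd p M y') :
    VLbd p (N + M) (y * y') := by
  obtain ⟨W, hW, z, hz⟩ := h
  obtain ⟨W', hW', z', hz'⟩ := h'
  refine ⟨W * W', Nat.Coprime.mul_right hW hW', z * z', ?_⟩
  push_cast
  rw [← hz, ← hz', pow_add]
  ring

theorem VLbd.zero (p N : ℕ) : VLbd p N 0 := ⟨1, Nat.coprime_one_right p, 0, by simp⟩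

theorem VLbd.sum {p N n : ℕ} (f : Fin n → ℝ) (h : ∀ i, VLbd p N (f i)) :
    VLbd p N (∑ i, f i) := by
  induction n with
  | zero => simpa using VLbd.zero p N
  | succ n ih =>
    rw [Fin.sum_univ_succ]
    exact (h 0).add (ih _ fun i => h i.succ)

theorem VLbd.prod {p N n : ℕ} (f : Fin n → ℝ) (h : ∀ i, VLbd p N (f i)) :
    VLbd p (n * N) (∏ i, f i) := by
  induction n with
  | zero =>
    refine ⟨1, Nat.coprime_one_right p, 1, by simp⟩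
  | succ n ih =>
    rw [Fin.prod_univ_succ]
    have := (h 0).mul (ih _ fun i => h i.succ)
    have e : N + n * N = (n + 1) * N := by ring
    rwa [e] at this

theorem VLbd.inv {p N D : ℕ} (hp : p.Prime) (hD : 0 < D) (hN : padicValNat p D ≤ N) :
    VLbd p N (1 / (D : ℝ)) := by
  obtain ⟨m, hm⟩ := (pow_padicValNat_dvd : p ^ padicValNat p D ∣ D)
  have hm0 : m ≠ 0 := by
    rintro rfl
    rw [Nat.mul_zero] at hm
    omega
  have hcop : Nat.Coprime p m := by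
    rw [Nat.Prime.coprime_iff_not_dvd hp]
    rintro ⟨m', rfl⟩
    have hd : p ^ (padicValNat p D + 1) ∣ D := ⟨m', by rw [pow_succ, mul_assoc]; exact hm⟩
    have := Fact.mk hp
    rw [padicValNat_dvd_iff_le hD.ne'] at hd
    omega
  refine ⟨m, hcop, (p : ℤ) ^ (N - padicValNat p D), ?_⟩
  have hp0 : (p : ℝ) ≠ 0 := by exact_mod_cast hp.ne_zero
  have hm0' : (m : ℝ) ≠ 0 := by exact_mod_cast hm0
  have hDr : (D : ℝ) = (p : ℝ) ^ padicValNat p D * m := by exact_mod_cast hm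
  rw [hDr]
  push_cast
  have e : (p : ℝ) ^ N = (p : ℝ) ^ (N - padicValNat p D) * (p : ℝ) ^ padicValNat p D := by
    rw [← pow_add]
    congr 1
    omega
  rw [e]
  field_simp

theorem num_val (T s n r J : ℕ) (hs : s < T) (hr : r = 2 ^ T) (x : ℕ → Fin n → ℝ)
    (a : Fin n → Fin s → ℕ) (ha : ∀ i l, 0 < a i l)
    (hz : ∀ t > 0, ∀ i, ∃ z : ℤ, x t i * 2 ^ (t * J) = z) (t₀ : ℕ)
    (h : ∀ t ≥ t₀, AA r T t = ∑ i, x t i * ∏ l, (1 / ((2 : ℝ) ^ (t * a i l) - 1))) : False := by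
  have hr0 : 0 < r := by rw [hr]; positivity
  obtain ⟨p, hp, hpd⟩ := Nat.exists_prime_and_dvd (n := 2 ^ r + 1) (by
    have : 0 < 2 ^ r := by positivity
    omega)
  have := Fact.mk hp
  have hp2 : p ≠ 2 := by
    rintro rfl
    have h1 : 2 ∣ 2 ^ r := dvd_pow_self 2 hr0.ne'
    have h2 : 2 ∣ 1 := (Nat.dvd_add_right h1).mp hpd
    omega
  have hpodd : Odd p := hp.odd_of_ne_two hp2
  have hc2 : Nat.Coprime p 2 := by
    rw [Nat.coprime_primes hp Nat.prime_two]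
    exact hp2
  -- the constant
  obtain ⟨C, hC⟩ : ∃ C : ℕ, ∀ i l, padicValNat p (2 ^ (2 * r) - 1) + padicValNat p (a i l) ≤ C := by
    refine ⟨padicValNat p (2 ^ (2 * r) - 1) + ∑ i, ∑ l, padicValNat p (a i l), fun i l => ?_⟩
    have h1 : padicValNat p (a i l) ≤ ∑ l, padicValNat p (a i l) :=
      Finset.single_le_sum (f := fun l => padicValNat p (a i l)) (fun _ _ => Nat.zero_le _)
        (Finset.mem_univ l)
    have h2 : ∑ l, padicValNat p (a i l) ≤ ∑ i, ∑ l, padicValNat p (a i l) :=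
      Finset.single_le_sum (f := fun i => ∑ l, padicValNat p (a i l)) (fun _ _ => Nat.zero_le _)
        (Finset.mem_univ i)
    omega
  obtain ⟨j, hj1, hj2⟩ : ∃ j : ℕ, t₀ ≤ j ∧ s * C ≤ j := ⟨t₀ + s * C, by omega, by omega⟩
  have htj : t₀ ≤ p ^ j := le_trans hj1 (Nat.lt_pow_self hp.one_lt).le
  have htpos : 0 < p ^ j := pow_pos hp.pos j
  have hmain := h (p ^ j) htj
  -- bounds of the denominators
  have hden : ∀ i l, VLbd p (j + C) (1 / ((2 : ℝ) ^ (p ^ j * a i l) - 1)) := by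
    intro i l
    have hta : p ^ j * a i l ≠ 0 := (Nat.mul_pos htpos (ha i l)).ne'
    have hge : 2 ≤ 2 ^ (p ^ j * a i l) := by
      calc 2 = 2 ^ 1 := by norm_num
        _ ≤ 2 ^ (p ^ j * a i l) := Nat.pow_le_pow_right (by norm_num) (Nat.pos_of_ne_zero hta)
    have hpos : 0 < 2 ^ (p ^ j * a i l) - 1 := by omega
    have e : (2 : ℝ) ^ (p ^ j * a i l) - 1 = ((2 ^ (p ^ j * a i l) - 1 : ℕ) : ℝ) := by
      rw [Nat.cast_sub (by omega)]
      push_cast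
      ring
    rw [e]
    refine VLbd.inv hp hpos ?_
    have hdiv : 2 ^ (p ^ j * a i l) - 1 ∣ (2 ^ (2 * r)) ^ (p ^ j * a i l) - 1 ^ (p ^ j * a i l) := by
      have h5 := Nat.sub_dvd_pow_sub_pow (2 ^ (p ^ j * a i l)) 1 (2 * r)
      rw [one_pow] at h5
      rw [one_pow]
      have h6 : (2 ^ (2 * r)) ^ (p ^ j * a i l) = (2 ^ (p ^ j * a i l)) ^ (2 * r) := by
        rw [← pow_mul, ← pow_mul, mul_comm (2 * r)]
      rw [h6]
      exact h5
    have hlt : 1 < 2 ^ (2 * r) := Nat.one_lt_two_pow (by omega)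
    have hpd2 : p ∣ 2 ^ (2 * r) - 1 := by
      have : 2 ^ (2 * r) - 1 = (2 ^ r + 1) * (2 ^ r - 1) := by
        have h1 : 1 ≤ 2 ^ r := Nat.one_le_two_pow
        zify [h1, hlt.le]
        rw [mul_comm 2 r, pow_mul]
        ring
      rw [this]
      exact Dvd.dvd.mul_right hpd _
    have hnd : ¬ p ∣ 2 ^ (2 * r) := by
      intro hd
      have := hp.dvd_of_dvd_pow hd
      rw [Nat.prime_dvd_prime_iff_eq hp Nat.prime_two] at this
      exact hp2 this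
    have hlte := padicValNat.pow_sub_pow (p := p) (x := 2 ^ (2 * r)) (y := 1) hpodd hlt hpd2 hnd hta
    have hne : (2 ^ (2 * r)) ^ (p ^ j * a i l) - 1 ^ (p ^ j * a i l) ≠ 0 := by
      rw [one_pow]
      have : 1 < (2 ^ (2 * r)) ^ (p ^ j * a i l) := Nat.one_lt_pow hta hlt
      omega
    have hle := padicValNat_dvd_iff_le (p := p) hne |>.mp
      ((pow_padicValNat_dvd : p ^ padicValNat p (2 ^ (p ^ j * a i l) - 1) ∣ _).trans hdiv)
    rw [hlte, padicValNat.mul (pow_pos hp.pos j).ne' (ha i l).ne', padicValNat.prime_pow] at hle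
    have := hC i l
    omega
  -- the coefficients
  have hx : ∀ i, VLbd p 0 (x (p ^ j) i) := by
    intro i
    obtain ⟨z, hz'⟩ := hz (p ^ j) htpos i
    refine ⟨2 ^ (p ^ j * J), Nat.Coprime.pow_right _ hc2, z, ?_⟩
    rw [← hz']
    push_cast
    ring
  have hV : VLbd p (s * (j + C)) (AA r T (p ^ j)) := by
    rw [hmain]
    refine VLbd.sum _ fun i => ?_
    have := (hx i).mul (VLbd.prod _ (hden i))
    rwa [Nat.zero_add] at this
  obtain ⟨W, hW, z, hWz⟩ := hV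
  -- the left side
  set Q : ℕ := 2 ^ (r * p ^ j) with hQ
  have hAA : AA r T (p ^ j) = ((((Q ^ 5 * (Q ^ 2 + Q + 1) : ℕ) : ℝ)) / ((Q + 1 : ℕ) : ℝ)) ^ T := by
    unfold AA
    rw [hQ]
    push_cast
    rfl
  have hQ1 : ((Q + 1 : ℕ) : ℝ) ≠ 0 := by positivity
  have hint : ((p : ℤ) ^ (s * (j + C)) * W) * ((Q ^ 5 * (Q ^ 2 + Q + 1) : ℕ) : ℤ) ^ T =
      z * ((Q + 1 : ℕ) : ℤ) ^ T := by
    have : ((p : ℝ) ^ (s * (j + C)) * W) * ((Q ^ 5 * (Q ^ 2 + Q + 1) : ℕ) : ℝ) ^ T =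
      z * ((Q + 1 : ℕ) : ℝ) ^ T := by
      rw [← hWz, hAA, div_pow]
      field_simp
    exact_mod_cast this
  -- `ℓ^(j+1)` divides `Q + 1`
  have hdQ : ((p : ℤ) ^ (j + 1)) ∣ ((Q + 1 : ℕ) : ℤ) := by
    have h1 : (p : ℤ) ∣ (2 : ℤ) ^ r - (-1) := by
      have : ((p : ℕ) : ℤ) ∣ ((2 ^ r + 1 : ℕ) : ℤ) := Int.natCast_dvd_natCast.mpr hpd
      push_cast at this
      rw [sub_neg_eq_add]
      exact this
    have h2 := dvd_sub_pow_of_dvd_sub h1 j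
    have h3 : (-1 : ℤ) ^ p ^ j = -1 := (hpodd.pow).neg_one_pow
    rw [h3, sub_neg_eq_add, ← pow_mul] at h2
    rw [hQ]
    push_cast
    exact h2
  have hpQ : (p : ℤ) ∣ (Q : ℤ) + 1 := by
    have : (p : ℤ) ∣ ((Q + 1 : ℕ) : ℤ) := dvd_trans (dvd_pow_self _ (by omega)) hdQ
    push_cast at this
    exact this
  -- the numerator is prime to `ℓ`
  have hcop : IsCoprime ((p : ℤ)) ((Q ^ 5 * (Q ^ 2 + Q + 1) : ℕ) : ℤ) := by
    obtain ⟨c, hc⟩ := hpQ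
    have e : (Q : ℤ) = p * c - 1 := by linarith
    push_cast
    rw [e]
    refine ⟨(p : ℤ) ^ 6 * c ^ 7 - 6 * (p : ℤ) ^ 5 * c ^ 6 + 16 * (p : ℤ) ^ 4 * c ^ 5
      - 25 * (p : ℤ) ^ 3 * c ^ 4 + 25 * (p : ℤ) ^ 2 * c ^ 3 - 16 * (p : ℤ) * c ^ 2 + 6 * c, -1, ?_⟩
    ring
  have hcopW : IsCoprime ((p : ℤ)) (W : ℤ) := Nat.isCoprime_iff_coprime.mpr hW
  have hdiv1 : (p : ℤ) ^ ((j + 1) * T) ∣
      (p : ℤ) ^ (s * (j + C)) * (W * ((Q ^ 5 * (Q ^ 2 + Q + 1) : ℕ) : ℤ) ^ T) := by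
    rw [← mul_assoc, hint, pow_mul]
    exact Dvd.dvd.mul_left (pow_dvd_pow_of_dvd hdQ T) _
  have hdiv2 : (p : ℤ) ^ ((j + 1) * T) ∣ (p : ℤ) ^ (s * (j + C)) := by
    refine IsCoprime.dvd_of_dvd_mul_right ?_ hdiv1
    exact IsCoprime.pow_left (IsCoprime.mul_right hcopW (IsCoprime.pow_right hcop))
  have hdiv3 : p ^ ((j + 1) * T) ∣ p ^ (s * (j + C)) := by exact_mod_cast hdiv2
  have hle := (Nat.pow_dvd_pow_iff_le_right hp.one_lt).mp hdiv3
  have h4 : (j + 1) * (s + 1) ≤ (j + 1) * T := Nat.mul_le_mul_left _ hs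
  nlinarith

end H48SM
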