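import Pool.Agent.H48.SM.Use
import Pool.Agent.H48.SM.Rnk
import Pool.Agent.H48.SM.Bnd
import Pool.Agent.H48.SM.Hcc
import Pool.Agent.H48.SM.NumU
import Pool.Agent.H48.SM.NumV
import Pool.Agent.H48.SM.ValI
import Pool.Agent.H48.SM.ValL

/-! # Assembly -/

set_option autoImplicit false

namespace H48SM

theorem stringy_congr {β : Prop} {T t : ℕ} (ht : 0 < t) {c : Mot (ZMod 2) (rr T) β →+* ℝ}
    (hc : IsPC (rr T) t c) {u u' : ℕ → Mot (ZMod 2) (Nat.card (GB T)) β}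
    (hu : IsStringy (GB T) u) (hu' : IsStringy (GB T) u') (e : ℕ) : c (u e) = c (u' e) := by
  obtain ⟨n₁, h₁⟩ := hu e
  obtain ⟨n₂, h₂⟩ := hu' e
  obtain ⟨x, hx, hxe⟩ := h₁ (max n₁ n₂) (le_max_left _ _)
  obtain ⟨y, hy, hye⟩ := h₂ (max n₁ n₂) (le_max_right _ _)
  have hr : 0 < rr T := Nat.card_pos
  have hxy : c x = c y := pc_hasClass hr ht hc hx hy
  rw [hxe, hye]
  simp only [map_mul, hxy]

theorem sum_dvd (R M : ℕ) (hR : 0 < R) (f : ℕ → ℝ) :
    ∑ e ∈ Finset.range (R * M), (if R ∣ e then f (e / R) else 0) =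
      ∑ E ∈ Finset.range M, f E := by
  induction M with
  | zero => simp
  | succ M ih =>
    rw [Nat.mul_succ, Finset.sum_range_add, ih, Finset.sum_range_succ]
    congr 1
    obtain ⟨R', rfl⟩ : ∃ R', R = R' + 1 := ⟨R - 1, by omega⟩
    rw [Finset.sum_range_succ']
    rw [Finset.sum_eq_zero]
    · simp
    · intro i hi
      rw [Finset.mem_range] at hi
      rw [if_neg]
      intro hd
      have h2 : R' + 1 ∣ i + 1 := (Nat.dvd_add_right (Dvd.intro M rfl)).mp hd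
      have := Nat.le_of_dvd (by omega) h2
      omega

theorem sum_uu {β : Prop} (T M : ℕ) (c : Mot (ZMod 2) (rr T) β →+* ℝ) :
    ∑ e ∈ Finset.range (3 * rr T * M), c (uu β T e) = ∑ E ∈ Finset.range M, c (uE β T E) := by
  have hr : 0 < 3 * rr T := by
    have : 0 < rr T := Nat.card_pos
    omega
  rw [← sum_dvd (3 * rr T) M hr (fun E => c (uE β T E))]
  refine Finset.sum_congr rfl ?_
  intro e _
  unfold uu
  split_ifs
  · rfl
  · exact map_zero c

/-- no expression with at most `s` factors in each denominator -/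
theorem no_expression {β : Prop} (T s : ℕ) (hsT : s < T)
    (u : ℕ → Mot (ZMod 2) (Nat.card (GB T)) β)
    (hu : IsStringy (GB T) u) (n : ℕ) (ξ : Fin n → Mot (ZMod 2) (Nat.card (GB T)) β)
    (a : Fin n → Fin s → ℕ) (ha : ∀ i l, 0 < a i l) (hs : SameLimit u (fracSum s n ξ a)) :
    False := by
  have hT0 : 0 < T := by omega
  have hr : 0 < rr T := Nat.card_pos
  have hr2 : rr T = 2 ^ T := card_GB T
  -- bounds for the coefficients
  choose Jf Cf hJC using fun i => mot_bound hr (ξ i)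
  set J : ℕ := ∑ i, Jf i with hJ
  set C₀ : ℝ := ∑ i, |Cf i| with hC₀
  have hJi : ∀ i, Jf i ≤ J := fun i => Finset.single_le_sum (fun _ _ => Nat.zero_le _)
    (Finset.mem_univ i)
  have hCi : ∀ i, |Cf i| ≤ C₀ := fun i => Finset.single_le_sum (f := fun i => |Cf i|)
    (fun _ _ => abs_nonneg _) (Finset.mem_univ i)
  have hξ : ∀ i, ∀ t > 0, ∀ c, IsPC (rr T) t c → |c (ξ i)| ≤ C₀ * 2 ^ (t * J) := by
    intro i t ht c hc
    refine ((hJC i t ht c hc).1).trans ?_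
    have h1 : Cf i ≤ C₀ := (le_abs_self _).trans (hCi i)
    have h2 : (2 : ℝ) ^ (t * Jf i) ≤ 2 ^ (t * J) :=
      pow_le_pow_right₀ (by norm_num) (Nat.mul_le_mul_left t (hJi i))
    have h3 : (0 : ℝ) ≤ C₀ := (abs_nonneg _).trans (hCi i)
    exact (mul_le_mul_of_nonneg_right h1 (by positivity)).trans
      (mul_le_mul_of_nonneg_left h2 h3)
  have hξz : ∀ i, ∀ t > 0, ∀ c, IsPC (rr T) t c → ∃ z : ℤ, c (ξ i) * 2 ^ (t * J) = z := by
    intro i t ht c hc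
    obtain ⟨z, hz⟩ := (hJC i t ht c hc).2
    refine ⟨z * 2 ^ (t * (J - Jf i)), ?_⟩
    have h1 : t * J = t * Jf i + t * (J - Jf i) := by
      rw [← Nat.mul_add, Nat.add_sub_cancel' (hJi i)]
    rw [h1, pow_add, ← mul_assoc, hz]
    push_cast
    ring
  -- the realisations
  choose cf hcf using fun t : {t : ℕ // 0 < t} => exists_pc β (r := rr T) hr t.2
  set x : ℕ → Fin n → ℝ := fun t i => if ht : 0 < t then cf ⟨t, ht⟩ (ξ i) else 0 with hx
  have hxt : ∀ t (ht : 0 < t) i, x t i = cf ⟨t, ht⟩ (ξ i) := by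
    intro t ht i
    simp only [hx, dif_pos ht]
  have hz : ∀ t > 0, ∀ i, ∃ z : ℤ, x t i * 2 ^ (t * J) = z := by
    intro t ht i
    rw [hxt t ht]
    exact hξz i t ht _ (hcf ⟨t, ht⟩)
  have key : ∀ m : ℕ, ∃ C : ℝ, ∀ t > 0,
      |AA (rr T) T t - ∑ i, x t i * ∏ l, (1 / ((2 : ℝ) ^ (t * a i l) - 1))| ≤
        C * (1 / 2) ^ (t * m) := by
    intro m
    obtain ⟨M₁, h₁⟩ := num_u β T hT0 m
    obtain ⟨M₂, h₂⟩ := num_v hr s n ξ a ha J C₀ hξ m
    obtain ⟨M₃, h₃⟩ := hs m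
    set M := M₁ + M₂ + M₃ with hM
    have hN : M ≤ 3 * rr T * M := Nat.le_mul_of_pos_left _ (by omega)
    obtain ⟨C₁, h₁⟩ := h₁ M (by omega)
    obtain ⟨C₂, h₂⟩ := h₂ (3 * rr T * M) (by omega)
    obtain ⟨C₃, h₃⟩ := fil_bound hr m _ (h₃ (3 * rr T * M) (by omega))
    refine ⟨C₁ + C₃ + C₂, ?_⟩
    intro t ht
    have hc := hcf ⟨t, ht⟩
    have e₁ := h₁ t ht _ hc
    have e₂ := h₂ t ht _ hc
    have e₃ := h₃ t ht _ hc
    rw [map_sub, map_sum, map_sum] at e₃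
    have e₄ : ∑ e ∈ Finset.range (3 * rr T * M), cf ⟨t, ht⟩ (u e) =
        ∑ E ∈ Finset.range M, cf ⟨t, ht⟩ (uE β T E) := by
      rw [← sum_uu T M (cf ⟨t, ht⟩)]
      exact Finset.sum_congr rfl fun e _ => stringy_congr ht hc hu (isStringy_uu β T) e
    rw [e₄] at e₃
    simp only [hxt t ht]
    set A := AA (rr T) T t
    set B := ∑ E ∈ Finset.range M, cf ⟨t, ht⟩ (uE β T E)
    set D := ∑ N ∈ Finset.range (3 * rr T * M), cf ⟨t, ht⟩ (fracSum s n ξ a N)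
    set V := ∑ i, cf ⟨t, ht⟩ (ξ i) * ∏ l, (1 / ((2 : ℝ) ^ (t * a i l) - 1))
    have e₅ : A - V = -(B - A) + (B - D) + (D - V) := by ring
    rw [e₅, add_mul, add_mul]
    refine (abs_add_le _ _).trans (add_le_add ((abs_add_le _ _).trans (add_le_add ?_ e₃)) e₂)
    rw [abs_neg]
    exact e₁
  obtain ⟨t₀, ht₀⟩ := num_int T s n (rr T) J x a ha hz key
  exact num_val T s n (rr T) J hsT hr2 x a ha hz t₀ ht₀

/-- the theorem -/
theorem final (β : Prop) (s : ℕ) :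
    ∃ (ι : Type) (_ : Fintype ι) (_ : DecidableEq ι)
      (G : Subgroup (Matrix.GeneralLinearGroup ι (ZMod 2))) (_ : Finite G),
      (∀ g ∈ G, (g.val - 1).rank ≠ 1) ∧
      (∃ u : ℕ → Mot (ZMod 2) (Nat.card G) β, IsStringy G u ∧ Conv u) ∧
      ∀ u : ℕ → Mot (ZMod 2) (Nat.card G) β, IsStringy G u →
        ¬ ∃ (n : ℕ) (ξ : Fin n → Mot (ZMod 2) (Nat.card G) β)
        (a : Fin n → Fin s → ℕ), (∀ i l, 0 < a i l) ∧ SameLimit u (fracSum s n ξ a) := by
  refine ⟨Cx (s + 1), inferInstance, inferInstance, GB (s + 1), inferInstance, rank_GB _,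
    ⟨uu β (s + 1), isStringy_uu _ _, conv_uu _ _⟩, ?_⟩
  rintro u hu ⟨n, ξ, a, ha, hs⟩
  exact no_expression (s + 1) s (Nat.lt_succ_self s) u hu n ξ a ha hs

end H48SM
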