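import Pool.Agent.H48.SM.Theta

/-! # Module GENS: after multiplication by a power of `∏ u_{b,i_b}` every invariant is a polynomial in `u, N, M`

Proof.  `theta i f ∈ P T` is a polynomial in `s_b, x_b, w_{b,j}, z_{b,j}`, `j ≠ i b` (no dummies; see below).
For every `g ∈ P T` without dummy variables there is `m` with `(∏ s_b)^m * g` in the subalgebra generated by
`s_b`, `x_b`, `s_b w_j`, `s_b z_j` (`j ≠ i b`) (induction on `g`: closed under sums (common `m`), products, variables), which are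
the images under `theta i` of `uI b (i b)`, `NI b (i b)`, `uI b j`, `MI b (i b) j`.  So
`theta i ((∏ uI b (i b))^m * f) = theta i h` with `h` in the `Algebra.adjoin`, and `theta_injective`.
Dummies: apply the endomorphism `κ` of `P T` sending the dummy variables `w_{b,i b}`, `z_{b,i b}` to `0` and fixing
the others: `κ ∘ thetaP i = thetaP i` and `κ ∘ tau = tau ∘ κ`, so `κ (theta i f) = theta i f`
(`tau_injective`), and `κ g` of a monomial with a dummy is `0`.  Hence the claim above may be proved in the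
form: for all `g : P T` there are `m` and `h` with `(∏ s_b)^m * κ g = theta i h`.
-/

set_option autoImplicit false

namespace H48SM

open MvPolynomial

/-- kill the dummy variables -/
noncomputable def gens_kap {T : ℕ} (i : Fin T → Fin 3) : P T →ₐ[ZMod 2] P T :=
  aeval fun p => if p.2 = Cv.w (i p.1) ∨ p.2 = Cv.z (i p.1) then 0 else X p

theorem gens_kap_thetaP {T : ℕ} (i : Fin T → Fin 3) :
    (gens_kap i).comp (thetaP i) = thetaP i := by
  apply MvPolynomial.algHom_ext
  rintro ⟨b, a, j⟩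
  simp only [AlgHom.comp_apply, thetaP, aeval_X]
  by_cases ha : a = 1
  · by_cases hj : j = i b
    · simp [ha, hj, gens_kap]
    · simp [ha, hj, gens_kap]
  · by_cases hj : j = i b
    · simp [ha, hj, gens_kap]
    · simp [ha, hj, gens_kap]

theorem gens_kap_tau {T : ℕ} (i : Fin T → Fin 3) :
    (gens_kap i).comp (tau T) = (tau T).comp (gens_kap i) := by
  apply MvPolynomial.algHom_ext
  rintro ⟨b, c⟩
  simp only [AlgHom.comp_apply, tau, gens_kap, aeval_X]
  cases c with
  | s => simp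
  | x => simp
  | w j =>
    by_cases hj : j = i b
    · simp [hj]
    · simp [hj]
  | z j =>
    by_cases hj : j = i b
    · simp [hj]
    · simp [hj]

theorem gens_kap_theta {T : ℕ} (i : Fin T → Fin 3) (f : Inv (GB T)) :
    gens_kap i (theta i f) = theta i f := by
  apply tau_injective T
  have h1 : tau T (gens_kap i (theta i f)) = gens_kap i (tau T (theta i f)) :=
    (DFunLike.congr_fun (gens_kap_tau i) (theta i f)).symm
  rw [h1, theta_spec]
  exact DFunLike.congr_fun (gens_kap_thetaP i) f.1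

/-- the generators -/
def gens_S {T : ℕ} (i : Fin T → Fin 3) : Set (Inv (GB T)) :=
  (Set.range fun p : Fin T × Fin 3 => uI p.1 p.2) ∪ (Set.range fun b => NI b (i b)) ∪
        {y | ∃ b j, j ≠ i b ∧ y = MI b (i b) j}

theorem gens_u {T : ℕ} (i : Fin T → Fin 3) (b : Fin T) (j : Fin 3) :
    uI b j ∈ Algebra.adjoin (ZMod 2) (gens_S i) :=
  Algebra.subset_adjoin (Or.inl (Or.inl ⟨(b, j), rfl⟩))

theorem gens_N {T : ℕ} (i : Fin T → Fin 3) (b : Fin T) :
    NI b (i b) ∈ Algebra.adjoin (ZMod 2) (gens_S i) :=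
  Algebra.subset_adjoin (Or.inl (Or.inr ⟨b, rfl⟩))

theorem gens_M {T : ℕ} (i : Fin T → Fin 3) (b : Fin T) (j : Fin 3) (hj : j ≠ i b) :
    MI b (i b) j ∈ Algebra.adjoin (ZMod 2) (gens_S i) :=
  Algebra.subset_adjoin (Or.inr ⟨b, j, hj, rfl⟩)

theorem gens_U {T : ℕ} (i : Fin T → Fin 3) :
    (∏ b, uI b (i b)) ∈ Algebra.adjoin (ZMod 2) (gens_S i) :=
  Subalgebra.prod_mem _ fun b _ => gens_u i b (i b)

theorem gens_theta_U {T : ℕ} (i : Fin T → Fin 3) :
    theta i (∏ b, uI b (i b)) = ∏ b, X (b, Cv.s) := by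
  rw [map_prod]
  exact Finset.prod_congr rfl fun b _ => theta_u_piv i b

/-- the case of a variable -/
theorem gens_var {T : ℕ} (i : Fin T → Fin 3) (p : Fin T × Cv) :
    ∃ h ∈ Algebra.adjoin (ZMod 2) (gens_S i),
      theta i (∏ b, uI b (i b)) * gens_kap i (X p) = theta i h := by
  obtain ⟨b, c⟩ := p
  have hprod : ∀ y : P T, (∏ b', theta i (uI b' (i b'))) * y =
      (∏ b' ∈ Finset.univ.erase b, theta i (uI b' (i b'))) * (X (b, Cv.s) * y) := by
    intro y
    rw [← Finset.prod_erase_mul (Finset.univ) _ (Finset.mem_univ b), theta_u_piv, mul_assoc]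
  have hmem : (∏ b' ∈ Finset.univ.erase b, uI b' (i b')) ∈
      Algebra.adjoin (ZMod 2) (gens_S i) := Subalgebra.prod_mem _ fun b' _ => gens_u i b' (i b')
  cases c with
  | s =>
    refine ⟨(∏ b, uI b (i b)) * uI b (i b), mul_mem (gens_U i) (gens_u i b _), ?_⟩
    rw [map_mul, theta_u_piv]
    simp [gens_kap]
  | x =>
    refine ⟨(∏ b, uI b (i b)) * NI b (i b), mul_mem (gens_U i) (gens_N i b), ?_⟩
    rw [map_mul, theta_N]
    simp [gens_kap]
  | w j =>
    by_cases hj : j = i b
    · refine ⟨0, zero_mem _, ?_⟩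
      simp [gens_kap, hj]
    · refine ⟨(∏ b' ∈ Finset.univ.erase b, uI b' (i b')) * uI b j,
        mul_mem hmem (gens_u i b j), ?_⟩
      rw [map_mul, theta_u i b j hj, map_prod, map_prod, ← hprod]
      simp [gens_kap, hj]
  | z j =>
    by_cases hj : j = i b
    · refine ⟨0, zero_mem _, ?_⟩
      simp [gens_kap, hj]
    · refine ⟨(∏ b' ∈ Finset.univ.erase b, uI b' (i b')) * MI b (i b) j,
        mul_mem hmem (gens_M i b j hj), ?_⟩
      rw [map_mul, theta_M i b j hj, map_prod, map_prod, ← hprod]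
      simp [gens_kap, hj]

theorem gens_all {T : ℕ} (i : Fin T → Fin 3) (g : P T) :
    ∃ m : ℕ, ∃ h ∈ Algebra.adjoin (ZMod 2) (gens_S i),
      theta i (∏ b, uI b (i b)) ^ m * gens_kap i g = theta i h := by
  induction g using MvPolynomial.induction_on with
  | C a =>
    refine ⟨0, algebraMap (ZMod 2) _ a, Subalgebra.algebraMap_mem _ a, ?_⟩
    rw [pow_zero, one_mul, AlgHom.commutes]
    exact (gens_kap i).commutes a
  | add p q hp hq =>
    obtain ⟨m, h, hh, he⟩ := hp
    obtain ⟨m', h', hh', he'⟩ := hq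
    refine ⟨m + m', (∏ b, uI b (i b)) ^ m' * h + (∏ b, uI b (i b)) ^ m * h',
      add_mem (mul_mem (pow_mem (gens_U i) _) hh) (mul_mem (pow_mem (gens_U i) _) hh'), ?_⟩
    rw [map_add, map_add, map_mul, map_mul, ← he, ← he', map_pow, map_pow]
    ring
  | mul_X p n hp =>
    obtain ⟨m, h, hh, he⟩ := hp
    obtain ⟨h', hh', he'⟩ := gens_var i n
    refine ⟨m + 1, h * h', mul_mem hh hh', ?_⟩
    rw [map_mul, map_mul, ← he, ← he']
    ring

theorem gens {T : ℕ} (i : Fin T → Fin 3) (f : Inv (GB T)) : ∃ m : ℕ,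
    (∏ b, uI b (i b)) ^ m * f ∈ Algebra.adjoin (ZMod 2)
      ((Set.range fun p : Fin T × Fin 3 => uI p.1 p.2) ∪ (Set.range fun b => NI b (i b)) ∪
        {y | ∃ b j, j ≠ i b ∧ y = MI b (i b) j}) := by
  obtain ⟨m, h, hh, he⟩ := gens_all i (theta i f)
  refine ⟨m, ?_⟩
  rw [gens_kap_theta, ← map_pow, ← map_mul] at he
  rw [theta_injective i he]
  exact hh

end H48SM
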