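import Pool.Agent.H48.SM.Ex

/-! # Module INVL: polynomials in `x` invariant under `x ↦ x + s` are polynomials in `x^2 + s x`

Proofs. `tau_injective`: give a total degree/leading term argument, or: write `P T` as an iterated
polynomial ring in the variables `x_b`; substituting the monic polynomial `x^2 + s x` of positive
degree for `x` is injective.  Clean way: for one block `b` factor `tau = tau_1 ∘ ... ∘ tau_T` with
`tau_b` the substitution in the single variable `x_b` (these commute), and use
`MvPolynomial.optionEquivLeft` / `Polynomial` over the ring `R` in the other variables: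
`Polynomial.aeval (X^2 + C s * X)` is injective on `R[X]` (R a domain: `natDegree_comp`), and
`f ∈ R[X]` with `f.comp (X + C s) = f`, `s ≠ 0`, is of the form `g.comp (X^2 + C s * X)`: divide by
the monic `X^2 + C s * X` (`modByMonic`): `f = N g + (α X + β)`, `N` is invariant, so
`N (g(X + s) - g) + α s = 0`, hence by degrees `α s = 0`, `α = 0` and `g(X+s) = g`: induct on the degree.
`exists_tau`: induct over the blocks: if `f` is invariant under all `sig b` then `f = tau_1 g_1`, and
`g_1` is invariant under `sig 2, ...` since `tau_1` is injective and commutes with `sig b`, `b ≠ 1`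
(`s_b` and `x_b` of the other blocks are not touched); etc.  (For the induction one may use, for a
finset `B` of blocks, the substitution `tau_B` in the variables `x_b`, `b ∈ B`.)
Characteristic 2: `X^2 + C s X` composed with `X + C s` is `X^2 + C s X + 2(...)`.
-/

set_option autoImplicit false

namespace H48SM

open MvPolynomial

set_option linter.unusedSectionVars false

section OneVar

variable {R : Type} [CommRing R] [IsDomain R]

/-- the quadratic norm polynomial -/
noncomputable def invl_q (s : R) : Polynomial R := Polynomial.X ^ 2 + Polynomial.C s * Polynomial.X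

theorem invl_q_monic (s : R) : (invl_q s).Monic := by
  unfold invl_q
  monicity!

theorem invl_q_natDegree (s : R) : (invl_q s).natDegree = 2 := by
  unfold invl_q
  compute_degree!

theorem invl_comp_injective (s : R) :
    Function.Injective (fun f : Polynomial R => f.comp (invl_q s)) := by
  intro f g hfg
  have h : (f - g).comp (invl_q s) = 0 := by
    rw [Polynomial.sub_comp]
    exact sub_eq_zero.2 hfg
  rw [Polynomial.comp_eq_zero_iff] at h
  rcases h with h | ⟨_, h⟩
  · exact sub_eq_zero.1 h
  · exfalso
    have h2 := invl_q_natDegree s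
    rw [h, Polynomial.natDegree_C] at h2
    omega

theorem invl_q_comp [CharP R 2] (s : R) :
    (invl_q s).comp (Polynomial.X + Polynomial.C s) = invl_q s := by
  unfold invl_q
  have h2 : (Polynomial.C s + Polynomial.C s : Polynomial R) = 0 := by
    rw [← Polynomial.C_add, CharTwo.add_self_eq_zero, Polynomial.C_0]
  simp only [Polynomial.add_comp, Polynomial.mul_comp, Polynomial.pow_comp, Polynomial.X_comp,
    Polynomial.C_comp]
  linear_combination (Polynomial.X + Polynomial.C s) * h2

theorem invl_one [CharP R 2] (s : R) (hs : s ≠ 0) (n : ℕ) :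
    ∀ f : Polynomial R, f.natDegree ≤ n → f.comp (Polynomial.X + Polynomial.C s) = f →
      ∃ g : Polynomial R, g.comp (invl_q s) = f := by
  induction n using Nat.strong_induction_on with
  | _ n ih =>
    intro f hn hf
    have hq := invl_q_monic s
    have hdiv := Polynomial.modByMonic_add_div f (invl_q s)
    have hdeg : (f %ₘ invl_q s).degree < (invl_q s).degree := Polynomial.degree_modByMonic_lt f hq
    have hdegq : (invl_q s).degree = 2 := by
      rw [Polynomial.degree_eq_natDegree hq.ne_zero, invl_q_natDegree]
      rfl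
    -- compose
    have hcomp : (f %ₘ invl_q s).comp (Polynomial.X + Polynomial.C s) +
        invl_q s * (f /ₘ invl_q s).comp (Polynomial.X + Polynomial.C s) = f := by
      have h := congrArg (fun p : Polynomial R => p.comp (Polynomial.X + Polynomial.C s)) hdiv
      simp only [Polynomial.add_comp, Polynomial.mul_comp, invl_q_comp] at h
      rw [h, hf]
    have hdeg' : ((f %ₘ invl_q s).comp (Polynomial.X + Polynomial.C s)).degree <
        (invl_q s).degree := by
      rw [hdegq] at hdeg ⊢
      have h1 : (f %ₘ invl_q s).natDegree ≤ 1 := by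
        by_cases h0 : f %ₘ invl_q s = 0
        · rw [h0]; simp
        · rw [Polynomial.degree_eq_natDegree h0] at hdeg
          have : (f %ₘ invl_q s).natDegree < 2 := by exact_mod_cast hdeg
          omega
      have h2 : ((f %ₘ invl_q s).comp (Polynomial.X + Polynomial.C s)).natDegree ≤ 1 := by
        refine Polynomial.natDegree_comp_le.trans ?_
        have h3 : (Polynomial.X + Polynomial.C s : Polynomial R).natDegree = 1 :=
          Polynomial.natDegree_X_add_C s
        rw [h3, mul_one]
        exact h1
      exact lt_of_le_of_lt (Polynomial.degree_le_of_natDegree_le h2) (by decide)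
    have huniq := Polynomial.div_modByMonic_unique _ _ hq ⟨hcomp, hdeg'⟩
    obtain ⟨hu1, hu2⟩ := huniq
    -- the remainder
    have hrem : ∃ β : R, f %ₘ invl_q s = Polynomial.C β := by
      rw [hdegq] at hdeg
      have h1 : (f %ₘ invl_q s).natDegree ≤ 1 := by
        by_cases h0 : f %ₘ invl_q s = 0
        · rw [h0]; simp
        · rw [Polynomial.degree_eq_natDegree h0] at hdeg
          have : (f %ₘ invl_q s).natDegree < 2 := by exact_mod_cast hdeg
          omega
      obtain ⟨α, β, hab⟩ := Polynomial.exists_eq_X_add_C_of_natDegree_le_one h1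
      rw [hab] at hu2
      simp only [Polynomial.add_comp, Polynomial.mul_comp, Polynomial.X_comp,
        Polynomial.C_comp] at hu2
      have h3 : Polynomial.C (α * s) = (0 : Polynomial R) := by
        rw [Polynomial.C_mul]
        linear_combination -hu2
      rw [Polynomial.C_eq_zero] at h3
      rcases mul_eq_zero.1 h3 with h4 | h4
      · refine ⟨β, ?_⟩
        rw [hab, h4, Polynomial.C_0, zero_mul, zero_add]
      · exact absurd h4 hs
    obtain ⟨β, hβ⟩ := hrem
    by_cases hn0 : f.natDegree < 2
    · have h0 : f /ₘ invl_q s = 0 := by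
        rw [Polynomial.divByMonic_eq_zero_iff hq]
        rw [hdegq]
        exact lt_of_le_of_lt Polynomial.degree_le_natDegree (by exact_mod_cast hn0)
      refine ⟨Polynomial.C β, ?_⟩
      rw [Polynomial.C_comp, ← hdiv, hβ, h0, mul_zero, add_zero]
    · push Not at hn0
      have hnd : (f /ₘ invl_q s).natDegree = f.natDegree - 2 := by
        rw [Polynomial.natDegree_divByMonic f hq, invl_q_natDegree]
      obtain ⟨g, hg⟩ := ih (n - 2) (by omega) (f /ₘ invl_q s) (by omega) hu1.symm
      refine ⟨Polynomial.C β + Polynomial.X * g, ?_⟩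
      rw [Polynomial.add_comp, Polynomial.C_comp, Polynomial.mul_comp, Polynomial.X_comp, hg]
      rw [← hdiv, hβ]
      congr 2
      rw [← hβ, hdiv]

end OneVar

section Single

variable {σ : Type} [DecidableEq σ]

/-- isolate one variable -/
noncomputable def invl_e (i : σ) :
    MvPolynomial σ (ZMod 2) ≃ₐ[ZMod 2] Polynomial (MvPolynomial {p : σ // p ≠ i} (ZMod 2)) :=
  (renameEquiv (ZMod 2) (Equiv.optionSubtypeNe i).symm).trans (optionEquivLeft (ZMod 2) _)

theorem invl_e_X_self (i : σ) : invl_e i (X i) = Polynomial.X := by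
  unfold invl_e
  simp [optionEquivLeft_apply]

theorem invl_e_X_ne (i p : σ) (h : p ≠ i) :
    invl_e i (X p) = Polynomial.C (X ⟨p, h⟩) := by
  unfold invl_e
  simp [optionEquivLeft_apply, Equiv.optionSubtypeNe_symm_of_ne h]

/-- the substitution in one variable -/
noncomputable def invl_sub (i : σ) (q : MvPolynomial σ (ZMod 2)) :
    MvPolynomial σ (ZMod 2) →ₐ[ZMod 2] MvPolynomial σ (ZMod 2) :=
  aeval fun p => if p = i then q else X p

theorem invl_e_sub (i : σ) (q f : MvPolynomial σ (ZMod 2)) :
    invl_e i (invl_sub i q f) = (invl_e i f).comp (invl_e i q) := by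
  have h : ((invl_e i).toAlgHom.comp (invl_sub i q)) =
      ((Polynomial.aeval (invl_e i q) :
        Polynomial (MvPolynomial {p : σ // p ≠ i} (ZMod 2)) →ₐ[MvPolynomial {p : σ // p ≠ i} (ZMod 2)]
          Polynomial (MvPolynomial {p : σ // p ≠ i} (ZMod 2))).restrictScalars (ZMod 2)).comp
        (invl_e i).toAlgHom := by
    apply MvPolynomial.algHom_ext
    intro p
    by_cases hp : p = i
    · subst hp
      simp [invl_sub, invl_e_X_self]
    · simp [invl_sub, invl_e_X_ne i p hp, hp]
  have h2 := DFunLike.congr_fun h f
  simpa [Polynomial.aeval_def, Polynomial.comp] using h2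

theorem invl_sub_injective (i j : σ) (hij : j ≠ i) :
    Function.Injective (invl_sub i (X i ^ 2 + X j * X i)) := by
  intro f g hfg
  have h1 := congrArg (invl_e i) hfg
  rw [invl_e_sub, invl_e_sub, map_add, map_mul, map_pow, invl_e_X_self, invl_e_X_ne i j hij] at h1
  have h2 : (invl_e i f).comp (invl_q (X ⟨j, hij⟩)) = (invl_e i g).comp (invl_q (X ⟨j, hij⟩)) := h1
  have h3 : invl_e i f = invl_e i g :=
    @invl_comp_injective (MvPolynomial {p : σ // p ≠ i} (ZMod 2)) _ _ (X ⟨j, hij⟩) _ _ h2
  exact (invl_e i).injective h3

theorem invl_sub_exists (i j : σ) (hij : j ≠ i) (f : MvPolynomial σ (ZMod 2))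
    (hf : invl_sub i (X i + X j) f = f) :
    ∃ g, invl_sub i (X i ^ 2 + X j * X i) g = f := by
  have h1 := congrArg (invl_e i) hf
  rw [invl_e_sub, map_add, invl_e_X_self, invl_e_X_ne i j hij] at h1
  obtain ⟨g, hg⟩ := invl_one (R := MvPolynomial {p : σ // p ≠ i} (ZMod 2)) (X ⟨j, hij⟩)
    (X_ne_zero _) _ (invl_e i f) le_rfl h1
  refine ⟨(invl_e i).symm g, ?_⟩
  apply (invl_e i).injective
  rw [invl_e_sub, AlgEquiv.apply_symm_apply, map_add, map_mul, map_pow, invl_e_X_self,
    invl_e_X_ne i j hij]
  exact hg

end Single

/-- the substitution in the blocks of a finset -/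
noncomputable def invl_tau {T : ℕ} (B : Finset (Fin T)) : P T →ₐ[ZMod 2] P T :=
  aeval fun p => if p.2 = Cv.x ∧ p.1 ∈ B then X (p.1, Cv.x) ^ 2 + X (p.1, Cv.s) * X (p.1, Cv.x)
    else X p

/-- one block -/
noncomputable abbrev invl_t1 {T : ℕ} (b : Fin T) : P T →ₐ[ZMod 2] P T :=
  invl_sub (b, Cv.x) (X (b, Cv.x) ^ 2 + X (b, Cv.s) * X (b, Cv.x))

theorem invl_tau_empty {T : ℕ} (f : P T) : invl_tau (∅ : Finset (Fin T)) f = f := by
  unfold invl_tau
  simp

theorem invl_tau_insert {T : ℕ} (b : Fin T) (B : Finset (Fin T)) (hb : b ∉ B) (f : P T) :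
    invl_tau (insert b B) f = invl_t1 b (invl_tau B f) := by
  have h : invl_tau (insert b B) = (invl_t1 b).comp (invl_tau B) := by
    apply MvPolynomial.algHom_ext
    rintro ⟨c, v⟩
    simp only [invl_tau, invl_sub, AlgHom.comp_apply, aeval_X, Finset.mem_insert]
    by_cases hv : v = Cv.x
    · subst hv
      by_cases hc : c = b
      · subst hc
        simp [hb]
      · by_cases hcB : c ∈ B
        · simp [hc, hcB]
        · simp [hc, hcB]
    · simp [hv]
  rw [h]
  rfl

theorem invl_t1_comm {T : ℕ} (b c : Fin T) (hbc : b ≠ c) (f : P T) :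
    sig c (invl_t1 b f) = invl_t1 b (sig c f) := by
  have h : (sig c).comp (invl_t1 b) = (invl_t1 b).comp (sig c) := by
    apply MvPolynomial.algHom_ext
    rintro ⟨d, v⟩
    simp only [sig, invl_sub, AlgHom.comp_apply, aeval_X, Prod.mk.injEq]
    by_cases hv : v = Cv.x
    · subst hv
      by_cases hd : d = b
      · subst hd
        simp [hbc]
      · by_cases hdc : d = c
        · subst hdc
          simp [hd]
        · simp [hd, hdc]
    · simp [hv]
  exact DFunLike.congr_fun h f

theorem invl_t1_injective {T : ℕ} (b : Fin T) : Function.Injective (invl_t1 b) :=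
  invl_sub_injective (b, Cv.x) (b, Cv.s) (by simp)

theorem invl_t1_exists {T : ℕ} (b : Fin T) (f : P T) (hf : sig b f = f) :
    ∃ g, invl_t1 b g = f :=
  invl_sub_exists (b, Cv.x) (b, Cv.s) (by simp) f hf

theorem invl_tau_injective {T : ℕ} (B : Finset (Fin T)) : Function.Injective (invl_tau B) := by
  induction B using Finset.induction_on with
  | empty =>
    intro f g h
    rwa [invl_tau_empty, invl_tau_empty] at h
  | insert b B hb ih =>
    intro f g h
    rw [invl_tau_insert b B hb, invl_tau_insert b B hb] at h
    exact ih (invl_t1_injective b h)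

theorem invl_tau_exists {T : ℕ} (B : Finset (Fin T)) :
    ∀ f : P T, (∀ b ∈ B, sig b f = f) → ∃ g, invl_tau B g = f := by
  induction B using Finset.induction_on with
  | empty =>
    intro f _
    exact ⟨f, invl_tau_empty f⟩
  | insert b B hb ih =>
    intro f hf
    obtain ⟨g₁, hg₁⟩ := invl_t1_exists b f (hf b (Finset.mem_insert_self b B))
    have h1 : ∀ c ∈ B, sig c g₁ = g₁ := by
      intro c hc
      have hbc : b ≠ c := by
        rintro rfl
        exact hb hc
      apply invl_t1_injective b
      rw [← invl_t1_comm b c hbc, hg₁]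
      exact hf c (Finset.mem_insert_of_mem hc)
    obtain ⟨g, hg⟩ := ih g₁ h1
    exact ⟨g, by rw [invl_tau_insert b B hb, hg, hg₁]⟩

theorem invl_tau_univ (T : ℕ) : invl_tau (Finset.univ : Finset (Fin T)) = tau T := by
  unfold invl_tau tau
  simp

theorem tau_injective (T : ℕ) : Function.Injective (tau T) := by
  rw [← invl_tau_univ]
  exact invl_tau_injective _

theorem exists_tau {T : ℕ} (f : P T) (h : ∀ b, sig b f = f) : ∃ g : P T, tau T g = f := by
  rw [← invl_tau_univ]
  exact invl_tau_exists _ f (fun b _ => h b)

end H48SM
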