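import Pool.Agent.H48.SM.Der

/-! # Module JAC: Jacobian determinants of invariants are divisible by `∏ s_b^3`

Proofs.  Write `ν = nu i : Cx T → Fin T × Cv` (injective).  Chain rule for `thetaP`:
`pderiv (ν q) (thetaP i f) = ∑ p, thetaP i (pderiv p f) * pderiv (ν q) (thetaP i (X p))`
(both sides are derivations over `thetaP`).  Hence
`det (pderiv (ν q) (thetaP i (f p)))_{p,q} = thetaP i (jac f) * det (pderiv (ν q) (thetaP i (X p)))_{p,q}`
and the last determinant is `∏ b, X (b,s)^2` (block diagonal in `b`; in a block with pivot `i`: rows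
`u_i = s`, `u_j = s w_j`, `x_i = x`, `x_j = z_j + w_j x`, columns `s, w_j, x, z_j`: upper triangular in a
suitable order; e.g. reduce to the 6x6 (or 3x3 blocks, lower left block 0) determinants for the three
possible pivots).
Next for `tau` (characteristic 2): `pderiv (b,x) (tau g) = X (b,s) * tau (pderiv (b,x) g)`,
`pderiv (b,s) (tau g) = tau (pderiv (b,s) g) + X (b,x) * tau (pderiv (b,x) g)`, and
`pderiv c (tau g) = tau (pderiv c g)` for `c = w, z`.  So with `D(g) = det (pderiv (ν q) (g p))`: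
`D(tau g) = ∏ b, X (b,s) * tau (D g)` (column operations: column of `s` is a column plus a multiple
of the column of `x`; again: matrix product with a block diagonal matrix of determinant `∏ X (b,s)`).
By `der_w`, `der_z` the four columns `w_j`, `z_j` (`j ≠ i b`) of the matrix of `D(theta ∘ f)` are divisible
by `X (b,s)`: `D(theta f) = ∏ b, X (b,s)^4 * y` (`Matrix.det_mul_row` or `det_mul_column`).  Hence
`thetaP i (jac f) * ∏ X (b,s)^2 = ∏ X (b,s)^5 * tau y`, `thetaP i (jac f) = ∏ X (b,s)^3 * tau y`.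
`jac_dvd`: `h = ∏_{l < r} jac (F l)`: `tau (theta i h) = thetaP i h = ∏ X (b,s)^(3r) * tau y'` and
`tau` fixes `X (b,s)`; `tau_injective` (or `dvd_of_dvd_tau`).
`jac_mem`: the column `(b,0,0)` of the Jacobian matrix of `f` is in the ideal by `derS`, hence so is
`jac f` (`Matrix.det_apply`), and the product over `Fin r`, `r > 0`.
-/

set_option autoImplicit false

namespace H48SM

open MvPolynomial

/-! ### A triangular determinant -/

theorem jac_tri {m R : Type*} [Fintype m] [DecidableEq m] [CommRing R] (M : Matrix m m R)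
    (b : m → ℕ) (h : ∀ i j, i ≠ j → b j ≤ b i → M i j = 0) : M.det = ∏ i, M i i := by
  rw [Matrix.det_apply, Finset.sum_eq_single 1]
  · simp
  · intro σ _ hσ
    have hex : ∃ i, σ i ≠ i ∧ b i ≤ b (σ i) := by
      by_contra hcon
      push Not at hcon
      have hle : ∀ i ∈ (Finset.univ : Finset m), b (σ i) ≤ b i := by
        intro i _
        by_cases hi : σ i = i
        · rw [hi]
        · exact (hcon i hi).le
      have hsum : ∑ i, b (σ i) = ∑ i, b i := Equiv.sum_comp σ b
      have heq := (Finset.sum_eq_sum_iff_of_le hle).1 hsum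
      apply hσ
      ext i
      by_contra hi
      exact absurd (heq i (Finset.mem_univ i)) (hcon i hi).ne
    obtain ⟨i, hi, hbi⟩ := hex
    have h0 : ∏ i, M (σ i) i = 0 := Finset.prod_eq_zero (Finset.mem_univ i) (h (σ i) i hi hbi)
    rw [h0, smul_zero]
  · intro h'
    exact absurd (Finset.mem_univ _) h'

/-! ### The chain rule -/

theorem jac_chain {σ τ k : Type*} [Fintype σ] [DecidableEq σ] [CommRing k]
    (α : MvPolynomial σ k →ₐ[k] MvPolynomial τ k) (q : τ) (f : MvPolynomial σ k) :
    pderiv q (α f) = ∑ c, α (pderiv c f) * pderiv q (α (X c)) := by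
  induction f using MvPolynomial.induction_on with
  | C a =>
    have h1 : α (C a) = C a := α.commutes a
    rw [h1, pderiv_C]
    symm
    refine Finset.sum_eq_zero fun c _ => ?_
    rw [pderiv_C, map_zero, zero_mul]
  | add p r hp hr =>
    rw [map_add, map_add, hp, hr, ← Finset.sum_add_distrib]
    refine Finset.sum_congr rfl fun c _ => ?_
    rw [map_add, map_add, add_mul]
  | mul_X p n hp =>
    rw [map_mul, pderiv_mul, hp]
    have h1 : ∀ c, α (pderiv c (p * X n)) * pderiv q (α (X c)) =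
        α (pderiv c p) * pderiv q (α (X c)) * α (X n) +
          (if c = n then α p * pderiv q (α (X n)) else 0) := by
      intro c
      rw [pderiv_mul, map_add, map_mul, map_mul]
      by_cases hc : c = n
      · subst hc
        rw [pderiv_X_self, map_one, if_pos rfl]
        ring
      · rw [pderiv_X_of_ne (fun h' => hc h'.symm), map_zero, if_neg hc]
        ring
    rw [Finset.sum_congr rfl fun c _ => h1 c, Finset.sum_add_distrib, ← Finset.sum_mul]
    simp

/-! ### The chart coordinates -/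

theorem jac_nu_injective {T : ℕ} (i : Fin T → Fin 3) : Function.Injective (nu i) := by
  rintro ⟨b, a, j⟩ ⟨b', a', j'⟩ h
  unfold nu at h
  obtain ⟨h1, h2⟩ := Prod.mk.inj h
  simp only at h1 h2
  subst h1
  have ha : ∀ a : Fin 2, a = 0 ∨ a = 1 := by decide
  rcases ha a with rfl | rfl <;> rcases ha a' with rfl | rfl <;>
    by_cases hj : j = i b <;> by_cases hj' : j' = i b <;> simp_all

/-- product of the `s_b` -/
noncomputable def jacS (T : ℕ) : P T := ∏ b : Fin T, X (b, Cv.s)

theorem jacS_ne_zero (T : ℕ) : jacS T ≠ 0 :=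
  Finset.prod_ne_zero_iff.2 fun b _ => X_ne_zero _

theorem tau_jacS (T : ℕ) : tau T (jacS T) = jacS T := by
  unfold jacS
  rw [map_prod]
  refine Finset.prod_congr rfl fun b _ => ?_
  simp [tau]

theorem jac_fin3 {R : Type*} [CommRing R] (s : R) (c : Fin 3) :
    (∏ j : Fin 3, if j = c then 1 else s) = s ^ 2 := by
  fin_cases c <;> simp [Fin.prod_univ_three, pow_two]

theorem jac_fin3' {R : Type*} [CommRing R] (s : R) (c : Fin 3) :
    (∏ j : Fin 3, if j = c then s else 1) = s := by
  fin_cases c <;> simp [Fin.prod_univ_three]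

/-- products over the coordinates -/
theorem jac_prod {T : ℕ} {R : Type*} [CommRing R] (g : Cx T → R) :
    ∏ p, g p = ∏ b : Fin T, (∏ j : Fin 3, g (b, 0, j)) * ∏ j : Fin 3, g (b, 1, j) := by
  rw [Fintype.prod_prod_type]
  refine Finset.prod_congr rfl fun b _ => ?_
  rw [Fintype.prod_prod_type, Fin.prod_univ_two]

theorem jac_pd {T : ℕ} (b b' : Fin T) (c c' : Cv) :
    pderiv (b', c') (X (b, c) : P T) = if b = b' ∧ c = c' then 1 else 0 := by
  by_cases h : b = b' ∧ c = c'
  · obtain ⟨rfl, rfl⟩ := h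
    rw [pderiv_X_self, if_pos ⟨rfl, rfl⟩]
  · rw [if_neg h, pderiv_X_of_ne]
    intro h'
    exact h (Prod.mk.inj h')

/-- the weight for the triangular form -/
def jacw {T : ℕ} (i : Fin T → Fin 3) (p : Cx T) : ℕ :=
  if p.2.1 = 1 then (if p.2.2 = i p.1 then 2 else 1) else (if p.2.2 = i p.1 then 1 else 0)

theorem jac_A_off {T : ℕ} (i : Fin T → Fin 3) (p q : Cx T) (hpq : p ≠ q)
    (hw : jacw i q ≤ jacw i p) : pderiv (nu i q) (thetaP i (X p)) = 0 := by
  obtain ⟨b, a, j⟩ := p
  obtain ⟨b', a', j'⟩ := q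
  have ha : ∀ a : Fin 2, a = 0 ∨ a = 1 := by decide
  unfold jacw at hw
  unfold thetaP nu
  rw [aeval_X]
  by_cases hb : b = b'
  · subst hb
    rcases ha a with rfl | rfl <;> rcases ha a' with rfl | rfl <;>
      by_cases hj : j = i b <;> by_cases hj' : j' = i b <;>
      simp_all [pderiv_mul, jac_pd]
  · rcases ha a with rfl | rfl <;> rcases ha a' with rfl | rfl <;>
      by_cases hj : j = i b <;> by_cases hj' : j' = i b' <;>
      simp [pderiv_mul, jac_pd, hb, hj, hj']

theorem jac_A_diag {T : ℕ} (i : Fin T → Fin 3) (p : Cx T) :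
    pderiv (nu i p) (thetaP i (X p)) =
      if p.2.1 = 1 then (if p.2.2 = i p.1 then 1 else X (p.1, Cv.s)) else 1 := by
  obtain ⟨b, a, j⟩ := p
  have ha : ∀ a : Fin 2, a = 0 ∨ a = 1 := by decide
  unfold thetaP nu
  rw [aeval_X]
  rcases ha a with rfl | rfl <;> by_cases hj : j = i b <;>
    simp [pderiv_mul, jac_pd, hj]

theorem jac_A_det {T : ℕ} (i : Fin T → Fin 3) :
    Matrix.det (Matrix.of fun p q : Cx T => pderiv (nu i q) (thetaP i (X p))) = jacS T ^ 2 := by
  have h0 := jac_tri (Matrix.of fun p q : Cx T => pderiv (nu i q) (thetaP i (X p))) (jacw i)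
    (fun p q hpq hw => jac_A_off i p q hpq hw)
  rw [h0]
  simp only [Matrix.of_apply]
  rw [Finset.prod_congr rfl fun p _ => jac_A_diag i p, jac_prod]
  unfold jacS
  rw [← Finset.prod_pow]
  refine Finset.prod_congr rfl fun b _ => ?_
  simp only [zero_ne_one, if_false, if_true, Finset.prod_const_one, one_mul]
  exact jac_fin3 _ _

theorem jac_B_off {T : ℕ} (i : Fin T → Fin 3) (p q : Cx T) (hpq : p ≠ q)
    (hw : jacw i q ≤ jacw i p) : pderiv (nu i q) (tau T (X (nu i p))) = 0 := by
  obtain ⟨b, a, j⟩ := p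
  obtain ⟨b', a', j'⟩ := q
  have ha : ∀ a : Fin 2, a = 0 ∨ a = 1 := by decide
  unfold jacw at hw
  unfold tau nu
  rw [aeval_X]
  by_cases hb : b = b'
  · subst hb
    rcases ha a with rfl | rfl <;> rcases ha a' with rfl | rfl <;>
      by_cases hj : j = i b <;> by_cases hj' : j' = i b <;>
      simp_all [pderiv_mul, jac_pd, pow_two]
  · rcases ha a with rfl | rfl <;> rcases ha a' with rfl | rfl <;>
      by_cases hj : j = i b <;> by_cases hj' : j' = i b' <;>
      simp [pderiv_mul, jac_pd, hb, hj, hj', pow_two]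

theorem jac_B_diag {T : ℕ} (i : Fin T → Fin 3) (p : Cx T) :
    pderiv (nu i p) (tau T (X (nu i p))) =
      if p.2.1 = 0 then (if p.2.2 = i p.1 then X (p.1, Cv.s) else 1) else 1 := by
  obtain ⟨b, a, j⟩ := p
  have ha : ∀ a : Fin 2, a = 0 ∨ a = 1 := by decide
  unfold tau nu
  rw [aeval_X]
  have h2 : (X (b, Cv.x) : P T) + X (b, Cv.x) = 0 := CharTwo.add_self_eq_zero _
  rcases ha a with rfl | rfl <;> by_cases hj : j = i b <;>
    simp [pderiv_mul, jac_pd, hj, pow_two, h2]

theorem jac_B_det {T : ℕ} (i : Fin T → Fin 3) :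
    Matrix.det (Matrix.of fun p q : Cx T => pderiv (nu i q) (tau T (X (nu i p)))) =
      jacS T := by
  have h0 := jac_tri (Matrix.of fun p q : Cx T => pderiv (nu i q) (tau T (X (nu i p)))) (jacw i)
    (fun p q hpq hw => jac_B_off i p q hpq hw)
  rw [h0]
  simp only [Matrix.of_apply]
  rw [Finset.prod_congr rfl fun p _ => jac_B_diag i p, jac_prod]
  unfold jacS
  refine Finset.prod_congr rfl fun b _ => ?_
  simp only [one_ne_zero, if_false, if_true, Finset.prod_const_one, mul_one]
  exact jac_fin3' _ _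

/-! ### The three matrix identities -/

theorem jac_theta {T : ℕ} (i : Fin T → Fin 3) (f : Cx T → MvPolynomial (Cx T) (ZMod 2)) :
    Matrix.det (Matrix.of fun p q : Cx T => pderiv (nu i q) (thetaP i (f p))) =
      thetaP i (jac f) * jacS T ^ 2 := by
  rw [← jac_A_det i, jac, AlgHom.map_det, ← Matrix.det_mul]
  congr 1
  refine Matrix.ext fun p q => ?_
  rw [Matrix.mul_apply, Matrix.of_apply, jac_chain]
  rfl

theorem jac_range {T : ℕ} (i : Fin T → Fin 3) (c : Fin T × Cv) (hc : c ∉ Set.range (nu i))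
    (q : Cx T) : pderiv (nu i q) (tau T (X c)) = 0 := by
  obtain ⟨b, c⟩ := c
  have hx : c ≠ Cv.x := by
    rintro rfl
    apply hc
    exact ⟨(b, 0, i b), by simp [nu]⟩
  unfold tau
  rw [aeval_X]
  simp only [hx, if_false]
  exact pderiv_X_of_ne fun h => hc ⟨q, h.symm⟩

theorem jac_tau {T : ℕ} (i : Fin T → Fin 3) (g : Cx T → P T) :
    Matrix.det (Matrix.of fun p q : Cx T => pderiv (nu i q) (tau T (g p))) =
      tau T (Matrix.det (Matrix.of fun p q : Cx T => pderiv (nu i q) (g p))) * jacS T := by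
  conv_rhs => rw [← jac_B_det i]
  rw [AlgHom.map_det, ← Matrix.det_mul]
  congr 1
  refine Matrix.ext fun p q => ?_
  rw [Matrix.mul_apply, Matrix.of_apply, jac_chain]
  symm
  refine Fintype.sum_of_injective (nu i) (jac_nu_injective i) _
    (fun c => tau T (pderiv c (g p)) * pderiv (nu i q) (tau T (X c))) ?_ ?_
  · intro c hc
    rw [jac_range i c hc, mul_zero]
  · intro c
    rfl

/-- the divisibility of the columns -/
theorem jac_col {T : ℕ} (i : Fin T → Fin 3) (f : Inv (GB T)) (q : Cx T) :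
    (if q.2.2 = i q.1 then 1 else X (q.1, Cv.s) : P T) ∣ pderiv (nu i q) (theta i f) := by
  obtain ⟨b, a, j⟩ := q
  simp only
  by_cases hj : j = i b
  · rw [if_pos hj]
    exact one_dvd _
  · rw [if_neg hj]
    unfold nu
    by_cases ha : a = 1
    · simp only [ha, if_true, hj, if_false]
      exact der_w i b j f
    · simp only [ha, if_false, hj]
      exact der_z i b j f

theorem jac_cols {T : ℕ} (i : Fin T → Fin 3) (f : Cx T → Inv (GB T)) :
    ∃ y : P T, Matrix.det (Matrix.of fun p q : Cx T => pderiv (nu i q) (theta i (f p))) =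
      jacS T ^ 4 * y := by
  choose m hm using fun p q => jac_col i (f p) q
  refine ⟨Matrix.det (Matrix.of m), ?_⟩
  have h1 : (Matrix.of fun p q : Cx T => pderiv (nu i q) (theta i (f p))) =
      Matrix.of fun p q : Cx T =>
        (if q.2.2 = i q.1 then 1 else X (q.1, Cv.s) : P T) * (Matrix.of m) p q := by
    refine Matrix.ext fun p q => ?_
    exact hm p q
  rw [h1, Matrix.det_mul_row (fun q : Cx T => (if q.2.2 = i q.1 then 1 else X (q.1, Cv.s) : P T))]
  congr 1
  rw [jac_prod]
  unfold jacS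
  rw [← Finset.prod_pow]
  refine Finset.prod_congr rfl fun b _ => ?_
  simp only
  rw [jac_fin3]
  ring

theorem jac_main {T : ℕ} (i : Fin T → Fin 3) (f : Cx T → Inv (GB T)) :
    ∃ y : P T, thetaP i (jac fun p => (f p : MvPolynomial (Cx T) (ZMod 2))) =
      jacS T ^ 3 * tau T y := by
  obtain ⟨y, hy⟩ := jac_cols i f
  refine ⟨y, ?_⟩
  have h1 := jac_theta i (fun p => (f p : MvPolynomial (Cx T) (ZMod 2)))
  have h2 := jac_tau i (fun p => theta i (f p))
  simp only [theta_spec] at h2
  rw [h1, hy, map_mul, map_pow, tau_jacS] at h2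
  have h3 : jacS T ^ 2 ≠ 0 := pow_ne_zero _ (jacS_ne_zero T)
  apply mul_right_cancel₀ h3
  rw [h2]
  ring

theorem jac_dvd {T : ℕ} (i : Fin T → Fin 3) (h : Inv (GB T)) (hh : h ∈ jacGen (GB T)) :
    (∏ b : Fin T, (X (b, Cv.s) : P T)) ^ (3 * rr T) ∣ theta i h := by
  obtain ⟨F, hF⟩ := hh
  choose y hy using fun l => jac_main i (F l)
  refine ⟨∏ l, y l, ?_⟩
  apply tau_injective T
  rw [theta_spec, hF, map_prod, Finset.prod_congr rfl fun l _ => hy l, Finset.prod_mul_distrib,
    Finset.prod_const, Finset.card_univ, Fintype.card_fin, ← map_prod, map_mul, map_pow]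
  have h1 := tau_jacS T
  unfold jacS at h1 ⊢
  rw [h1, ← pow_mul]

theorem jac_mem {T : ℕ} (b : Fin T) (h : Inv (GB T)) (hh : h ∈ jacGen (GB T)) :
    (h : MvPolynomial (Cx T) (ZMod 2)) ∈
      Ideal.span (Set.range fun j' : Fin 3 => (X (b, 1, j') : MvPolynomial (Cx T) (ZMod 2))) := by
  obtain ⟨F, hF⟩ := hh
  rw [hF]
  have hr : 0 < Nat.card (GB T) := Nat.card_pos
  refine Ideal.mem_of_dvd _ (Finset.dvd_prod_of_mem _ (Finset.mem_univ (⟨0, hr⟩ : Fin _))) ?_
  unfold jac
  rw [Matrix.det_apply]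
  refine Ideal.sum_mem _ fun σ _ => ?_
  rw [Units.smul_def, zsmul_eq_mul]
  refine Ideal.mul_mem_left _ _ ?_
  refine Ideal.mem_of_dvd _ (Finset.dvd_prod_of_mem _ (Finset.mem_univ (b, 0, 0))) ?_
  exact derS b 0 _

end H48SM
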