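import Pool.Agent.H48.SM.Theta

/-! # Module JACA: the minimal Jacobian order is attained

Proof.  Take `F l = f₀` for all `l`, where `f₀ (b,1,j) = uI b j`, `f₀ (b,0,i b) = NI b (i b)` and
`f₀ (b,0,j) = MI b (i b) j` for `j ≠ i b`.  The Jacobian matrix `(pderiv q (f₀ p))` is block diagonal in `b`;
in block `b` (`i = i b`): rows `(b,1,j)` are the unit vectors of the columns `(b,1,j)`; in the columns
`(b,0,*)` the rows `(b,0,*)` are: `∂N_i/∂x_i = 2 x_i + u_i = u_i`, `∂M_{i,j}/∂x_j = u_i`, `∂M_{i,j}/∂x_i = u_j`,
all others `0`: triangular with diagonal `u_i` (with respect to an order in which `i` comes first).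
So `jac f₀ = ∏ b, X (b,1,i b)^3` (determinant: `Matrix.det_fromBlocks_zero₂₁` after reindexing, or
`Matrix.BlockTriangular`, e.g. with the function `Cx T → ℕ`, or the sum over permutations).
Then `h = (∏ b, uI b (i b))^(3 r)` is in `jacGen` and `theta i h = (∏ b, X (b,s))^(3 r)` (`theta_u_piv`).
-/

set_option autoImplicit false

namespace H48SM

open MvPolynomial

/-- a matrix whose nonzero off-diagonal entries strictly increase a function -/
theorem jaca_det {m R : Type} [Fintype m] [DecidableEq m] [CommRing R] (M : Matrix m m R)
    (κ : m → ℕ) (h : ∀ r c, r ≠ c → κ c ≤ κ r → M r c = 0) : M.det = ∏ r, M r r := by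
  classical
  let key : m → ℕ ×ₗ Fin (Fintype.card m) := fun p => toLex (κ p, Fintype.equivFin m p)
  have hkey : Function.Injective key := by
    intro a b hab
    have h1 : (κ a, Fintype.equivFin m a) = (κ b, Fintype.equivFin m b) := toLex.injective hab
    exact (Fintype.equivFin m).injective (Prod.mk.inj h1).2
  let _ : LinearOrder m := LinearOrder.lift' key hkey
  refine Matrix.det_of_isUpperTriangular ?_
  intro r c hrc
  have h1 : key c < key r := hrc
  have h2 : r ≠ c := by
    rintro rfl
    exact absurd h1 (lt_irrefl _)
  refine h r c h2 ?_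
  rcases Prod.Lex.lt_iff.1 h1 with h3 | h3
  · exact le_of_lt h3
  · exact le_of_eq h3.1

/-- the invariants with the smallest Jacobian -/
noncomputable def jaca_f {T : ℕ} (i : Fin T → Fin 3) (p : Cx T) : Inv (GB T) :=
  if p.2.1 = 1 then uI p.1 p.2.2 else if p.2.2 = i p.1 then NI p.1 p.2.2 else MI p.1 (i p.1) p.2.2

theorem jaca_jac {T : ℕ} (i : Fin T → Fin 3) :
    jac (fun p => (jaca_f i p : MvPolynomial (Cx T) (ZMod 2))) =
      ∏ b : Fin T, (X (b, 1, i b) : MvPolynomial (Cx T) (ZMod 2)) ^ 3 := by
  unfold jac
  have h2 : (2 : MvPolynomial (Cx T) (ZMod 2)) = 0 := CharTwo.two_eq_zero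
  rw [jaca_det _ (fun p => if p.2.1 = 1 then 2 else if p.2.2 = i p.1 then 1 else 0)]
  · have hdiag : ∀ p : Cx T, (Matrix.of fun p q => pderiv q
        (jaca_f i p : MvPolynomial (Cx T) (ZMod 2))) p p =
        if p.2.1 = 1 then 1 else X (p.1, 1, i p.1) := by
      rintro ⟨b, a, j⟩
      simp only [Matrix.of_apply, jaca_f]
      by_cases ha : a = 1
      · subst ha
        simp [uI]
      · have ha0 : a = 0 := by omega
        subst ha0
        by_cases hj : j = i b
        · subst hj
          simp only [zero_ne_one, if_false, if_true, NI, map_add, Derivation.leibniz,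
            Derivation.leibniz_pow, pderiv_X_self, smul_eq_mul, mul_one]
          rw [pderiv_X_of_ne (by simp)]
          simp [h2]
        · simp only [zero_ne_one, if_false, hj, MI, map_add, Derivation.leibniz, pderiv_X_self,
            smul_eq_mul, mul_one]
          rw [pderiv_X_of_ne (by simp), pderiv_X_of_ne (by simp [Ne.symm hj]),
            pderiv_X_of_ne (by simp)]
          simp
    rw [Finset.prod_congr rfl fun p _ => hdiag p]
    rw [Fintype.prod_prod_type]
    refine Finset.prod_congr rfl fun b _ => ?_
    rw [Fintype.prod_prod_type]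
    simp [Fin.prod_univ_succ]
  · rintro ⟨b, a, j⟩ ⟨b', a', j'⟩ hne hle
    simp only [Matrix.of_apply, jaca_f] at hle ⊢
    by_cases ha : a = 1
    · subst ha
      simp only [if_true, uI]
      exact pderiv_X_of_ne hne
    · have ha0 : a = 0 := by omega
      subst ha0
      by_cases hj : j = i b
      · subst hj
        simp only [zero_ne_one, if_false, if_true] at hle ⊢
        by_cases ha' : a' = 1
        · subst ha'
          simp at hle
        · have ha0' : a' = 0 := by omega
          subst ha0'
          simp only [NI, map_add, Derivation.leibniz, Derivation.leibniz_pow, smul_eq_mul]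
          rw [pderiv_X_of_ne hne, pderiv_X_of_ne (by simp)]
          simp
      · simp only [zero_ne_one, if_false, hj] at hle ⊢
        by_cases ha' : a' = 1
        · subst ha'
          simp at hle
        · have ha0' : a' = 0 := by omega
          subst ha0'
          by_cases hj' : j' = i b'
          · subst hj'
            simp at hle
          · simp only [MI, map_add, Derivation.leibniz, smul_eq_mul]
            have h3 : (b, (0 : Fin 2), i b) ≠ (b', (0 : Fin 2), j') := by
              intro h4
              simp only [Prod.mk.injEq, true_and] at h4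
              obtain ⟨h5, h6⟩ := h4
              subst h5
              exact hj' h6.symm
            rw [pderiv_X_of_ne (by simp), pderiv_X_of_ne h3, pderiv_X_of_ne (by simp),
              pderiv_X_of_ne hne]
            simp

theorem jac_attained {T : ℕ} (i : Fin T → Fin 3) :
    ∃ h ∈ jacGen (GB T), theta i h = (∏ b : Fin T, (X (b, Cv.s) : P T)) ^ (3 * Nat.card (GB T)) := by
  refine ⟨(∏ b : Fin T, uI b (i b)) ^ (3 * Nat.card (GB T)), ⟨fun _ => jaca_f i, ?_⟩, ?_⟩
  · simp only [jaca_jac, Finset.prod_const, Finset.card_univ, Fintype.card_fin]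
    rw [Finset.prod_pow, ← pow_mul]
    push_cast
    rfl
  · rw [map_pow, map_prod]
    simp only [theta_u_piv]

end H48SM
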