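import Pool.Agent.H48.SM.Zero
import Pool.Agent.H48.SM.JacA

/-! # Module ORD: the order function in the chart

Proof.  For `h ∈ jacGen`: `theta i h = (∏ X (b,s))^(3r) * y` (`jac_dvd`), so `order (γ h) = order (α (theta i h)) ≥
3 r ∑ order (α s_b) = 3 r ∑ e_b` (`PowerSeries.order_mul`, `order_pow`, `order_prod`: over a field the order is
additive); equality for the `h` of `jac_attained`.  (`iInf` over `h ∈ jacGen`: `le_antisymm`, `iInf₂_le`, `le_iInf₂`.)
-/

set_option autoImplicit false

namespace H48SM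

open MvPolynomial

theorem ord_prod {T : ℕ} {K : Type} [Field K] [Algebra (ZMod 2) K]
    (α : P T →ₐ[ZMod 2] PowerSeries K) (e : Fin T → ℕ)
    (he : ∀ b, (α (X (b, Cv.s))).order = e b) (F : Finset (Fin T)) :
    (∏ b ∈ F, α (X (b, Cv.s))).order = ((∑ b ∈ F, e b : ℕ) : ℕ∞) := by
  classical
  induction F using Finset.induction_on with
  | empty => simp
  | insert b F hb ih =>
    rw [Finset.prod_insert hb, PowerSeries.order_mul, ih, he, Finset.sum_insert hb]
    push_cast
    rfl

theorem ord_pow {K : Type} [Field K] (f : PowerSeries K) (m : ℕ) :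
    (f ^ m).order = m * f.order := by
  induction m with
  | zero => simp
  | succ m ih =>
    rw [pow_succ, PowerSeries.order_mul, ih]
    push_cast
    rw [add_mul, one_mul]

theorem ordF_chart {T : ℕ} {K : Type} [Field K] [Algebra (ZMod 2) K] (i : Fin T → Fin 3)
    (α : P T →ₐ[ZMod 2] PowerSeries K) (γ : Arc (GB T) K) (hγ : ∀ f, γ f = α (theta i f))
    (e : Fin T → ℕ) (he : ∀ b, (α (X (b, Cv.s))).order = e b) :
    ordF (GB T) γ = ((3 * rr T * ∑ b, e b : ℕ) : ℕ∞) := by
  have hord : (α ((∏ b : Fin T, (X (b, Cv.s) : P T)) ^ (3 * rr T))).order =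
      ((3 * rr T * ∑ b, e b : ℕ) : ℕ∞) := by
    rw [map_pow, map_prod, ord_pow, ord_prod α e he]
    push_cast
    rfl
  unfold ordF
  apply le_antisymm
  · obtain ⟨h, hh, hth⟩ := jac_attained i
    refine (iInf₂_le h hh).trans ?_
    rw [hγ, hth, hord]
  · refine le_iInf₂ (fun h hh => ?_)
    obtain ⟨y, hy⟩ := jac_dvd i h hh
    rw [hγ, hy, map_mul, PowerSeries.order_mul, hord]
    exact le_self_add

end H48SM
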