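import Pool.Agent.H48.SM.Evd
import Pool.Agent.H48.SM.Ord
import Pool.Agent.H48.SM.Arc

/-! # Module JSE: the jet sets -/

set_option autoImplicit false

namespace H48SM

open MvPolynomial

/-- the pivot of three power series, not all zero -/
theorem jse_pivot {K : Type} [Field K] (f : Fin 3 → PowerSeries K) (h : ∃ j, f j ≠ 0) :
    ∃ (i : Fin 3) (e : ℕ), (f i).order = e ∧ f i ≠ 0 ∧ (∀ j, f i ∣ f j) ∧
      ∀ j < i, (e : ℕ∞) < (f j).order := by
  classical
  have hne : (Finset.univ : Finset (Fin 3)).Nonempty := Finset.univ_nonempty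
  obtain ⟨i₀, -, hi₀⟩ := Finset.exists_min_image Finset.univ (fun j => (f j).order) hne
  set S : Finset (Fin 3) := Finset.univ.filter fun j => (f j).order ≤ (f i₀).order with hS
  have hSne : S.Nonempty := ⟨i₀, by rw [hS, Finset.mem_filter]; exact ⟨Finset.mem_univ _, le_rfl⟩⟩
  set i := S.min' hSne with hi
  have hiS : i ∈ S := Finset.min'_mem S hSne
  have hio : (f i).order ≤ (f i₀).order := (Finset.mem_filter.mp hiS).2
  have hmin : ∀ j, (f i).order ≤ (f j).order := fun j => hio.trans (hi₀ j (Finset.mem_univ j))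
  have hi0 : f i ≠ 0 := by
    obtain ⟨j, hj⟩ := h
    intro h0
    have := hmin j
    rw [h0, PowerSeries.order_zero, top_le_iff, PowerSeries.order_eq_top] at this
    exact hj this
  have hfin : (f i).order ≠ ⊤ := by
    intro h0
    exact hi0 (PowerSeries.order_eq_top.mp h0)
  refine ⟨i, (f i).order.toNat, (ENat.natCast_toNat hfin).symm, hi0, ?_, ?_⟩
  · intro j
    have h1 : PowerSeries.X ^ (f i).order.toNat ∣ f j := by
      rw [PowerSeries.X_pow_dvd_iff]
      intro m hm
      apply PowerSeries.coeff_of_lt_order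
      refine lt_of_lt_of_le ?_ (hmin j)
      rw [← ENat.natCast_toNat hfin]
      exact_mod_cast hm
    have h2 : f i ∣ PowerSeries.X ^ (f i).order.toNat := by
      have hu := PowerSeries.isUnit_divided_by_X_pow_order hi0
      have h3 : PowerSeries.X ^ (f i).order.toNat * (f i).divXPowOrder = f i :=
        PowerSeries.X_pow_order_mul_divXPowOrder
      have h4 := (hu.mul_right_dvd (a := PowerSeries.X ^ (f i).order.toNat)
        (b := PowerSeries.X ^ (f i).order.toNat)).mpr dvd_rfl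
      rwa [h3] at h4
    exact h2.trans h1
  · intro j hj
    rw [ENat.natCast_toNat hfin]
    refine lt_of_le_of_ne (hmin j) ?_
    intro heq
    have hjS : j ∈ S := by
      rw [hS, Finset.mem_filter]
      exact ⟨Finset.mem_univ _, heq ▸ hio⟩
    exact absurd (Finset.min'_le S j hjS) (not_le.mpr hj)

/-- the pivots and the lift of an arc with finite order function -/
theorem jse_lift {T : ℕ} {K : Type} [Field K] [Algebra (ZMod 2) K] (γ : Arc (GB T) K)
    (hγ : ordF (GB T) γ ≠ ⊤) :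
    ∃ (e : Fin T → ℕ) (i : Fin T → Fin 3) (α : P T →ₐ[ZMod 2] PowerSeries K),
      (∀ f, γ f = α (theta i f)) ∧ (∀ b, (α (X (b, Cv.s))).order = e b) ∧
      (∀ b j, j < i b → PowerSeries.constantCoeff (α (X (b, Cv.w j))) = 0) ∧
      (∀ b, α (X (b, Cv.w (i b))) = 0 ∧ α (X (b, Cv.z (i b))) = 0) ∧
      ordF (GB T) γ = ((3 * rr T * ∑ b, e b : ℕ) : ℕ∞) := by
  have hne : ∀ b, ∃ j, γ (uI b j) ≠ 0 := by
    intro b
    by_contra hcon
    push Not at hcon
    exact hγ (ordF_top γ b hcon)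
  choose i e he hi0 hd hlt using fun b => jse_pivot (fun j => γ (uI b j)) (hne b)
  obtain ⟨α, hα, hdum⟩ := arc_lift γ i hi0 hd
  have hs : ∀ b, α (X (b, Cv.s)) = γ (uI b (i b)) := by
    intro b
    rw [hα, theta_u_piv]
  have hord : ∀ b, (α (X (b, Cv.s))).order = e b := by
    intro b
    rw [hs]
    exact he b
  refine ⟨e, i, α, hα, hord, ?_, hdum, ordF_chart i α γ hα e hord⟩
  intro b j hj
  have h1 : γ (uI b j) = α (X (b, Cv.s)) * α (X (b, Cv.w j)) := by
    rw [hα, theta_u i b j hj.ne, map_mul]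
  have h2 := hlt b j hj
  rw [h1, PowerSeries.order_mul, hord] at h2
  by_contra h3
  have h4 : (α (X (b, Cv.w j))).order = ((0 : ℕ) : ℕ∞) :=
    PowerSeries.order_eq_nat.mpr ⟨by
      rw [PowerSeries.coeff_zero_eq_constantCoeff_apply]
      exact h3, fun i hi => absurd hi (Nat.not_lt_zero i)⟩
  rw [h4, Nat.cast_zero, add_zero] at h2
  exact lt_irrefl _ h2

theorem mem_jetSet {T E n : ℕ} (hn : 2 * E ≤ n)
    (p : PrimeSpectrum (MvPolynomial (Inv (GB T) × Fin (n + 1)) (ZMod 2))) :
    p ∈ jetSet (GB T) n (3 * rr T * E) ↔ ∃ (e : Fin T → ℕ) (i : Fin T → Fin 3)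
      (h : ∀ b, e b ≤ n), ∑ b, e b = E ∧
      p ∈ Set.range (PrimeSpectrum.comap (psi e i n h).toRingHom) := by
  constructor
  · rintro ⟨K, _, _, γ, hγ, hp⟩
    have hfin : ordF (GB T) γ ≠ ⊤ := by
      rw [hγ]
      exact ENat.natCast_ne_top _
    obtain ⟨e, i, α, hα, he, hw, hdum, hF⟩ := jse_lift γ hfin
    have hsum : ∑ b, e b = E := by
      rw [hγ] at hF
      have h1 : 3 * rr T * E = 3 * rr T * ∑ b, e b := by exact_mod_cast hF
      have h2 : 0 < 3 * rr T := by
        have : 0 < rr T := Nat.card_pos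
        omega
      exact (Nat.eq_of_mul_eq_mul_left h2 h1).symm
    have hle : ∀ b, e b ≤ E := by
      intro b
      rw [← hsum]
      exact Finset.single_le_sum (fun _ _ => Nat.zero_le _) (Finset.mem_univ b)
    have h : ∀ b, e b ≤ n := fun b => by
      have := hle b
      omega
    obtain ⟨ev, hev⟩ := jet_of_arc e i n h (fun b => by have := hle b; omega) α γ hα he hw hdum
    refine ⟨e, i, h, hsum, ?_⟩
    have hprime : (RingHom.ker ev.toRingHom).IsPrime := RingHom.ker_isPrime _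
    refine ⟨⟨RingHom.ker ev.toRingHom, hprime⟩, ?_⟩
    apply PrimeSpectrum.ext
    rw [PrimeSpectrum.comap_asIdeal, hp]
    ext x
    rw [Ideal.mem_comap, RingHom.mem_ker, RingHom.mem_ker]
    have : (jet (GB T) n γ) x = ev ((psi e i n h) x) := DFunLike.congr_fun hev x
    change ev ((psi e i n h) x) = 0 ↔ jet (GB T) n γ x = 0
    rw [this]
  · rintro ⟨e, i, h, hsum, q, rfl⟩
    set ev : DR e i n h →ₐ[ZMod 2] q.asIdeal.ResidueField :=
      IsScalarTower.toAlgHom (ZMod 2) (DR e i n h) q.asIdeal.ResidueField with hev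
    obtain ⟨α, γ, hα, he, hjet⟩ := arc_of_ev e i n h ev
    refine ⟨q.asIdeal.ResidueField, inferInstance, inferInstance, γ, ?_, ?_⟩
    · rw [ordF_chart i α γ hα e he, hsum]
    · rw [PrimeSpectrum.comap_asIdeal]
      ext x
      rw [Ideal.mem_comap, RingHom.mem_ker, hjet]
      have hk := Ideal.ker_algebraMap_residueField q.asIdeal
      conv_lhs => rw [← hk]
      rw [RingHom.mem_ker]
      rfl

theorem jetSet_empty {T n e : ℕ} (h : ¬ 3 * rr T ∣ e) : jetSet (GB T) n e = ∅ := by
  rw [Set.eq_empty_iff_forall_notMem]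
  rintro p ⟨K, _, _, γ, hγ, hp⟩
  have hfin : ordF (GB T) γ ≠ ⊤ := by
    rw [hγ]
    exact ENat.natCast_ne_top _
  obtain ⟨e', i, α, hα, he, hw, hdum, hF⟩ := jse_lift γ hfin
  rw [hγ] at hF
  apply h
  refine ⟨∑ b, e' b, ?_⟩
  exact_mod_cast hF

end H48SM
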