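import Pool.Agent.H48.SM.Pcb

/-! # Module PC: counting points is a realisation

Proof.  `F = GaloisField 2 (r t)` is a finite field with `2^(r t)` elements (`GaloisField.card`).  `RingQuot.lift` of
`MvPolynomial.eval₂Hom (Int.castRingHom ℝ)` with `cls X ↦ #(X.A →ₐ F)`, `q ↦ 2^t`, `qi ↦ (2^t)⁻¹`; check the seven relations (`iso`: composition with the
equivalence; `prod`: `card_tensor`; `pt`: `ZMod 2 →ₐ F` is unique; `scissor`: `card_scissor`; `root`: `Polynomial (ZMod 2) →ₐ F` is `F`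
(`Polynomial.aeval`), `(2^t)^r = 2^(r t)`; `homeo`: `card_homeo`).  `Aff.prod` etc. unfold by `rfl`.
-/

set_option autoImplicit false

open scoped TensorProduct

namespace H48SM

/-- the values of the generators -/
noncomputable def pc_val (F : Type) [Field F] [Algebra (ZMod 2) F] (t : ℕ) : Gen (ZMod 2) → ℝ
  | Gen.cls X => (Nat.card (X.A →ₐ[ZMod 2] F) : ℝ)
  | Gen.q => 2 ^ t
  | Gen.qi => (2 ^ t)⁻¹

theorem pc_rel (β : Prop) {r t : ℕ} (F : Type) [Field F] [Finite F] [Algebra (ZMod 2) F]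
    (hF : Nat.card F = 2 ^ (r * t)) ⦃x y : MvPolynomial (Gen (ZMod 2)) ℤ⦄
    (h : Rel (ZMod 2) r β x y) :
    MvPolynomial.eval₂Hom (Int.castRingHom ℝ) (pc_val F t) x =
      MvPolynomial.eval₂Hom (Int.castRingHom ℝ) (pc_val F t) y := by
  cases h with
  | iso X Y e =>
    rw [MvPolynomial.eval₂Hom_X', MvPolynomial.eval₂Hom_X']
    show (Nat.card (X.A →ₐ[ZMod 2] F) : ℝ) = (Nat.card (Y.A →ₐ[ZMod 2] F) : ℝ)
    rw [Nat.card_congr (AlgEquiv.arrowCongr e (AlgEquiv.refl : F ≃ₐ[ZMod 2] F))]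
  | prod X Y =>
    rw [map_mul, MvPolynomial.eval₂Hom_X', MvPolynomial.eval₂Hom_X', MvPolynomial.eval₂Hom_X']
    have h1 := card_tensor X.A Y.A F
    show (Nat.card (X.A ⊗[ZMod 2] Y.A →ₐ[ZMod 2] F) : ℝ) =
      (Nat.card (X.A →ₐ[ZMod 2] F) : ℝ) * (Nat.card (Y.A →ₐ[ZMod 2] F) : ℝ)
    rw [h1, Nat.cast_mul]
  | pt =>
    rw [map_one, MvPolynomial.eval₂Hom_X']
    show (Nat.card (ZMod 2 →ₐ[ZMod 2] F) : ℝ) = 1
    have h1 : Nat.card (ZMod 2 →ₐ[ZMod 2] F) = 1 :=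
      Nat.card_eq_one_iff_unique.2 ⟨inferInstance, ⟨Algebra.ofId (ZMod 2) F⟩⟩
    rw [h1, Nat.cast_one]
  | scissor X f =>
    rw [map_add, MvPolynomial.eval₂Hom_X', MvPolynomial.eval₂Hom_X', MvPolynomial.eval₂Hom_X']
    have h1 := card_scissor X.A f F
    show (Nat.card (X.A →ₐ[ZMod 2] F) : ℝ) =
      (Nat.card (X.A ⧸ Ideal.span {f} →ₐ[ZMod 2] F) : ℝ) +
        (Nat.card (Localization.Away f →ₐ[ZMod 2] F) : ℝ)
    rw [h1, Nat.cast_add]
  | inv =>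
    rw [map_mul, map_one, MvPolynomial.eval₂Hom_X', MvPolynomial.eval₂Hom_X']
    show (2 : ℝ) ^ t * (2 ^ t)⁻¹ = 1
    exact mul_inv_cancel₀ (pow_ne_zero _ two_ne_zero)
  | root =>
    rw [map_pow, MvPolynomial.eval₂Hom_X', MvPolynomial.eval₂Hom_X']
    show ((2 : ℝ) ^ t) ^ r = (Nat.card (Polynomial (ZMod 2) →ₐ[ZMod 2] F) : ℝ)
    let E : (Polynomial (ZMod 2) →ₐ[ZMod 2] F) ≃ F :=
      { toFun := fun φ => φ Polynomial.X
        invFun := fun x => Polynomial.aeval x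
        left_inv := fun φ => Polynomial.algHom_ext (by simp)
        right_inv := fun x => by simp }
    rw [Nat.card_congr E, hF, ← pow_mul, mul_comm t r]
    push_cast
    rfl
  | homeo hβ X Y f hf =>
    rw [MvPolynomial.eval₂Hom_X', MvPolynomial.eval₂Hom_X']
    show (Nat.card (X.A →ₐ[ZMod 2] F) : ℝ) = (Nat.card (Y.A →ₐ[ZMod 2] F) : ℝ)
    rw [card_homeo X Y f hf F]

theorem exists_pc (β : Prop) {r t : ℕ} (hr : 0 < r) (ht : 0 < t) :
    ∃ c : Mot (ZMod 2) r β →+* ℝ, IsPC r t c := by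
  have hF : Nat.card (GaloisField 2 (r * t)) = 2 ^ (r * t) :=
    GaloisField.card 2 (r * t) (Nat.mul_pos hr ht).ne'
  let c : RingQuot (Rel (ZMod 2) r β) →+* ℝ := RingQuot.lift
    ⟨MvPolynomial.eval₂Hom (Int.castRingHom ℝ) (pc_val (GaloisField 2 (r * t)) t),
      pc_rel β (GaloisField 2 (r * t)) hF⟩
  refine ⟨c, ⟨fun X => ?_, ?_⟩⟩
  · show RingQuot.lift _ (RingQuot.mkRingHom (Rel (ZMod 2) r β) (MvPolynomial.X (Gen.cls X))) = _
    rw [RingQuot.lift_mkRingHom_apply, MvPolynomial.eval₂Hom_X']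
    rfl
  · show RingQuot.lift _ (RingQuot.mkRingHom (Rel (ZMod 2) r β) (MvPolynomial.X Gen.q)) = _
    rw [RingQuot.lift_mkRingHom_apply, MvPolynomial.eval₂Hom_X']
    rfl

end H48SM
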