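import Pool.Agent.H48.SM.Data

/-! # Module PCA: homomorphisms to a finite field

Proofs.  For `A` of finite type the set `A →ₐ[ZMod 2] F` is finite (`finite_hom`: `A` is a quotient of a polynomial ring in finitely many
variables, a homomorphism is determined by the images of the generators).  `card_tensor`: `Algebra.TensorProduct.liftEquiv` (commutative
case) gives `(A ⊗ B →ₐ F) ≃ (A →ₐ F) × (B →ₐ F)`.  `card_scissor`: split the homomorphisms `φ` according to `φ f = 0` (they factor
uniquely through `A ⧸ (f)`: `Ideal.Quotient.liftₐ`) or `φ f ≠ 0`, a unit (they factor uniquely through `Localization.Away f`).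
-/

set_option autoImplicit false

open scoped TensorProduct

namespace H48SM

theorem finite_hom (A : Type) [CommRing A] [Algebra (ZMod 2) A] [Algebra.FiniteType (ZMod 2) A]
    (F : Type) [Field F] [Finite F] [Algebra (ZMod 2) F] : Finite (A →ₐ[ZMod 2] F) := by
  obtain ⟨n, f, hf⟩ := Algebra.FiniteType.iff_quotient_mvPolynomial''.1
    (inferInstance : Algebra.FiniteType (ZMod 2) A)
  refine Finite.of_injective (fun φ : A →ₐ[ZMod 2] F => fun i : Fin n => φ (f (MvPolynomial.X i))) ?_
  intro φ ψ h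
  have h1 : φ.comp f = ψ.comp f := by
    apply MvPolynomial.algHom_ext
    intro i
    exact congrFun h i
  apply AlgHom.ext
  intro a
  obtain ⟨p, rfl⟩ := hf a
  exact DFunLike.congr_fun h1 p

theorem card_tensor (A B : Type) [CommRing A] [Algebra (ZMod 2) A] [CommRing B]
    [Algebra (ZMod 2) B] (F : Type) [Field F] [Algebra (ZMod 2) F] :
    Nat.card (A ⊗[ZMod 2] B →ₐ[ZMod 2] F) =
      Nat.card (A →ₐ[ZMod 2] F) * Nat.card (B →ₐ[ZMod 2] F) := by
  rw [← Nat.card_prod]
  refine Nat.card_congr ?_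
  exact (Algebra.TensorProduct.liftEquiv (R := ZMod 2) (S := ZMod 2) (A := A) (B := B)
    (C := F)).symm.trans (Equiv.subtypeUnivEquiv fun fg x y => Commute.all _ _)

theorem card_scissor (A : Type) [CommRing A] [Algebra (ZMod 2) A]
    [Algebra.FiniteType (ZMod 2) A] (f : A) (F : Type) [Field F] [Finite F]
    [Algebra (ZMod 2) F] :
    Nat.card (A →ₐ[ZMod 2] F) = Nat.card (A ⧸ Ideal.span {f} →ₐ[ZMod 2] F) +
      Nat.card (Localization.Away f →ₐ[ZMod 2] F) := by
  classical
  have hfin := finite_hom A F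
  have h1 : Nat.card (A ⧸ Ideal.span {f} →ₐ[ZMod 2] F) =
      Nat.card {φ : A →ₐ[ZMod 2] F // φ f = 0} := by
    refine Nat.card_congr (Equiv.ofBijective (fun ψ : A ⧸ Ideal.span {f} →ₐ[ZMod 2] F =>
      (⟨ψ.comp (Ideal.Quotient.mkₐ (ZMod 2) (Ideal.span {f})), ?_⟩ :
        {φ : A →ₐ[ZMod 2] F // φ f = 0})) ⟨?_, ?_⟩)
    · have h2 : Ideal.Quotient.mk (Ideal.span {f}) f = 0 :=
        Ideal.Quotient.eq_zero_iff_mem.2 (Ideal.mem_span_singleton_self f)
      show ψ (Ideal.Quotient.mk (Ideal.span {f}) f) = 0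
      rw [h2, map_zero]
    · intro ψ ψ' h
      apply Ideal.Quotient.algHom_ext
      exact congrArg Subtype.val h
    · rintro ⟨φ, hφ⟩
      refine ⟨Ideal.Quotient.liftₐ (Ideal.span {f}) φ ?_, ?_⟩
      · intro a ha
        obtain ⟨b, rfl⟩ := Ideal.mem_span_singleton'.1 ha
        rw [map_mul, hφ, mul_zero]
      · apply Subtype.ext
        exact Ideal.Quotient.liftₐ_comp _ _ _
  have h2 : Nat.card (Localization.Away f →ₐ[ZMod 2] F) =
      Nat.card {φ : A →ₐ[ZMod 2] F // ¬ φ f = 0} := by
    refine Nat.card_congr (Equiv.ofBijective (fun ψ : Localization.Away f →ₐ[ZMod 2] F =>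
      (⟨ψ.comp (IsScalarTower.toAlgHom (ZMod 2) A (Localization.Away f)), ?_⟩ :
        {φ : A →ₐ[ZMod 2] F // ¬ φ f = 0})) ⟨?_, ?_⟩)
    · have h3 : IsUnit (algebraMap A (Localization.Away f) f) :=
        IsLocalization.Away.algebraMap_isUnit f
      have h4 : IsUnit (ψ (algebraMap A (Localization.Away f) f)) := h3.map ψ
      exact h4.ne_zero
    · intro ψ ψ' h
      have h3 : ψ.comp (IsScalarTower.toAlgHom (ZMod 2) A (Localization.Away f)) =
          ψ'.comp (IsScalarTower.toAlgHom (ZMod 2) A (Localization.Away f)) :=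
        congrArg Subtype.val h
      apply AlgHom.coe_ringHom_injective
      apply IsLocalization.ringHom_ext (Submonoid.powers f)
      apply RingHom.ext
      intro a
      exact DFunLike.congr_fun h3 a
    · rintro ⟨φ, hφ⟩
      have hu : ∀ y : Submonoid.powers f, IsUnit (φ y) := by
        rintro ⟨y, n, rfl⟩
        show IsUnit (φ (f ^ n))
        rw [map_pow]
        exact (IsUnit.mk0 _ hφ).pow n
      refine ⟨IsLocalization.liftAlgHom (M := Submonoid.powers f) (f := φ) hu, ?_⟩
      apply Subtype.ext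
      apply AlgHom.ext
      intro a
      exact IsLocalization.lift_eq _ _
  rw [h1, h2, ← Nat.card_sum]
  exact Nat.card_congr (Equiv.sumCompl _).symm

end H48SM
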