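import Pool.Agent.H48.SM.Pca

/-! # Module PCB: geometrically bijective morphisms are bijective on rational points over finite fields

Proof.  Composition with `f` is a bijection `(Y.A →ₐ F) → (X.A →ₐ F)`.  Let `K = AlgebraicClosure F`, `ι = algebraMap F K`
(as an algebra homomorphism over `ZMod 2`).  Injective: if `φ ∘ f = φ' ∘ f` then `(ι φ) ∘ f = (ι φ') ∘ f`, so `ι φ = ι φ'`, `φ = φ'`.
Surjective: for `χ : X.A → F` there is a unique `Φ : Y.A → K` with `Φ ∘ f = ι χ`.  Let `σ x = x ^ #F`, an algebra endomorphism of `K` over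
`ZMod 2` (`frobenius`, `iterateFrobenius`, `frobeniusAlgHom`), fixing exactly `F` (roots of `X^q - X`; `FiniteField.pow_card`).
`(σ Φ) ∘ f = σ ι χ = ι χ`, so `σ Φ = Φ`: `Φ` has values in the range of `ι`.  (`AlgebraicClosure F` is a `ZMod 2`-algebra through `F`.)
-/

set_option autoImplicit false

open scoped TensorProduct

namespace H48SM

/-- the elements of an extension field fixed by `x ↦ x ^ #F` are the elements of the finite field `F` -/
theorem pcb_fixed (F K : Type) [Field F] [Fintype F] [Field K] [Algebra F K] (x : K)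
    (hx : x ^ Fintype.card F = x) : ∃ y : F, algebraMap F K y = x := by
  classical
  by_contra hne
  push Not at hne
  have hq : 1 < Fintype.card F := Fintype.one_lt_card
  set P : Polynomial K := Polynomial.X ^ Fintype.card F - Polynomial.X with hP
  have hdeg : P.natDegree = Fintype.card F := FiniteField.X_pow_card_sub_X_natDegree_eq K hq
  have hP0 : P ≠ 0 := by
    intro h0
    rw [h0, Polynomial.natDegree_zero] at hdeg
    omega
  have hsub : insert x (Finset.univ.image (algebraMap F K)) ⊆ P.roots.toFinset := by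
    intro z hz
    rw [Multiset.mem_toFinset, Polynomial.mem_roots hP0, Polynomial.IsRoot.def, hP,
      Polynomial.eval_sub, Polynomial.eval_pow, Polynomial.eval_X]
    rcases Finset.mem_insert.1 hz with rfl | hz
    · rw [hx, sub_self]
    · obtain ⟨y, -, rfl⟩ := Finset.mem_image.1 hz
      rw [← map_pow, FiniteField.pow_card, sub_self]
  have hcard : (insert x (Finset.univ.image (algebraMap F K))).card = Fintype.card F + 1 := by
    rw [Finset.card_insert_of_notMem, Finset.card_image_of_injective _ (algebraMap F K).injective,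
      Finset.card_univ]
    intro hmem
    obtain ⟨y, -, hy⟩ := Finset.mem_image.1 hmem
    exact hne y hy
  have h1 := Finset.card_le_card hsub
  have h2 := Multiset.toFinset_card_le P.roots
  have h3 := Polynomial.card_roots' P
  omega

theorem card_homeo (X Y : Aff (ZMod 2)) (f : X.A →ₐ[ZMod 2] Y.A)
    (hf : ∀ (K : Type) [Field K] [Algebra (ZMod 2) K] [IsAlgClosed K],
      Function.Bijective fun φ : Y.A →ₐ[ZMod 2] K => φ.comp f)
    (F : Type) [Field F] [Finite F] [Algebra (ZMod 2) F] :
    Nat.card (X.A →ₐ[ZMod 2] F) = Nat.card (Y.A →ₐ[ZMod 2] F) := by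
  classical
  have : Fintype F := Fintype.ofFinite F
  obtain ⟨hinj, hsurj⟩ := hf (AlgebraicClosure F)
  set ι : F →ₐ[ZMod 2] AlgebraicClosure F := IsScalarTower.toAlgHom (ZMod 2) F (AlgebraicClosure F)
    with hι
  have hιinj : Function.Injective ι := (algebraMap F (AlgebraicClosure F)).injective
  have hιa : ∀ y, ι y = algebraMap F (AlgebraicClosure F) y := fun y => rfl
  set σ : AlgebraicClosure F →ₐ[ZMod 2] AlgebraicClosure F :=
    (FiniteField.frobeniusAlgHom F (AlgebraicClosure F)).restrictScalars (ZMod 2) with hσ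
  have hσa : ∀ x, σ x = x ^ Fintype.card F := fun x => rfl
  symm
  refine Nat.card_eq_of_bijective (fun φ : Y.A →ₐ[ZMod 2] F => φ.comp f) ⟨?_, ?_⟩
  · intro φ φ' h
    have h1 : (ι.comp φ).comp f = (ι.comp φ').comp f := by
      have h' : φ.comp f = φ'.comp f := h
      rw [AlgHom.comp_assoc, h', ← AlgHom.comp_assoc]
    have h2 := hinj h1
    refine AlgHom.ext fun a => hιinj ?_
    exact DFunLike.congr_fun h2 a
  · intro χ
    obtain ⟨Φ, hΦ⟩ := hsurj (ι.comp χ)
    have hΦ' : ∀ a, Φ (f a) = ι (χ a) := fun a => DFunLike.congr_fun hΦ a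
    have h1 : (σ.comp Φ).comp f = Φ.comp f := by
      refine AlgHom.ext fun a => ?_
      change σ (Φ (f a)) = Φ (f a)
      rw [hΦ', hσa, ← map_pow, FiniteField.pow_card]
    have h2 : σ.comp Φ = Φ := hinj h1
    have h3 : ∀ b, Φ b ^ Fintype.card F = Φ b := fun b => DFunLike.congr_fun h2 b
    have h4 : ∀ b, ∃ y : F, ι y = Φ b := fun b => pcb_fixed F (AlgebraicClosure F) (Φ b) (h3 b)
    choose g hg using h4
    let G : Y.A →ₐ[ZMod 2] F :=
      { toFun := g
        map_one' := hιinj (by rw [hg, map_one, map_one])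
        map_mul' := fun a b => hιinj (by rw [hg, map_mul, map_mul, hg, hg])
        map_zero' := hιinj (by rw [hg, map_zero, map_zero])
        map_add' := fun a b => hιinj (by rw [hg, map_add, map_add, hg, hg])
        commutes' := fun r => hιinj (by rw [hg, AlgHom.commutes, AlgHom.commutes]) }
    refine ⟨G, AlgHom.ext fun a => hιinj ?_⟩
    change ι (g (f a)) = ι (χ a)
    rw [hg, hΦ']

end H48SM
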