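import Pool.Agent.H48.SM.Inv1
import Pool.Agent.H48.SM.El

/-! # Module THE: the chart homomorphism `θ_i : k[V]^G → P T`

Proofs. `theta_exists`: for `f ∈ Inv` the polynomial `thetaP i f` is `sig b`-invariant
(`thetaP_subst`, and `gm (Pi.single b 1) ∈ GB T`), so `= tau g` (`exists_tau`), `g` unique
(`tau_injective`); multiplicativity etc. by injectivity of `tau` (or use
`AlgEquiv.ofInjective (tau T) _` and `AlgHom.codRestrict`).
`thetaP_injective`: after inverting the `s_b` the map is an isomorphism; elementary: the `AlgHom`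
`ρ : P T → FractionRing (MvPolynomial (Cx T) (ZMod 2))` with `s_b ↦ u_{b,i}`, `w_j ↦ u_j / u_i`,
`x_b ↦ x_{b,i}`, `z_j ↦ x_j - (u_j / u_i) x_i` satisfies `ρ ∘ thetaP i = algebraMap` (check on the
variables), and `algebraMap` is injective.
-/

set_option autoImplicit false

namespace H48SM

open MvPolynomial

theorem theta_exists {T : ℕ} (i : Fin T → Fin 3) :
    ∃ θ : Inv (GB T) →ₐ[ZMod 2] P T, ∀ f : Inv (GB T), tau T (θ f) = thetaP i f := by
  have hmem : ∀ f : Inv (GB T), ((thetaP i).comp (Inv (GB T)).val) f ∈ (tau T).range := by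
    intro f
    have h1 : ∀ b, sig b (thetaP i f) = thetaP i f := by
      intro b
      rw [← thetaP_subst, f.2 _ ⟨_, rfl⟩]
    obtain ⟨g, hg⟩ := exists_tau _ h1
    exact ⟨g, hg⟩
  refine ⟨(AlgEquiv.ofInjective (tau T) (tau_injective T)).symm.toAlgHom.comp
    (((thetaP i).comp (Inv (GB T)).val).codRestrict (tau T).range hmem), fun f => ?_⟩
  have h1 := AlgEquiv.apply_symm_apply (AlgEquiv.ofInjective (tau T) (tau_injective T))
    ((((thetaP i).comp (Inv (GB T)).val).codRestrict (tau T).range hmem) f)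
  have h2 := congrArg Subtype.val h1
  rw [AlgEquiv.ofInjective_apply] at h2
  exact h2

/-- the rational inverse of the chart map -/
noncomputable def the_rho {T : ℕ} (i : Fin T → Fin 3) :
    P T →ₐ[ZMod 2] FractionRing (MvPolynomial (Cx T) (ZMod 2)) :=
  aeval fun p => match p.2 with
    | Cv.s => algebraMap (MvPolynomial (Cx T) (ZMod 2)) _ (X (p.1, 1, i p.1))
    | Cv.x => algebraMap (MvPolynomial (Cx T) (ZMod 2)) _ (X (p.1, 0, i p.1))
    | Cv.w j => algebraMap (MvPolynomial (Cx T) (ZMod 2)) _ (X (p.1, 1, j)) /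
        algebraMap (MvPolynomial (Cx T) (ZMod 2)) _ (X (p.1, 1, i p.1))
    | Cv.z j => algebraMap (MvPolynomial (Cx T) (ZMod 2)) _ (X (p.1, 0, j)) -
        algebraMap (MvPolynomial (Cx T) (ZMod 2)) _ (X (p.1, 1, j)) /
          algebraMap (MvPolynomial (Cx T) (ZMod 2)) _ (X (p.1, 1, i p.1)) *
          algebraMap (MvPolynomial (Cx T) (ZMod 2)) _ (X (p.1, 0, i p.1))

theorem thetaP_injective {T : ℕ} (i : Fin T → Fin 3) : Function.Injective (thetaP i) := by
  have key : (the_rho i).comp (thetaP i) = IsScalarTower.toAlgHom (ZMod 2)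
      (MvPolynomial (Cx T) (ZMod 2)) (FractionRing (MvPolynomial (Cx T) (ZMod 2))) := by
    apply MvPolynomial.algHom_ext
    rintro ⟨b, c, j⟩
    have hu : algebraMap (MvPolynomial (Cx T) (ZMod 2))
        (FractionRing (MvPolynomial (Cx T) (ZMod 2))) (X (b, 1, i b)) ≠ 0 := by
      intro h0
      rw [← map_zero (algebraMap (MvPolynomial (Cx T) (ZMod 2))
        (FractionRing (MvPolynomial (Cx T) (ZMod 2))))] at h0
      exact X_ne_zero _ (IsFractionRing.injective (MvPolynomial (Cx T) (ZMod 2))
        (FractionRing (MvPolynomial (Cx T) (ZMod 2))) h0)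
    rw [AlgHom.comp_apply, IsScalarTower.coe_toAlgHom']
    unfold thetaP
    rw [aeval_X]
    have hc : c = 0 ∨ c = 1 := by
      fin_cases c
      · exact Or.inl rfl
      · exact Or.inr rfl
    rcases hc with rfl | rfl
    · rw [if_neg (by simp)]
      by_cases hj : j = i b
      · subst hj
        rw [if_pos rfl]
        simp only [the_rho, aeval_X]
      · rw [if_neg hj, map_add, map_mul]
        simp only [the_rho, aeval_X]
        exact sub_add_cancel _ _
    · rw [if_pos rfl]
      by_cases hj : j = i b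
      · subst hj
        rw [if_pos rfl]
        simp only [the_rho, aeval_X]
      · rw [if_neg hj, map_mul]
        simp only [the_rho, aeval_X]
        rw [mul_div_cancel₀ _ hu]
  intro f g hfg
  apply IsFractionRing.injective (MvPolynomial (Cx T) (ZMod 2))
    (FractionRing (MvPolynomial (Cx T) (ZMod 2)))
  have h1 := DFunLike.congr_fun key f
  have h2 := DFunLike.congr_fun key g
  rw [AlgHom.comp_apply, IsScalarTower.coe_toAlgHom'] at h1 h2
  rw [← h1, ← h2, hfg]

end H48SM
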