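import Pool.Agent.H48.SM.The

/-! # The chart homomorphism `theta` and its values -/

set_option autoImplicit false

namespace H48SM

open MvPolynomial

/-- the chart homomorphism -/
noncomputable def theta {T : ℕ} (i : Fin T → Fin 3) : Inv (GB T) →ₐ[ZMod 2] P T :=
  Classical.choose (theta_exists i)

theorem theta_spec {T : ℕ} (i : Fin T → Fin 3) (f : Inv (GB T)) :
    tau T (theta i f) = thetaP i f :=
  Classical.choose_spec (theta_exists i) f

theorem theta_injective {T : ℕ} (i : Fin T → Fin 3) : Function.Injective (theta i) := by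
  intro f g h
  have : thetaP i f = thetaP i g := by rw [← theta_spec, ← theta_spec, h]
  exact Subtype.ext (thetaP_injective i this)

theorem theta_u_piv {T : ℕ} (i : Fin T → Fin 3) (b : Fin T) :
    theta i (uI b (i b)) = X (b, Cv.s) := by
  apply tau_injective T
  rw [theta_spec]
  simp [uI, thetaP, tau]

theorem theta_u {T : ℕ} (i : Fin T → Fin 3) (b : Fin T) (j : Fin 3) (hj : j ≠ i b) :
    theta i (uI b j) = X (b, Cv.s) * X (b, Cv.w j) := by
  apply tau_injective T
  rw [theta_spec]
  simp [uI, thetaP, tau, hj]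

theorem theta_N {T : ℕ} (i : Fin T → Fin 3) (b : Fin T) :
    theta i (NI b (i b)) = X (b, Cv.x) := by
  apply tau_injective T
  rw [theta_spec]
  simp [NI, thetaP, tau]

theorem theta_M {T : ℕ} (i : Fin T → Fin 3) (b : Fin T) (j : Fin 3) (hj : j ≠ i b) :
    theta i (MI b (i b) j) = X (b, Cv.s) * X (b, Cv.z j) := by
  apply tau_injective T
  rw [theta_spec]
  have h2 : (2 : P T) = 0 := CharTwo.two_eq_zero
  simp only [MI, thetaP, tau, map_add, map_mul, aeval_X]
  simp only [hj, if_false, if_true, reduceCtorEq, zero_ne_one]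
  linear_combination (X (b, Cv.x) * X (b, Cv.s) * X (b, Cv.w j)) * h2

theorem sig_tau {T : ℕ} (b : Fin T) (g : P T) : sig b (tau T g) = tau T g := by
  have h : (sig b).comp (tau T) = tau T := by
    apply MvPolynomial.algHom_ext
    rintro ⟨b', c⟩
    have h2 : (2 : P T) = 0 := CharTwo.two_eq_zero
    simp only [AlgHom.comp_apply, tau, aeval_X]
    by_cases hc : c = Cv.x
    · subst hc
      simp only [if_true, map_add, map_mul, map_pow, sig, aeval_X, Prod.mk.injEq, reduceCtorEq,
        and_false, if_false, and_true]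
      by_cases hb : b' = b
      · subst hb
        simp only [if_true]
        linear_combination (X (b', Cv.x) * X (b', Cv.s) + X (b', Cv.s) ^ 2) * h2
      · simp only [hb, if_false]
    · simp only [hc, if_false, sig, aeval_X, Prod.mk.injEq, and_false]
  exact DFunLike.congr_fun h g

/-- divisibility by products of the `s_b` descends along `tau` -/
theorem dvd_of_dvd_tau {T : ℕ} {c g : P T} (hc : c ≠ 0) (hc1 : tau T c = c)
    (hc2 : ∀ b, sig b c = c) (h : c ∣ tau T g) : c ∣ g := by
  obtain ⟨y, hy⟩ := h
  have hyinv : ∀ b, sig b y = y := by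
    intro b
    have h1 := sig_tau b g
    rw [hy, map_mul, hc2 b] at h1
    exact mul_left_cancel₀ hc h1
  obtain ⟨y', rfl⟩ := exists_tau y hyinv
  refine ⟨y', ?_⟩
  apply tau_injective T
  rw [hy, map_mul, hc1]

end H48SM
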