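import Pool.Agent.H48.SM.Jse
import Pool.Agent.H48.SM.Dsj
import Pool.Agent.H48.SM.Pie
import Pool.Agent.H48.SM.Cla

/-! # Module USE: `uu T` is the stringy motive of `A^{6T} / (Z/2)^T`, and it converges

Proofs.  `isStringy_uu`: given `e`.  If `3 r ∤ e`: `jetSet = ∅` has class `0` (no pieces), `uu T e = 0`.  If `e = 3 r E`: `n₀ = 2 E`; for
`n ≥ n₀` the index set of pieces is the finite set of pairs `(ε, i)`, `ε ∈ antidiagonalTuple T E` (`∑ ε = E`, so `ε b ≤ E ≤ n`),
transported to `Fin m` (`Finset.equivFin` / `Fintype.equivFin`); pieces `DD ε i n _` with `psi`; immersions by `isPiece_psi`, disjoint by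
`psi_disj`, union by `mem_jetSet` (`Finset.Nat.mem_antidiagonalTuple`); `c = ∑ cls (DD ..)`.  Then `c * qpow (-(r (n * 6T))) * qpow (3 r E) = uE T E`
by `cls_DD`, `qpow_add` (`Fintype.card (Cx T) = 6 T`), `e / (3 r) = E`.
`conv_uu`: `(L - 1)^T * qpow j` is a `ℤ`-combination of `qpow (r a + j)`, `a ≤ T` (`sub_pow`/`add_pow` with `L = qpow r`), and
`qpow j' = cls pt * qpow j'` is in `Fil m` if `j' ≤ -m` (`ringKrullDim k = 0`).  The exponents in `uE T E` are at most
`r (5 T - 5 E + 3 E)`, so everything is in `Fil m` if `r (6 T - 2 E) ≤ -m`.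
-/

set_option autoImplicit false

namespace H48SM

theorem use_qpow_mem {k : Type} [Field k] {r : ℕ} {β : Prop} {m j : ℤ} (h : j ≤ -m) :
    (qpow k r j : Mot k r β) ∈ Fil k r m := by
  refine AddSubgroup.subset_closure ⟨Aff.pt k, 0, j, ?_, ?_, ?_⟩
  · exact le_of_eq (by
      change ringKrullDim k = _
      simp [ringKrullDim_eq_zero_of_field])
  · simpa using h
  · rw [cls_pt, one_mul]

theorem use_term {k : Type} [Field k] {r : ℕ} {β : Prop} (T : ℕ) :
    ∀ {m j : ℤ}, (r : ℤ) * T + j ≤ -m →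
      ((qpow k r r - 1) ^ T * qpow k r j : Mot k r β) ∈ Fil k r m := by
  induction T with
  | zero =>
    intro m j h
    rw [pow_zero, one_mul]
    exact use_qpow_mem (by simpa using h)
  | succ T ih =>
    intro m j h
    push_cast at h
    have hr : (0 : ℤ) ≤ r := Int.natCast_nonneg r
    have e : ((qpow k r r - 1) ^ (T + 1) * qpow k r j : Mot k r β) =
        (qpow k r r - 1) ^ T * qpow k r (r + j) - (qpow k r r - 1) ^ T * qpow k r j := by
      rw [qpow_add]
      ring
    rw [e]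
    refine AddSubgroup.sub_mem _ (ih ?_) (ih ?_)
    · linarith
    · nlinarith

theorem use_sum {T E : ℕ} {e : Fin T → ℕ} (he : e ∈ Finset.Nat.antidiagonalTuple T E)
    (i : Fin T → Fin 3) (a b : ℤ) :
    ∑ c, (a - b * (e c : ℤ) - ((i c : ℕ) : ℤ)) = T * a - b * E - ∑ c, ((i c : ℕ) : ℤ) := by
  rw [Finset.Nat.mem_antidiagonalTuple] at he
  rw [Finset.sum_sub_distrib, Finset.sum_sub_distrib, ← Finset.mul_sum, Finset.sum_const,
    Finset.card_univ, Fintype.card_fin, nsmul_eq_mul, ← he]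
  push_cast
  ring

theorem use_le {T E : ℕ} {e : Fin T → ℕ} (he : e ∈ Finset.Nat.antidiagonalTuple T E)
    (b : Fin T) : e b ≤ E := by
  rw [Finset.Nat.mem_antidiagonalTuple] at he
  rw [← he]
  exact Finset.single_le_sum (f := e) (fun _ _ => Nat.zero_le _) (Finset.mem_univ b)

theorem use_rr_pos (T : ℕ) : 0 < rr T := Nat.card_pos

theorem isStringy_uu (β : Prop) (T : ℕ) : IsStringy (GB T) (uu β T) := by
  classical
  intro e
  by_cases hd : 3 * rr T ∣ e
  · obtain ⟨E, rfl⟩ := hd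
    refine ⟨2 * E, fun n hn => ?_⟩
    set S : Finset ((Fin T → ℕ) × (Fin T → Fin 3)) :=
      Finset.Nat.antidiagonalTuple T E ×ˢ Finset.univ with hS
    have hle : ∀ p : {p // p ∈ S}, ∀ b, p.1.1 b ≤ n := by
      rintro ⟨p, hp⟩ b
      have h1 := (Finset.mem_product.1 hp).1
      have h2 := use_le h1 b
      show p.1 b ≤ n
      omega
    refine ⟨∑ p : {p // p ∈ S}, cls (rr T) (DD p.1.1 p.1.2 n (hle p)), ?_, ?_⟩
    · refine ⟨S.card, fun a => DD (S.equivFin.symm a).1.1 (S.equivFin.symm a).1.2 n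
        (hle (S.equivFin.symm a)), fun a => psi (S.equivFin.symm a).1.1 (S.equivFin.symm a).1.2 n
        (hle (S.equivFin.symm a)), ?_, ?_, ?_, ?_⟩
      · intro a
        exact isPiece_psi _ _ n _
      · intro a b hab
        refine psi_disj _ _ _ _ _ _ ?_
        intro h
        exact hab (S.equivFin.symm.injective (Subtype.ext h))
      · ext p
        rw [mem_jetSet hn, Set.mem_iUnion]
        constructor
        · rintro ⟨e, i, h, hsum, hp⟩
          have hmem : (e, i) ∈ S := by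
            rw [hS, Finset.mem_product, Finset.Nat.mem_antidiagonalTuple]
            exact ⟨hsum, Finset.mem_univ _⟩
          refine ⟨S.equivFin ⟨(e, i), hmem⟩, ?_⟩
          have key : ∀ q : {p // p ∈ S}, q = ⟨(e, i), hmem⟩ →
              p ∈ Set.range (PrimeSpectrum.comap (psi q.1.1 q.1.2 n (hle q)).toRingHom) := by
            rintro q rfl
            exact hp
          exact key _ (S.equivFin.symm_apply_apply _)
        · rintro ⟨a, ha⟩
          refine ⟨_, _, hle (S.equivFin.symm a), ?_, ha⟩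
          have key : ∀ q : {p // p ∈ S}, ∑ b, q.1.1 b = E := by
            rintro ⟨q, hq⟩
            exact Finset.Nat.mem_antidiagonalTuple.1 (Finset.mem_product.1 hq).1
          exact key _
      · exact (Equiv.sum_comp S.equivFin.symm
          (fun p : {p // p ∈ S} => (cls (rr T) (DD p.1.1 p.1.2 n (hle p)) :
            Mot (ZMod 2) (rr T) β))).symm
    · have hdiv : 3 * rr T * E / (3 * rr T) = E :=
        Nat.mul_div_cancel_left E (Nat.mul_pos (by norm_num) (use_rr_pos T))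
      rw [uu, if_pos (Dvd.intro _ rfl), hdiv, uE, Finset.sum_mul, Finset.sum_mul]
      have e1 : ∑ e ∈ Finset.Nat.antidiagonalTuple T E, ∑ i : Fin T → Fin 3,
          ((qpow (ZMod 2) (rr T) (rr T) - 1) ^ T *
            qpow (ZMod 2) (rr T) ((rr T : ℤ) * (∑ b, (5 - 5 * (e b : ℤ) - ((i b : ℕ) : ℤ)) + 3 * E)) :
              Mot (ZMod 2) (rr T) β) =
          ∑ p ∈ S, ((qpow (ZMod 2) (rr T) (rr T) - 1) ^ T *
            qpow (ZMod 2) (rr T)
              ((rr T : ℤ) * (∑ b, (5 - 5 * (p.1 b : ℤ) - ((p.2 b : ℕ) : ℤ)) + 3 * E))) := by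
        rw [hS, Finset.sum_product]
      rw [e1, ← Finset.sum_coe_sort S]
      refine Finset.sum_congr rfl ?_
      rintro ⟨⟨e, i⟩, hp⟩ _
      have he : e ∈ Finset.Nat.antidiagonalTuple T E := (Finset.mem_product.1 hp).1
      rw [cls_DD β e i n (hle ⟨(e, i), hp⟩), mul_assoc, mul_assoc, ← qpow_add, ← qpow_add]
      congr 2
      change (rr T : ℤ) * (∑ b, (5 - 5 * (e b : ℤ) - ((i b : ℕ) : ℤ)) + 3 * E) = _
      rw [use_sum he i 5 5, use_sum he i (6 * ((n : ℤ) + 1)) 5]
      have hc : (Fintype.card (Cx T) : ℤ) = 6 * T := by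
        simp only [Cx, Fintype.card_prod, Fintype.card_fin]
        push_cast
        ring
      rw [hc]
      push_cast
      ring
  · refine ⟨0, fun n _ => ⟨0, ?_, ?_⟩⟩
    · refine ⟨0, fun a => a.elim0, fun a => a.elim0, fun a => a.elim0, fun a => a.elim0, ?_, ?_⟩
      · rw [jetSet_empty hd]
        ext p
        simp
      · simp
    · rw [uu, if_neg hd, zero_mul, zero_mul]

theorem conv_uu (β : Prop) (T : ℕ) : Conv (uu β T) := by
  intro m
  refine ⟨3 * rr T * (3 * T + m), fun N hN => ?_⟩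
  by_cases hd : 3 * rr T ∣ N
  · obtain ⟨E, rfl⟩ := hd
    have hpos : 0 < 3 * rr T := Nat.mul_pos (by norm_num) (use_rr_pos T)
    have hdiv : 3 * rr T * E / (3 * rr T) = E := Nat.mul_div_cancel_left E hpos
    have hE : 3 * T + m ≤ E := Nat.le_of_mul_le_mul_left hN hpos
    rw [uu, if_pos (Dvd.intro _ rfl), hdiv, uE]
    refine AddSubgroup.sum_mem _ fun e he => AddSubgroup.sum_mem _ fun i _ => use_term T ?_
    rw [use_sum he i 5 5]
    have h1 : (0 : ℤ) ≤ ∑ c, ((i c : ℕ) : ℤ) := Finset.sum_nonneg fun c _ => Int.natCast_nonneg _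
    have h2 : (1 : ℤ) ≤ (rr T : ℤ) := by exact_mod_cast use_rr_pos T
    have h3 : (3 * T + m : ℤ) ≤ E := by exact_mod_cast hE
    have h4 : (0 : ℤ) ≤ m := Int.natCast_nonneg m
    have h5 : (rr T : ℤ) * (T + ((T : ℤ) * 5 - 5 * E - ∑ c, ((i c : ℕ) : ℤ) + 3 * E)) ≤
        (rr T : ℤ) * (-m) := mul_le_mul_of_nonneg_left (by linarith) (by linarith)
    have h6 : (rr T : ℤ) * (-m) ≤ -m := by nlinarith
    linarith
  · rw [uu, if_neg hd]
    exact AddSubgroup.zero_mem _

end H48SM
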