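import Pool.Agent.H48.SM.Jac

/-! # Module ZERO: arcs in the singular locus

Proof of `arc_zero`: `S = k[V]` is integral over `A = Inv (GB T)` (`u_{b,j} ∈ A`, `x_{b,j}` is a root of the monic
`Y^2 + u_{b,j} Y + N_{b,j}` with coefficients in `A`; `S` is generated by these).  The kernel `p` of `γ` is
a prime ideal of `A` containing the `uI b j`.  By lying over (`Ideal.exists_ideal_over_prime_of_isIntegral`
or similar) there is a prime `P` of `S` with `P ∩ A = p`.  `h ∈ jacGen` lies in the ideal of `S` generated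
by the `u_{b,j}` (`jac_mem`), which is contained in `P`; so `h ∈ P ∩ A = p`.
`ordF_top`: infimum of `⊤` over `jacGen`.
-/

set_option autoImplicit false

namespace H48SM

open MvPolynomial

theorem zero_int_X {T : ℕ} (p : Cx T) :
    IsIntegral (Inv (GB T)) (X p : MvPolynomial (Cx T) (ZMod 2)) := by
  obtain ⟨b, a, j⟩ := p
  have ha : a = 0 ∨ a = 1 := by
    revert a
    decide
  rcases ha with rfl | rfl
  · refine ⟨Polynomial.X ^ 2 + (Polynomial.C (uI b j) * Polynomial.X + Polynomial.C (NI b j)),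
      ?_, ?_⟩
    · refine Polynomial.monic_X_pow_add ?_
      refine lt_of_le_of_lt Polynomial.degree_linear_le ?_
      exact_mod_cast one_lt_two
    · have h2 : (2 : MvPolynomial (Cx T) (ZMod 2)) = 0 := CharTwo.two_eq_zero
      simp only [Polynomial.eval₂_add, Polynomial.eval₂_mul, Polynomial.eval₂_pow,
        Polynomial.eval₂_X, Polynomial.eval₂_C]
      have e1 : algebraMap (Inv (GB T)) (MvPolynomial (Cx T) (ZMod 2)) (uI b j) = X (b, 1, j) := rfl
      have e2 : algebraMap (Inv (GB T)) (MvPolynomial (Cx T) (ZMod 2)) (NI b j) =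
        X (b, 0, j) ^ 2 + X (b, 1, j) * X (b, 0, j) := rfl
      rw [e1, e2]
      linear_combination (X (b, 0, j) ^ 2 + X (b, 1, j) * X (b, 0, j)) * h2
  · exact isIntegral_algebraMap (x := uI b j)

theorem zero_integral (T : ℕ) :
    Algebra.IsIntegral (Inv (GB T)) (MvPolynomial (Cx T) (ZMod 2)) := by
  refine ⟨fun f => ?_⟩
  induction f using MvPolynomial.induction_on with
  | C a => exact isIntegral_algebraMap (x := algebraMap (ZMod 2) (Inv (GB T)) a)
  | add p q hp hq => exact hp.add hq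
  | mul_X p n hp => exact hp.mul (zero_int_X n)

theorem arc_zero {T : ℕ} {K : Type} [Field K] [Algebra (ZMod 2) K] (γ : Arc (GB T) K) (b : Fin T)
    (h0 : ∀ j, γ (uI b j) = 0) (h : Inv (GB T)) (hh : h ∈ jacGen (GB T)) : γ h = 0 := by
  have hint := zero_integral T
  have hp : (RingHom.ker γ.toRingHom).IsPrime := RingHom.ker_isPrime _
  obtain ⟨Q, hQ, hQc⟩ := Ideal.exists_ideal_over_prime_of_isIntegral_of_isDomain
    (S := MvPolynomial (Cx T) (ZMod 2)) (RingHom.ker γ.toRingHom) (by
      intro x hx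
      have hx' : x = 0 := Subtype.ext hx
      rw [hx']
      exact Ideal.zero_mem _)
  have hu : ∀ j : Fin 3, (X (b, 1, j) : MvPolynomial (Cx T) (ZMod 2)) ∈ Q := by
    intro j
    have h1 : uI b j ∈ Q.comap (algebraMap (Inv (GB T)) (MvPolynomial (Cx T) (ZMod 2))) := by
      rw [hQc]
      exact h0 j
    exact h1
  have h1 : (h : MvPolynomial (Cx T) (ZMod 2)) ∈ Q := by
    refine (Ideal.span_le.2 ?_) (jac_mem b h hh)
    rintro _ ⟨j, rfl⟩
    exact hu j
  have h2 : h ∈ Q.comap (algebraMap (Inv (GB T)) (MvPolynomial (Cx T) (ZMod 2))) := h1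
  rw [hQc] at h2
  exact h2

theorem ordF_top {T : ℕ} {K : Type} [Field K] [Algebra (ZMod 2) K] (γ : Arc (GB T) K) (b : Fin T)
    (h0 : ∀ j, γ (uI b j) = 0) : ordF (GB T) γ = ⊤ := by
  unfold ordF
  rw [iInf_eq_top]
  intro h
  rw [iInf_eq_top]
  intro hh
  rw [arc_zero γ b h0 h hh, PowerSeries.order_zero]

end H48SM
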